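import Pool.Agent.helper21.LD.Defs

/-! Basic facts on orbitals. -/

namespace WildLD

open Equiv WildJ

variable {Ω : Type} [Fintype Ω] [DecidableEq Ω]

theorem BasicA_deg_le {G : Subgroup (Perm Ω)} (htr : Tr G) {D : Finset (Ω × Ω)} (hD : Orb G D)
    (π : Ω × Ω → Ω) (hπ : ∀ (g : Perm Ω) (a b : Ω), π (g a, g b) = g (π (a, b))) (x y : Ω) :
    (D.filter fun p => π p = x).card ≤ (D.filter fun p => π p = y).card := by
  obtain ⟨g, hg, hgx⟩ := htr x y
  apply Finset.card_le_card_of_injOn (fun p => (g p.1, g p.2))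
  · intro p hp
    simp only [Finset.coe_filter, Set.mem_ofPred_eq] at hp ⊢
    refine ⟨hD.inv g hg p.1 p.2 hp.1, ?_⟩
    rw [hπ, hp.2, hgx]
  · intro p _ q _ hpq
    simp only [Prod.mk.injEq, EmbeddingLike.apply_eq_iff_eq] at hpq
    exact Prod.ext hpq.1 hpq.2

theorem BasicA_card {G : Subgroup (Perm Ω)} (htr : Tr G) {D : Finset (Ω × Ω)} (hD : Orb G D)
    (π : Ω × Ω → Ω) (hπ : ∀ (g : Perm Ω) (a b : Ω), π (g a, g b) = g (π (a, b))) (x : Ω) :
    D.card = Fintype.card Ω * (D.filter fun p => π p = x).card := by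
  rw [Finset.card_eq_sum_card_fiberwise (f := π) (s := D) (t := Finset.univ)
    (fun _ _ => Finset.mem_coe.2 (Finset.mem_univ _))]
  rw [Finset.sum_congr rfl (g := fun _ => (D.filter fun p => π p = x).card)
    (fun y _ => le_antisymm (BasicA_deg_le htr hD π hπ y x) (BasicA_deg_le htr hD π hπ x y))]
  rw [Finset.sum_const, smul_eq_mul, Finset.card_univ]

theorem BasicA_deg {G : Subgroup (Perm Ω)} (htr : Tr G) {D : Finset (Ω × Ω)} (hD : Orb G D) {d : ℕ}
    (hd : D.card = Fintype.card Ω * d)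
    (π : Ω × Ω → Ω) (hπ : ∀ (g : Perm Ω) (a b : Ω), π (g a, g b) = g (π (a, b))) (x : Ω) :
    (D.filter fun p => π p = x).card = d := by
  have h := BasicA_card htr hD π hπ x
  rw [hd] at h
  have h0 : 0 < Fintype.card Ω := Fintype.card_pos_iff.2 ⟨x⟩
  exact (Nat.eq_of_mul_eq_mul_left h0 h).symm

theorem BasicA_mem {D : Finset (Ω × Ω)} {d : ℕ} (π : Ω × Ω → Ω)
    (h : ∀ x, (D.filter fun p => π p = x).card = d) (A : Finset Ω) :
    (D.filter fun p => π p ∈ A).card = A.card * d := by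
  rw [Finset.card_eq_sum_card_fiberwise (f := π) (s := D.filter fun p => π p ∈ A) (t := A)]
  · rw [Finset.sum_congr rfl (g := fun _ => d)]
    · rw [Finset.sum_const, smul_eq_mul]
    · intro x hx
      rw [← h x, Finset.filter_filter]
      congr 1
      ext p
      simp only [Finset.mem_filter]
      constructor
      · rintro ⟨h1, h2, h3⟩
        exact ⟨h1, h3⟩
      · rintro ⟨h1, h2⟩
        exact ⟨h1, h2 ▸ hx, h2⟩
  · intro p hp
    rw [Finset.mem_coe, Finset.mem_filter] at hp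
    exact hp.2

/-- Every point has `d` outgoing arcs.  Proof: by transitivity all out-degrees are equal
(`g` maps the arcs at `x` to the arcs at `g x`), their sum is `D.card`. -/
theorem outdeg {G : Subgroup (Perm Ω)} (htr : Tr G) {D : Finset (Ω × Ω)} (hD : Orb G D) {d : ℕ}
    (hd : D.card = Fintype.card Ω * d) (x : Ω) : (D.filter fun p => p.1 = x).card = d := by
  exact BasicA_deg htr hD hd (fun p => p.1) (fun _ _ _ => rfl) x

theorem indeg {G : Subgroup (Perm Ω)} (htr : Tr G) {D : Finset (Ω × Ω)} (hD : Orb G D) {d : ℕ}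
    (hd : D.card = Fintype.card Ω * d) (x : Ω) : (D.filter fun p => p.2 = x).card = d := by
  exact BasicA_deg htr hD hd (fun p => p.2) (fun _ _ _ => rfl) x

/-- Every orbital has an out-degree. -/
theorem exists_deg {G : Subgroup (Perm Ω)} (htr : Tr G) {D : Finset (Ω × Ω)} (hD : Orb G D) :
    ∃ d, 1 ≤ d ∧ D.card = Fintype.card Ω * d := by
  obtain ⟨p, hp⟩ := hD.ne
  refine ⟨(D.filter fun q => q.1 = p.1).card, ?_, BasicA_card htr hD (fun q => q.1)
    (fun _ _ _ => rfl) p.1⟩
  exact Finset.card_pos.2 ⟨p, Finset.mem_filter.2 ⟨hp, rfl⟩⟩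

/-- The number of arcs leaving `A` is the number of arcs entering `A`.

Proof.  The number of arcs starting in `A` is `d * card A`, the number of arcs ending in `A` is
`d * card A`; subtract the number of arcs inside `A`. -/
theorem ex_compl {G : Subgroup (Perm Ω)} (htr : Tr G) {D : Finset (Ω × Ω)} (hD : Orb G D) {d : ℕ}
    (hd : D.card = Fintype.card Ω * d) (A : Finset Ω) : ex D Aᶜ = ex D A := by
  have h1 := BasicA_mem (D := D) (fun p => p.1) (fun x => outdeg htr hD hd x) A
  have h2 := BasicA_mem (D := D) (fun p => p.2) (fun x => indeg htr hD hd x) A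
  have h3 := Finset.card_filter_add_card_filter_not (s := D.filter fun p => p.1 ∈ A)
    (fun p => p.2 ∈ A)
  have h4 := Finset.card_filter_add_card_filter_not (s := D.filter fun p => p.2 ∈ A)
    (fun p => p.1 ∈ A)
  rw [Finset.filter_filter, Finset.filter_filter] at h3 h4
  have h5 : (D.filter fun p => p.2 ∈ A ∧ p.1 ∈ A) = D.filter fun p => p.1 ∈ A ∧ p.2 ∈ A := by
    ext p
    simp only [Finset.mem_filter]
    tauto
  have h6 : ex D Aᶜ = (D.filter fun p => p.2 ∈ A ∧ ¬ p.1 ∈ A).card := by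
    unfold ex
    congr 1
    ext p
    simp only [Finset.mem_filter, Finset.mem_compl, not_not]
    tauto
  have h7 : ex D A = (D.filter fun p => p.1 ∈ A ∧ ¬ p.2 ∈ A).card := rfl
  rw [h5] at h4
  omega

theorem orbOf_orb {G : Subgroup (Perm Ω)} {x y : Ω} (hxy : x ≠ y) : Orb G (orbOf G x y) := by
  classical
  refine ⟨⟨(x, y), ?_⟩, ?_, ?_, ?_⟩
  · unfold orbOf
    rw [Finset.mem_filter]
    exact ⟨Finset.mem_univ _, 1, G.one_mem, rfl, rfl⟩
  · intro z hz
    unfold orbOf at hz
    rw [Finset.mem_filter] at hz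
    obtain ⟨_, g, _, h1, h2⟩ := hz
    exact hxy (g.injective (h1.trans h2.symm))
  · intro g hg a b hab
    unfold orbOf at hab ⊢
    rw [Finset.mem_filter] at hab ⊢
    obtain ⟨_, h, hh, h1, h2⟩ := hab
    refine ⟨Finset.mem_univ _, g * h, G.mul_mem hg hh, ?_, ?_⟩
    · rw [Perm.mul_apply, h1]
    · rw [Perm.mul_apply, h2]
  · intro p hp q hq
    unfold orbOf at hp hq
    rw [Finset.mem_filter] at hp hq
    obtain ⟨_, h, hh, h1, h2⟩ := hp
    obtain ⟨_, k, hk, k1, k2⟩ := hq
    refine ⟨k * h⁻¹, G.mul_mem hk (G.inv_mem hh), ?_, ?_⟩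
    · rw [Perm.mul_apply, ← h1, show h⁻¹ (h x) = x from h.symm_apply_apply x, k1]
    · rw [Perm.mul_apply, ← h2, show h⁻¹ (h y) = y from h.symm_apply_apply y, k2]

theorem mem_orbOf {G : Subgroup (Perm Ω)} (x y : Ω) : (x, y) ∈ orbOf G x y := by
  classical
  unfold orbOf
  rw [Finset.mem_filter]
  exact ⟨Finset.mem_univ _, 1, G.one_mem, rfl, rfl⟩

/-- The graph of an orbital of a primitive group is connected.  Proof: reachability is an invariant
equivalence relation and not equality. -/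
theorem conn {G : Subgroup (Perm Ω)} (hG : Prim G) {D : Finset (Ω × Ω)} (hD : Orb G D) :
    (Gam D).Connected := by
  obtain ⟨p, hp⟩ := hD.ne
  have hadj : ∀ g ∈ G, ∀ x y, (Gam D).Adj x y → (Gam D).Adj (g x) (g y) := by
    intro g hg x y h
    unfold Gam at h ⊢
    rw [SimpleGraph.fromRel_adj] at h ⊢
    refine ⟨fun he => h.1 (g.injective he), ?_⟩
    rcases h.2 with h2 | h2
    · exact Or.inl (hD.inv g hg _ _ h2)
    · exact Or.inr (hD.inv g hg _ _ h2)
  have hR := hG (Gam D).Reachable (SimpleGraph.reachable_is_equivalence _) (by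
    intro g hg x y h
    exact h.map (⟨g, fun {a b} hab => hadj g hg a b hab⟩ : Gam D →g Gam D))
  have hne : p.1 ≠ p.2 := by
    intro he
    apply hD.irr p.1
    have : p = (p.1, p.1) := Prod.ext rfl he.symm
    rwa [← this]
  have hpadj : (Gam D).Adj p.1 p.2 := by
    unfold Gam
    rw [SimpleGraph.fromRel_adj]
    exact ⟨hne, Or.inl hp⟩
  rcases hR with h | h
  · exact absurd (h _ _ hpadj.reachable) hne
  · have : Nonempty Ω := ⟨p.1⟩
    exact ⟨h⟩

end WildLD
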