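import Pool.Agent.helper21.LD.BasicA

/-! Distances, balls and spheres in the graph of an orbital.  (proofs: helper51) -/

namespace WildLD

open Equiv WildJ

variable {Ω : Type} [Fintype Ω] [DecidableEq Ω]

private theorem BasicB_adj {G : Subgroup (Perm Ω)} {D : Finset (Ω × Ω)} (hD : Orb G D) {g : Perm Ω}
    (hg : g ∈ G) {x y : Ω} (h : (Gam D).Adj x y) : (Gam D).Adj (g x) (g y) := by
  unfold Gam at h ⊢
  rw [SimpleGraph.fromRel_adj] at h ⊢
  refine ⟨fun he => h.1 (g.injective he), ?_⟩
  rcases h.2 with h2 | h2
  · exact Or.inl (hD.inv g hg _ _ h2)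
  · exact Or.inr (hD.inv g hg _ _ h2)

private theorem BasicB_dist_le {G : Subgroup (Perm Ω)} {D : Finset (Ω × Ω)} (hD : Orb G D)
    {g : Perm Ω} (hg : g ∈ G) {x y : Ω} (hr : (Gam D).Reachable x y) :
    (Gam D).Reachable (g x) (g y) ∧ (Gam D).dist (g x) (g y) ≤ (Gam D).dist x y := by
  obtain ⟨w, hw⟩ := hr.exists_walk_length_eq_dist
  let φ : (Gam D) →g (Gam D) := ⟨g, fun h => BasicB_adj hD hg h⟩
  have h1 : (w.map φ).length = (Gam D).dist x y := by rw [SimpleGraph.Walk.length_map, hw]
  refine ⟨⟨w.map φ⟩, ?_⟩
  rw [← h1]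
  exact SimpleGraph.dist_le (w.map φ)

/-- Elements of `G` preserve the distance.  Proof: `SimpleGraph.Iso`. -/
theorem dist_map {G : Subgroup (Perm Ω)} {D : Finset (Ω × Ω)} (hD : Orb G D) {g : Perm Ω}
    (hg : g ∈ G) (x y : Ω) : (Gam D).dist (g x) (g y) = (Gam D).dist x y := by
  by_cases hr : (Gam D).Reachable x y
  · obtain ⟨h1, h2⟩ := BasicB_dist_le hD hg hr
    have h3 := (BasicB_dist_le hD (G.inv_mem hg) h1).2
    have e1 : g⁻¹ (g x) = x := g.symm_apply_apply x
    have e2 : g⁻¹ (g y) = y := g.symm_apply_apply y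
    rw [e1, e2] at h3
    exact le_antisymm h2 h3
  · have hr' : ¬ (Gam D).Reachable (g x) (g y) := by
      intro h
      have h3 := (BasicB_dist_le hD (G.inv_mem hg) h).1
      have e1 : g⁻¹ (g x) = x := g.symm_apply_apply x
      have e2 : g⁻¹ (g y) = y := g.symm_apply_apply y
      rw [e1, e2] at h3
      exact hr h3
    rw [SimpleGraph.dist_eq_zero_of_not_reachable hr,
      SimpleGraph.dist_eq_zero_of_not_reachable hr']

private theorem BasicB_card_le {G : Subgroup (Perm Ω)} (htr : Tr G) {D : Finset (Ω × Ω)}
    (hD : Orb G D) (v w : Ω) (P : ℕ → Prop) [DecidablePred P] :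
    (Finset.univ.filter fun y => P ((Gam D).dist v y)).card ≤
      (Finset.univ.filter fun y => P ((Gam D).dist w y)).card := by
  obtain ⟨g, hg, hgv⟩ := htr v w
  refine Finset.card_le_card_of_injOn g ?_ (g.injective.injOn)
  intro y hy
  rw [Finset.mem_coe, Finset.mem_filter] at hy ⊢
  refine ⟨Finset.mem_univ _, ?_⟩
  rw [← hgv, dist_map hD hg]
  exact hy.2

theorem Bl_card {G : Subgroup (Perm Ω)} (htr : Tr G) {D : Finset (Ω × Ω)} (hD : Orb G D)
    (v w : Ω) (r : ℕ) : (Bl D v r).card = (Bl D w r).card := by
  classical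
  unfold Bl
  exact le_antisymm (BasicB_card_le htr hD v w (fun n => n ≤ r))
    (BasicB_card_le htr hD w v (fun n => n ≤ r))

theorem Sp_card {G : Subgroup (Perm Ω)} (htr : Tr G) {D : Finset (Ω × Ω)} (hD : Orb G D)
    (v w : Ω) (r : ℕ) : (Sp D v r).card = (Sp D w r).card := by
  classical
  unfold Sp
  exact le_antisymm (BasicB_card_le htr hD v w (fun n => n = r))
    (BasicB_card_le htr hD w v (fun n => n = r))

private theorem BasicB_geo {D : Finset (Ω × Ω)} (hc : (Gam D).Connected) (v y : Ω) :
    ∃ γ : ℕ → Ω, γ 0 = v ∧ γ ((Gam D).dist v y) = y ∧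
      ∀ i j, i ≤ j → j ≤ (Gam D).dist v y → (Gam D).dist (γ i) (γ j) = j - i := by
  obtain ⟨w, hw⟩ := hc.exists_walk_length_eq_dist v y
  have hle : ∀ i k, i + k ≤ w.length → (Gam D).dist (w.getVert i) (w.getVert (i + k)) ≤ k := by
    intro i k
    induction k with
    | zero => intro _; simp
    | succ k ih =>
      intro h
      have h1 := ih (by omega)
      have h2 : (Gam D).dist (w.getVert (i + k)) (w.getVert (i + k + 1)) = 1 :=
        SimpleGraph.dist_eq_one_iff_adj.mpr (w.adj_getVert_succ (by omega))
      have h3 := hc.dist_triangle (u := w.getVert i) (v := w.getVert (i + k))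
        (w := w.getVert (i + k + 1))
      rw [show i + (k + 1) = i + k + 1 by ring]
      omega
  refine ⟨w.getVert, w.getVert_zero, ?_, ?_⟩
  · rw [← hw]
    exact w.getVert_length
  · intro i j hij hj
    rw [← hw] at hj
    have h1 := hle i (j - i) (by omega)
    have h2 := hle 0 i (by omega)
    have h3 := hle j (w.length - j) (by omega)
    rw [show i + (j - i) = j by omega] at h1
    rw [show 0 + i = i by omega, w.getVert_zero] at h2
    rw [show j + (w.length - j) = w.length by omega, w.getVert_length] at h3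
    have h4 := hc.dist_triangle (u := v) (v := w.getVert i) (w := y)
    have h5 := hc.dist_triangle (u := w.getVert i) (v := w.getVert j) (w := y)
    omega

/-- If the ball of radius `r` is not everything, all distances up to `r + 1` occur.  Proof: take a
point at distance `> r` and a shortest walk. -/
theorem exists_dist {D : Finset (Ω × Ω)} (hc : (Gam D).Connected) {v : Ω} {r : ℕ}
    (hr : Bl D v r ≠ Finset.univ) {j : ℕ} (hj : j ≤ r + 1) : ∃ y, (Gam D).dist v y = j := by
  classical
  have h1 : ∃ y, r < (Gam D).dist v y := by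
    by_contra hcon
    push Not at hcon
    apply hr
    unfold Bl
    rw [Finset.filter_eq_self]
    intro y _
    exact hcon y
  obtain ⟨y, hy⟩ := h1
  obtain ⟨γ, h0, _, h2⟩ := BasicB_geo hc v y
  refine ⟨γ j, ?_⟩
  have h3 := h2 0 j (Nat.zero_le _) (by omega)
  rw [h0] at h3
  omega

/-- A shortest walk (`SimpleGraph.Walk.getVert`). -/
theorem exists_geo {D : Finset (Ω × Ω)} (hc : (Gam D).Connected) (v y : Ω) :
    ∃ γ : ℕ → Ω, γ 0 = v ∧ γ ((Gam D).dist v y) = y ∧
      ∀ i j, i ≤ j → j ≤ (Gam D).dist v y → (Gam D).dist (γ i) (γ j) = j - i :=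
  BasicB_geo hc v y

/-- Proof: a point at distance `i + j` from `v` is at distance `j` from a point at distance `i`
(`exists_geo`), `Sp_card`. -/
theorem Sp_mul {G : Subgroup (Perm Ω)} (htr : Tr G) {D : Finset (Ω × Ω)} (hD : Orb G D)
    (hc : (Gam D).Connected) (v : Ω) (i j : ℕ) :
    (Sp D v (i + j)).card ≤ (Sp D v i).card * (Sp D v j).card := by
  classical
  have h1 : Sp D v (i + j) ⊆ (Sp D v i).biUnion fun x => Sp D x j := by
    intro y hy
    unfold Sp at hy
    rw [Finset.mem_filter] at hy
    obtain ⟨γ, g0, g1, g2⟩ := BasicB_geo hc v y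
    rw [Finset.mem_biUnion]
    refine ⟨γ i, ?_, ?_⟩
    · unfold Sp
      rw [Finset.mem_filter]
      refine ⟨Finset.mem_univ _, ?_⟩
      have := g2 0 i (Nat.zero_le _) (by omega)
      rw [g0] at this
      omega
    · unfold Sp
      rw [Finset.mem_filter]
      refine ⟨Finset.mem_univ _, ?_⟩
      have := g2 i ((Gam D).dist v y) (by omega) le_rfl
      rw [g1] at this
      omega
  refine (Finset.card_le_card h1).trans ?_
  refine Finset.card_biUnion_le.trans ?_
  rw [Finset.sum_congr rfl (g := fun _ => (Sp D v j).card) (fun x _ => Sp_card htr hD x v j)]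
  rw [Finset.sum_const, smul_eq_mul]

theorem Bl_one {G : Subgroup (Perm Ω)} (htr : Tr G) {D : Finset (Ω × Ω)} (hD : Orb G D) {d : ℕ}
    (hd : D.card = Fintype.card Ω * d) (hc : (Gam D).Connected) (v : Ω) :
    d + 1 ≤ (Bl D v 1).card ∧ (Bl D v 1).card ≤ 2 * d + 1 := by
  classical
  have ho := outdeg htr hD hd v
  have hi := indeg htr hD hd v
  have hoc : ((D.filter fun p => p.1 = v).image Prod.snd).card = d := by
    rw [Finset.card_image_of_injOn, ho]
    intro p hp q hq hpq
    rw [Finset.mem_coe, Finset.mem_filter] at hp hq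
    exact Prod.ext (hp.2.trans hq.2.symm) hpq
  have hic : ((D.filter fun p => p.2 = v).image Prod.fst).card = d := by
    rw [Finset.card_image_of_injOn, hi]
    intro p hp q hq hpq
    rw [Finset.mem_coe, Finset.mem_filter] at hp hq
    exact Prod.ext hpq (hp.2.trans hq.2.symm)
  have hvn : v ∉ (D.filter fun p => p.1 = v).image Prod.snd := by
    intro h
    rw [Finset.mem_image] at h
    obtain ⟨p, hp, hpv⟩ := h
    rw [Finset.mem_filter] at hp
    apply hD.irr v
    have : p = (v, v) := Prod.ext hp.2 hpv
    rw [← this]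
    exact hp.1
  constructor
  · have h1 : insert v ((D.filter fun p => p.1 = v).image Prod.snd) ⊆ Bl D v 1 := by
      intro y hy
      unfold Bl
      rw [Finset.mem_filter]
      refine ⟨Finset.mem_univ _, ?_⟩
      rw [Finset.mem_insert] at hy
      rcases hy with hy | hy
      · rw [hy, SimpleGraph.dist_self]
        exact Nat.zero_le _
      · have hyv : v ≠ y := by
          intro h
          rw [← h] at hy
          exact hvn hy
        rw [Finset.mem_image] at hy
        obtain ⟨p, hp, hpy⟩ := hy
        rw [Finset.mem_filter] at hp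
        have h2 : (Gam D).Adj v y := by
          unfold Gam
          rw [SimpleGraph.fromRel_adj]
          refine ⟨hyv, Or.inl ?_⟩
          have : p = (v, y) := Prod.ext hp.2 hpy
          rw [← this]
          exact hp.1
        rw [SimpleGraph.dist_eq_one_iff_adj.mpr h2]
    have h2 := Finset.card_le_card h1
    rw [Finset.card_insert_of_notMem hvn, hoc] at h2
    exact h2
  · have h1 : Bl D v 1 ⊆ insert v (((D.filter fun p => p.1 = v).image Prod.snd) ∪
        ((D.filter fun p => p.2 = v).image Prod.fst)) := by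
      intro y hy
      unfold Bl at hy
      rw [Finset.mem_filter] at hy
      rw [Finset.mem_insert, Finset.mem_union]
      rcases Nat.lt_or_ge ((Gam D).dist v y) 1 with h | h
      · left
        have h3 : (Gam D).dist v y = 0 := by omega
        exact ((hc.dist_eq_zero_iff).mp h3).symm
      · right
        have h3 : (Gam D).dist v y = 1 := by omega
        have h4 := SimpleGraph.dist_eq_one_iff_adj.mp h3
        unfold Gam at h4
        rw [SimpleGraph.fromRel_adj] at h4
        rcases h4.2 with h5 | h5
        · left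
          rw [Finset.mem_image]
          exact ⟨(v, y), Finset.mem_filter.mpr ⟨h5, rfl⟩, rfl⟩
        · right
          rw [Finset.mem_image]
          exact ⟨(y, v), Finset.mem_filter.mpr ⟨h5, rfl⟩, rfl⟩
    have h2 := Finset.card_le_card h1
    have h3 := Finset.card_insert_le v (((D.filter fun p => p.1 = v).image Prod.snd) ∪
        ((D.filter fun p => p.2 = v).image Prod.fst))
    have h4 := Finset.card_union_le ((D.filter fun p => p.1 = v).image Prod.snd)
        ((D.filter fun p => p.2 = v).image Prod.fst)
    rw [hoc, hic] at h4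
    omega

/-- Proof: induction on `r`; every point at distance `r + 1` is adjacent to a point at distance `r`. -/
theorem Bl_pow {G : Subgroup (Perm Ω)} (htr : Tr G) {D : Finset (Ω × Ω)} (hD : Orb G D)
    (hc : (Gam D).Connected) (v : Ω) (r : ℕ) : (Bl D v r).card ≤ (Bl D v 1).card ^ r := by
  classical
  induction r with
  | zero =>
    rw [pow_zero]
    rw [Finset.card_le_one]
    intro a ha b hb
    unfold Bl at ha hb
    rw [Finset.mem_filter] at ha hb
    have h1 := (hc.dist_eq_zero_iff).mp (Nat.le_zero.mp ha.2)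
    have h2 := (hc.dist_eq_zero_iff).mp (Nat.le_zero.mp hb.2)
    exact h1.symm.trans h2
  | succ r ih =>
    have h1 : Bl D v (r + 1) ⊆ (Bl D v r).biUnion fun x => Bl D x 1 := by
      intro y hy
      unfold Bl at hy
      rw [Finset.mem_filter] at hy
      rw [Finset.mem_biUnion]
      rcases Nat.lt_or_ge r ((Gam D).dist v y) with h | h
      · obtain ⟨γ, g0, g1, g2⟩ := BasicB_geo hc v y
        refine ⟨γ r, ?_, ?_⟩
        · unfold Bl
          rw [Finset.mem_filter]
          refine ⟨Finset.mem_univ _, ?_⟩
          have := g2 0 r (Nat.zero_le _) (by omega)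
          rw [g0] at this
          omega
        · unfold Bl
          rw [Finset.mem_filter]
          refine ⟨Finset.mem_univ _, ?_⟩
          have := g2 r ((Gam D).dist v y) (by omega) le_rfl
          rw [g1] at this
          have h3 := hy.2
          omega
      · refine ⟨y, ?_, ?_⟩
        · unfold Bl
          rw [Finset.mem_filter]
          exact ⟨Finset.mem_univ _, h⟩
        · unfold Bl
          rw [Finset.mem_filter]
          refine ⟨Finset.mem_univ _, ?_⟩
          rw [SimpleGraph.dist_self]
          exact Nat.zero_le _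
    refine (Finset.card_le_card h1).trans ?_
    refine Finset.card_biUnion_le.trans ?_
    rw [Finset.sum_congr rfl (g := fun _ => (Bl D v 1).card) (fun x _ => Bl_card htr hD x v 1)]
    rw [Finset.sum_const, smul_eq_mul, pow_succ]
    exact Nat.mul_le_mul_right _ ih

/-- `card Bl = ∑ card Sp`. -/
theorem Bl_sum (D : Finset (Ω × Ω)) (v : Ω) (r : ℕ) :
    (Bl D v r).card = ∑ j ∈ Finset.range (r + 1), (Sp D v j).card := by
  classical
  rw [Finset.card_eq_sum_card_fiberwise (f := fun y => (Gam D).dist v y)
    (s := Bl D v r) (t := Finset.range (r + 1))]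
  · refine Finset.sum_congr rfl fun j hj => ?_
    rw [Finset.mem_range] at hj
    congr 1
    unfold Bl Sp
    ext y
    simp only [Finset.mem_filter, Finset.mem_univ, true_and]
    constructor
    · rintro ⟨_, h⟩
      exact h
    · intro h
      exact ⟨by omega, h⟩
  · intro y hy
    unfold Bl at hy
    rw [Finset.mem_coe, Finset.mem_filter] at hy
    rw [Finset.mem_coe, Finset.mem_range]
    have := hy.2
    simp only
    omega

end WildLD
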