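import Pool.Agent.helper21.LD.Defs

/-! The theorem of Hurwitz. -/

namespace WildLD

open Equiv WildJ

variable {Ω : Type} [Fintype Ω] [DecidableEq Ω]

theorem Hur_inv {n m : ℕ} (hm : 0 < m) (h : m ≤ n) : 1 / (n : ℚ) ≤ 1 / (m : ℚ) :=
  one_div_le_one_div_of_le (by exact_mod_cast hm) (by exact_mod_cast h)

theorem Hur_sorted {p q r : ℕ} (hp : 2 ≤ p) (hpq : p ≤ q) (hqr : q ≤ r)
    (h : 1 / (p : ℚ) + 1 / (q : ℚ) + 1 / (r : ℚ) < 1) :
    1 / (p : ℚ) + 1 / (q : ℚ) + 1 / (r : ℚ) ≤ 41 / 42 := by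
  have hr0 : 0 < 1 / (r : ℚ) := by
    have : (0 : ℚ) < r := by exact_mod_cast (by omega : 0 < r)
    positivity
  rcases (by omega : p = 2 ∨ p = 3 ∨ 4 ≤ p) with h1 | h1 | h1
  · subst h1
    rcases (by omega : q = 2 ∨ q = 3 ∨ q = 4 ∨ 5 ≤ q) with h2 | h2 | h2 | h2
    · subst h2
      norm_num at h
      linarith
    · subst h2
      rcases Nat.lt_or_ge r 7 with h3 | h3
      · have h4 := Hur_inv (n := 6) (m := r) (by omega) (by omega)
        norm_num at h h4
        linarith
      · have h4 := Hur_inv (n := r) (m := 7) (by omega) h3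
        norm_num at h4 ⊢
        linarith
    · subst h2
      rcases Nat.lt_or_ge r 5 with h3 | h3
      · have h4 := Hur_inv (n := 4) (m := r) (by omega) (by omega)
        norm_num at h h4
        linarith
      · have h4 := Hur_inv (n := r) (m := 5) (by omega) h3
        norm_num at h4 ⊢
        linarith
    · have h4 := Hur_inv (n := q) (m := 5) (by omega) h2
      have h5 := Hur_inv (n := r) (m := 5) (by omega) (by omega)
      norm_num at h4 h5 ⊢
      linarith
  · subst h1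
    rcases (by omega : q = 3 ∨ 4 ≤ q) with h2 | h2
    · subst h2
      rcases Nat.lt_or_ge r 4 with h3 | h3
      · have h4 := Hur_inv (n := 3) (m := r) (by omega) (by omega)
        norm_num at h h4
        linarith
      · have h4 := Hur_inv (n := r) (m := 4) (by omega) h3
        norm_num at h4 ⊢
        linarith
    · have h4 := Hur_inv (n := q) (m := 4) (by omega) h2
      have h5 := Hur_inv (n := r) (m := 4) (by omega) (by omega)
      norm_num at h4 h5 ⊢
      linarith
  · have h3 := Hur_inv (n := p) (m := 4) (by omega) h1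
    have h4 := Hur_inv (n := q) (m := 4) (by omega) (by omega)
    have h5 := Hur_inv (n := r) (m := 4) (by omega) (by omega)
    norm_num at h3 h4 h5 ⊢
    linarith

theorem Hur_three {p q r : ℕ} (hp : 2 ≤ p) (hq : 2 ≤ q) (hr : 2 ≤ r)
    (h : 1 / (p : ℚ) + 1 / (q : ℚ) + 1 / (r : ℚ) < 1) :
    1 / (p : ℚ) + 1 / (q : ℚ) + 1 / (r : ℚ) ≤ 41 / 42 := by
  rcases le_total p q with h1 | h1 <;> rcases le_total q r with h2 | h2 <;>
    rcases le_total p r with h3 | h3
  · exact Hur_sorted hp h1 h2 h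
  · exact Hur_sorted hp h1 h2 h
  · have := Hur_sorted hp h3 h2 (by linarith)
    linarith
  · have := Hur_sorted hr h3 h1 (by linarith)
    linarith
  · have := Hur_sorted hq h1 h3 (by linarith)
    linarith
  · have := Hur_sorted hq h2 h3 (by linarith)
    linarith
  · have := Hur_sorted hr h2 h1 (by linarith)
    linarith
  · have := Hur_sorted hr h2 h1 (by linarith)
    linarith

/-- **Hurwitz.**

Proof.  Discard the `i` with `o i = 1`.  If at least five terms are left, the sum is at least `5 / 2`.  If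
four terms are left, not all are `2`, so the sum is at least `3 / 2 + 2 / 3`.  If three terms `p ≤ q ≤ r`
are left, `1 / p + 1 / q + 1 / r < 1`, and the cases `(2, 3, ≥ 7)`, `(2, 4, ≥ 5)`, `(2, ≥ 5, ≥ 5)`,
`(3, 3, ≥ 4)`, `(3, ≥ 4, ≥ 4)`, `(≥ 4, ..)` give `≤ 41 / 42`.  At most two terms have sum less than
two. -/
theorem hurwitz {ι : Type} (I : Finset ι) (o : ι → ℕ) (ho : ∀ i ∈ I, 1 ≤ o i)
    (h : 2 < ∑ i ∈ I, (1 - 1 / (o i : ℚ))) : 2 + 1 / 42 ≤ ∑ i ∈ I, (1 - 1 / (o i : ℚ)) := by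
  classical
  set J := I.filter (fun i => 2 ≤ o i) with hJ
  have hsum : ∑ i ∈ I, (1 - 1 / (o i : ℚ)) = ∑ i ∈ J, (1 - 1 / (o i : ℚ)) := by
    symm
    apply Finset.sum_subset (Finset.filter_subset _ _)
    intro i hi hiJ
    have h1 : ¬ 2 ≤ o i := fun h2 => hiJ (Finset.mem_filter.2 ⟨hi, h2⟩)
    have h3 : o i = 1 := by
      have := ho i hi
      omega
    rw [h3]
    norm_num
  rw [hsum] at h ⊢
  have hJ2 : ∀ i ∈ J, 2 ≤ o i := fun i hi => (Finset.mem_filter.1 hi).2
  have hge : ∀ i ∈ J, (1 / 2 : ℚ) ≤ 1 - 1 / (o i : ℚ) := by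
    intro i hi
    have h1 := Hur_inv (n := o i) (m := 2) (by norm_num) (hJ2 i hi)
    norm_num at h1 ⊢
    linarith
  have hlt : ∀ i ∈ J, 1 - 1 / (o i : ℚ) ≤ 1 := by
    intro i hi
    have h1 : (0 : ℚ) ≤ 1 / (o i : ℚ) := by positivity
    linarith
  rcases (by omega : J.card ≤ 2 ∨ J.card = 3 ∨ J.card = 4 ∨ 5 ≤ J.card) with h1 | h1 | h1 | h1
  · exfalso
    have h2 := Finset.sum_le_card_nsmul J (fun i => 1 - 1 / (o i : ℚ)) 1 hlt
    rw [nsmul_eq_mul, mul_one] at h2
    have h3 : (J.card : ℚ) ≤ 2 := by exact_mod_cast h1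
    linarith
  · obtain ⟨a, b, c, hab, hac, hbc, habc⟩ := Finset.card_eq_three.1 h1
    have ha : a ∈ J := by rw [habc]; simp
    have hb : b ∈ J := by rw [habc]; simp
    have hc : c ∈ J := by rw [habc]; simp
    have h2 : ∑ i ∈ J, (1 - 1 / (o i : ℚ)) =
        3 - (1 / (o a : ℚ) + 1 / (o b : ℚ) + 1 / (o c : ℚ)) := by
      rw [habc, Finset.sum_insert (by simp [hab, hac]), Finset.sum_insert (by simp [hbc]),
        Finset.sum_singleton]
      ring
    rw [h2] at h ⊢
    have h3 := Hur_three (hJ2 a ha) (hJ2 b hb) (hJ2 c hc) (by linarith)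
    linarith
  · by_cases h2 : ∀ i ∈ J, o i = 2
    · exfalso
      have h3 : ∑ i ∈ J, (1 - 1 / (o i : ℚ)) = ∑ i ∈ J, (1 / 2 : ℚ) := by
        apply Finset.sum_congr rfl
        intro i hi
        rw [h2 i hi]
        norm_num
      rw [h3, Finset.sum_const, h1, nsmul_eq_mul] at h
      norm_num at h
    · push Not at h2
      obtain ⟨i, hi, hi2⟩ := h2
      have h3 : 3 ≤ o i := by
        have := hJ2 i hi
        omega
      have h4 := Hur_inv (n := o i) (m := 3) (by norm_num) h3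
      have h5 := Finset.card_nsmul_le_sum (J.erase i) (fun i => 1 - 1 / (o i : ℚ)) (1 / 2)
        (fun j hj => hge j (Finset.mem_of_mem_erase hj))
      rw [Finset.card_erase_of_mem hi, h1, nsmul_eq_mul] at h5
      rw [← Finset.add_sum_erase J _ hi]
      norm_num at h4 h5 ⊢
      linarith
  · have h2 := Finset.card_nsmul_le_sum J (fun i => 1 - 1 / (o i : ℚ)) (1 / 2) hge
    rw [nsmul_eq_mul] at h2
    have h3 : (5 : ℚ) ≤ J.card := by exact_mod_cast h1
    linarith

end WildLD
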