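import Pool.Agent.helper21.LD.BasicB
import Pool.Agent.helper21.LD.Hur

/-! The element with a small boundary. -/

namespace WildLD

open Equiv WildJ

variable {Ω : Type} [Fintype Ω] [DecidableEq Ω]

private theorem burn_count {o m : ℕ} (hm : 0 < m) (h : m ∣ o) :
    (((Finset.range o).filter fun k => m ∣ k).card : ℚ) = o / (m : ℚ) := by
  obtain ⟨q, rfl⟩ := h
  have h1 : (Finset.range (m * q)).filter (fun k => m ∣ k) = (Finset.range q).image (m * ·) := by
    ext k
    simp only [Finset.mem_filter, Finset.mem_range, Finset.mem_image]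
    constructor
    · rintro ⟨hk, r, rfl⟩
      exact ⟨r, Nat.lt_of_mul_lt_mul_left hk, rfl⟩
    · rintro ⟨r, hr, rfl⟩
      exact ⟨Nat.mul_lt_mul_of_pos_left hr hm, dvd_mul_right _ _⟩
  rw [h1, Finset.card_image_of_injective _ (fun a b hab => Nat.eq_of_mul_eq_mul_left hm hab),
    Finset.card_range]
  have hm' : (m : ℚ) ≠ 0 := by exact_mod_cast hm.ne'
  push_cast
  field_simp

private theorem burn_iff (σ : Perm Ω) (x : Ω) (k : ℕ) :
    (σ ^ k) x = x ↔ Function.minimalPeriod σ x ∣ k := by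
  rw [← Function.isPeriodicPt_iff_minimalPeriod_dvd, ← Equiv.Perm.iterate_eq_pow]
  rfl

private theorem burn_dvd (σ : Perm Ω) (x : Ω) : Function.minimalPeriod σ x ∣ orderOf σ := by
  rw [← burn_iff, pow_orderOf_eq_one]
  rfl

private theorem burn_pos (σ : Perm Ω) (x : Ω) : 0 < Function.minimalPeriod σ x :=
  Nat.pos_of_dvd_of_pos (burn_dvd σ x) (orderOf_pos σ)

/-- The number of `k < orderOf σ` with `σ ^ k x = x` is `orderOf σ / m`, `m` the period of `x`, which divides the
order (`Function.IsPeriodicPt.minimalPeriod_dvd`). -/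
theorem count_period (σ : Perm Ω) (x : Ω) :
    (((Finset.range (orderOf σ)).filter fun k => (σ ^ k) x = x).card : ℚ) =
      orderOf σ / (Function.minimalPeriod σ x : ℚ) := by
  simp only [burn_iff]
  exact burn_count (burn_pos σ x) (burn_dvd σ x)

/-- The same for pairs: `σ ^ k` fixes `x` and `y` iff the least common multiple of the periods divides
`k`. -/
theorem count_period2 (σ : Perm Ω) (x y : Ω) :
    (((Finset.range (orderOf σ)).filter fun k => (σ ^ k) x = x ∧ (σ ^ k) y = y).card : ℚ) =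
      orderOf σ / (Nat.lcm (Function.minimalPeriod σ x) (Function.minimalPeriod σ y) : ℚ) := by
  simp only [burn_iff, ← Nat.lcm_dvd_iff]
  exact burn_count (Nat.lcm_pos (burn_pos σ x) (burn_pos σ y))
    (Nat.lcm_dvd (burn_dvd σ x) (burn_dvd σ y))

/-- The identity: the left side counts arcs starting at a fixed point, minus arcs between fixed
points. -/
theorem ex_Fx {G : Subgroup (Perm Ω)} (htr : Tr G) {D : Finset (Ω × Ω)} (hD : Orb G D) {d : ℕ}
    (hd : D.card = Fintype.card Ω * d) (h : Perm Ω) :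
    (d * (Fx h).card : ℤ) - ((D.filter fun p => h p.1 = p.1 ∧ h p.2 = p.2).card : ℤ) =
      ex D (Fx h) := by
  have h1 : (D.filter fun p => p.1 ∈ Fx h).card = d * (Fx h).card := by
    have h2 : (D.filter fun p => p.1 ∈ Fx h).card =
        ∑ x ∈ Fx h, ((D.filter fun p => p.1 ∈ Fx h).filter fun p => p.1 = x).card :=
      Finset.card_eq_sum_card_fiberwise (fun p hp => (Finset.mem_filter.mp hp).2)
    rw [h2]
    have h3 : ∀ x ∈ Fx h, ((D.filter fun p => p.1 ∈ Fx h).filter fun p => p.1 = x).card = d := by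
      intro x hx
      rw [← outdeg htr hD hd x]
      congr 1
      ext p
      simp only [Finset.mem_filter]
      constructor
      · rintro ⟨⟨hp, _⟩, h4⟩
        exact ⟨hp, h4⟩
      · rintro ⟨hp, h4⟩
        exact ⟨⟨hp, h4 ▸ hx⟩, h4⟩
    rw [Finset.sum_congr rfl h3, Finset.sum_const, smul_eq_mul, mul_comm]
  have h4 : (D.filter fun p => p.1 ∈ Fx h).card =
      (D.filter fun p => h p.1 = p.1 ∧ h p.2 = p.2).card + ex D (Fx h) := by
    unfold ex
    rw [← Finset.card_filter_add_card_filter_not (s := D.filter fun p => p.1 ∈ Fx h)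
      (fun p => p.2 ∈ Fx h), Finset.filter_filter, Finset.filter_filter]
    congr 2
    ext p
    simp [Fx]
  rw [h4] at h1
  have h5 : ((d * (Fx h).card : ℕ) : ℤ) =
      ((D.filter fun p => h p.1 = p.1 ∧ h p.2 = p.2).card + ex D (Fx h) : ℕ) := by
    exact_mod_cast h1.symm
  push_cast at h5
  linarith

/-- **The element with a small boundary.**

Proof.  Let `n = card Ω`, `o i = orderOf (σ i)`.  By `count_period`, for every `i`:
`∑ x, 1 / m_i(x) = (1 / o i) ∑ k < o i, card (Fx (σ i ^ k))`, and by `count_period2` the sum of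
`1 / lcm (m_i x) (m_i y)` over `D` is `(1 / o i) ∑ k < o i` of the number of the arcs fixed by `σ i ^ k`.
Multiply `h1` by `d` and subtract it from `h2`: with `ex_Fx`,
`∑ i, (1 / o i) ∑ k < o i, ex D (Fx (σ i ^ k)) ≤ 2 n d - (2 n - 2) d = 2 d`.
`h1` says `∑ i, (1 / o i) ∑ k < o i, (n - card (Fx (σ i ^ k))) = 2 n - 2`; the term `k = 0` is zero, so
`∑ i, (1 / o i) ∑ 0 < k < o i, card (Fx ..) = n (∑ (1 - 1 / o i) - 2) + 2 ≥ n / 42 + 2` (`hurwitz`).
If the claim were false, `84 d card (Fx h) ≤ n ex D (Fx h)` for all `h = σ i ^ k`, `0 < k < o i` (with `0 = 0` if there is no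
fixed point), and the sum gives `84 d (n / 42 + 2) ≤ 2 d n`, a contradiction (`d ≥ 1`). -/
theorem exists_h {G : Subgroup (Perm Ω)} (htr : Tr G) {D : Finset (Ω × Ω)} (hD : Orb G D) {d : ℕ}
    (hd : D.card = Fintype.card Ω * d) {ι : Type} (I : Finset ι) (σ : ι → Perm Ω)
    (h1 : ∑ i ∈ I, ∑ x : Ω, (1 - 1 / (Function.minimalPeriod (σ i) x : ℚ)) =
      2 * Fintype.card Ω - 2)
    (h2 : ∑ i ∈ I, ∑ p ∈ D, (1 - 1 / (Nat.lcm (Function.minimalPeriod (σ i) p.1)
      (Function.minimalPeriod (σ i) p.2) : ℚ)) ≤ 2 * D.card)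
    (h3 : 2 < ∑ i ∈ I, (1 - 1 / (orderOf (σ i) : ℚ))) :
    ∃ i ∈ I, ∃ k : ℕ, σ i ^ k ≠ 1 ∧ (Fx (σ i ^ k)).Nonempty ∧
      Fintype.card Ω * ex D (Fx (σ i ^ k)) ≤ 84 * d * (Fx (σ i ^ k)).card := by
  by_contra hcon
  push Not at hcon
  -- positivity
  have hd1 : 1 ≤ d := by
    by_contra h0
    have : d = 0 := by omega
    rw [this, mul_zero, Finset.card_eq_zero] at hd
    exact hD.ne.ne_empty hd
  have hdQ : (1 : ℚ) ≤ d := by exact_mod_cast hd1
  have ho : ∀ i, (0 : ℚ) < orderOf (σ i) := fun i => by exact_mod_cast orderOf_pos (σ i)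
  -- the sums
  have hA : ∀ i, ∑ x : Ω, 1 / (Function.minimalPeriod (σ i) x : ℚ) =
      (∑ k ∈ Finset.range (orderOf (σ i)), ((Fx (σ i ^ k)).card : ℚ)) / orderOf (σ i) := by
    intro i
    rw [eq_div_iff (ho i).ne', Finset.sum_mul]
    have h5 : ∀ x : Ω, 1 / (Function.minimalPeriod (σ i) x : ℚ) * orderOf (σ i) =
        ∑ k ∈ Finset.range (orderOf (σ i)), (if (σ i ^ k) x = x then (1 : ℚ) else 0) := by
      intro x
      rw [Finset.sum_boole, count_period]
      ring
    rw [Finset.sum_congr rfl (fun x _ => h5 x), Finset.sum_comm]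
    apply Finset.sum_congr rfl
    intro k _
    rw [Finset.sum_boole]
    rfl
  have hB : ∀ i, ∑ p ∈ D, 1 / (Nat.lcm (Function.minimalPeriod (σ i) p.1)
      (Function.minimalPeriod (σ i) p.2) : ℚ) =
      (∑ k ∈ Finset.range (orderOf (σ i)),
        ((D.filter fun p => (σ i ^ k) p.1 = p.1 ∧ (σ i ^ k) p.2 = p.2).card : ℚ)) /
          orderOf (σ i) := by
    intro i
    rw [eq_div_iff (ho i).ne', Finset.sum_mul]
    have h5 : ∀ p : Ω × Ω, 1 / (Nat.lcm (Function.minimalPeriod (σ i) p.1)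
        (Function.minimalPeriod (σ i) p.2) : ℚ) * orderOf (σ i) =
        ∑ k ∈ Finset.range (orderOf (σ i)),
          (if (σ i ^ k) p.1 = p.1 ∧ (σ i ^ k) p.2 = p.2 then (1 : ℚ) else 0) := by
      intro p
      rw [Finset.sum_boole, count_period2]
      ring
    rw [Finset.sum_congr rfl (fun p _ => h5 p), Finset.sum_comm]
    apply Finset.sum_congr rfl
    intro k _
    rw [Finset.sum_boole]
  have hE : ∀ i, (∑ k ∈ Finset.range (orderOf (σ i)), (ex D (Fx (σ i ^ k)) : ℚ)) =
      d * (∑ k ∈ Finset.range (orderOf (σ i)), ((Fx (σ i ^ k)).card : ℚ)) -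
      ∑ k ∈ Finset.range (orderOf (σ i)),
        ((D.filter fun p => (σ i ^ k) p.1 = p.1 ∧ (σ i ^ k) p.2 = p.2).card : ℚ) := by
    intro i
    rw [Finset.mul_sum, ← Finset.sum_sub_distrib]
    apply Finset.sum_congr rfl
    intro k _
    have h6 := ex_Fx htr hD hd (σ i ^ k)
    have h7 : ((ex D (Fx (σ i ^ k)) : ℤ) : ℚ) = (((d * (Fx (σ i ^ k)).card : ℤ) -
      ((D.filter fun p => (σ i ^ k) p.1 = p.1 ∧ (σ i ^ k) p.2 = p.2).card : ℤ) : ℤ) : ℚ) := by
      rw [h6]
    push_cast at h7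
    exact h7
  set n : ℚ := (Fintype.card Ω : ℚ) with hn
  have hDn : (D.card : ℚ) = n * d := by
    rw [hd, hn]
    push_cast
    ring
  -- the first inequality
  have hI1 : ∑ i ∈ I, (∑ k ∈ Finset.range (orderOf (σ i)), (ex D (Fx (σ i ^ k)) : ℚ)) /
      orderOf (σ i) ≤ 2 * d := by
    have h8 : ∀ i ∈ I, (∑ k ∈ Finset.range (orderOf (σ i)), (ex D (Fx (σ i ^ k)) : ℚ)) /
        orderOf (σ i) = (∑ p ∈ D, (1 - 1 / (Nat.lcm (Function.minimalPeriod (σ i) p.1)
      (Function.minimalPeriod (σ i) p.2) : ℚ))) -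
        d * ∑ x : Ω, (1 - 1 / (Function.minimalPeriod (σ i) x : ℚ)) := by
      intro i _
      rw [Finset.sum_sub_distrib, Finset.sum_sub_distrib, hA, hB, hE]
      simp only [Finset.sum_const, nsmul_eq_mul, mul_one, Finset.card_univ, hDn]
      rw [← hn]
      ring
    rw [Finset.sum_congr rfl h8, Finset.sum_sub_distrib, ← Finset.mul_sum, h1]
    rw [hDn] at h2
    nlinarith
  -- the second identity
  have hsplit : ∀ i, ∀ f : ℕ → ℚ, ∑ k ∈ Finset.range (orderOf (σ i)), f k =
      f 0 + ∑ k ∈ (Finset.range (orderOf (σ i))).erase 0, f k := by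
    intro i f
    rw [Finset.add_sum_erase _ _ (Finset.mem_range.mpr (orderOf_pos (σ i)))]
  have hI2 : ∑ i ∈ I, (∑ k ∈ (Finset.range (orderOf (σ i))).erase 0,
      ((Fx (σ i ^ k)).card : ℚ)) / orderOf (σ i) =
      n * ((∑ i ∈ I, (1 - 1 / (orderOf (σ i) : ℚ))) - 2) + 2 := by
    have h9 : ∀ i ∈ I, (∑ k ∈ (Finset.range (orderOf (σ i))).erase 0,
        ((Fx (σ i ^ k)).card : ℚ)) / orderOf (σ i) =
        n * (1 - 1 / (orderOf (σ i) : ℚ)) -
          ∑ x : Ω, (1 - 1 / (Function.minimalPeriod (σ i) x : ℚ)) := by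
      intro i _
      rw [Finset.sum_sub_distrib, hA, hsplit i]
      have h10 : ((Fx (σ i ^ 0)).card : ℚ) = n := by
        rw [pow_zero]
        have : Fx (1 : Perm Ω) = Finset.univ := by
          ext x
          simp [Fx]
        rw [this, Finset.card_univ]
      rw [h10]
      simp only [Finset.sum_const, nsmul_eq_mul, mul_one, Finset.card_univ]
      rw [← hn]
      ring
    rw [Finset.sum_congr rfl h9, Finset.sum_sub_distrib, ← Finset.mul_sum, h1]
    ring
  have hH := hurwitz I (fun i => orderOf (σ i)) (fun i _ => orderOf_pos (σ i)) h3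
  have hn0 : 0 ≤ n := by
    rw [hn]
    positivity
  have hI3 : n / 42 + 2 ≤ ∑ i ∈ I, (∑ k ∈ (Finset.range (orderOf (σ i))).erase 0,
      ((Fx (σ i ^ k)).card : ℚ)) / orderOf (σ i) := by
    rw [hI2]
    nlinarith
  -- the comparison
  have hcmp : ∀ i ∈ I, 84 * d * ((∑ k ∈ (Finset.range (orderOf (σ i))).erase 0,
      ((Fx (σ i ^ k)).card : ℚ)) / orderOf (σ i)) ≤
      n * ((∑ k ∈ Finset.range (orderOf (σ i)), (ex D (Fx (σ i ^ k)) : ℚ)) /
        orderOf (σ i)) := by
    intro i hi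
    rw [← mul_div_assoc, ← mul_div_assoc]
    apply div_le_div_of_nonneg_right _ (ho i).le
    rw [Finset.mul_sum, Finset.mul_sum]
    calc ∑ k ∈ (Finset.range (orderOf (σ i))).erase 0, 84 * (d : ℚ) * ((Fx (σ i ^ k)).card : ℚ)
        ≤ ∑ k ∈ (Finset.range (orderOf (σ i))).erase 0, n * (ex D (Fx (σ i ^ k)) : ℚ) := by
          apply Finset.sum_le_sum
          intro k hk
          rw [Finset.mem_erase, Finset.mem_range] at hk
          have hne : σ i ^ k ≠ 1 := by
            intro h11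
            have := orderOf_dvd_of_pow_eq_one h11
            have := Nat.le_of_dvd (Nat.pos_of_ne_zero hk.1) this
            omega
          rcases Finset.eq_empty_or_nonempty (Fx (σ i ^ k)) with h12 | h12
          · rw [h12]
            simp only [Finset.card_empty, Nat.cast_zero, mul_zero]
            positivity
          · have h13 := hcon i hi k hne h12
            have h14 : ((84 * d * (Fx (σ i ^ k)).card : ℕ) : ℚ) ≤
                ((Fintype.card Ω * ex D (Fx (σ i ^ k)) : ℕ) : ℚ) := by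
              exact_mod_cast h13.le
            push_cast at h14
            exact h14
      _ ≤ ∑ k ∈ Finset.range (orderOf (σ i)), n * (ex D (Fx (σ i ^ k)) : ℚ) := by
          apply Finset.sum_le_sum_of_subset_of_nonneg (Finset.erase_subset _ _)
          intro k _ _
          positivity
  have hfin := Finset.sum_le_sum hcmp
  rw [← Finset.mul_sum, ← Finset.mul_sum] at hfin
  have hf1 : 84 * (d : ℚ) * (n / 42 + 2) ≤ 84 * d * ∑ i ∈ I,
      (∑ k ∈ (Finset.range (orderOf (σ i))).erase 0,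
        ((Fx (σ i ^ k)).card : ℚ)) / orderOf (σ i) := by
    apply mul_le_mul_of_nonneg_left hI3
    positivity
  have hf2 : n * ∑ i ∈ I, (∑ k ∈ Finset.range (orderOf (σ i)), (ex D (Fx (σ i ^ k)) : ℚ)) /
      orderOf (σ i) ≤ n * (2 * d) := mul_le_mul_of_nonneg_left hI1 hn0
  nlinarith

end WildLD
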