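import Mathlib.Combinatorics.SimpleGraph.Metric
import Mathlib.GroupTheory.Perm.Basic
import Mathlib.GroupTheory.OrderOfElement
import Mathlib.Dynamics.PeriodicPts.Defs
import Mathlib.Tactic
import Pool.Agent.helper21.SC.SchurA

/-!
# Wild rational functions of large degree: group theory (helper21 and helper44, MP_11236d_an, stage 6)

`G` is a permutation group on the finite set `Ω`, `D` an orbital (one orbit of `G` on the pairs of
different points) with `d` arcs starting at every point, `Gam D` the undirected graph of `D`.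
-/

namespace WildLD

open Equiv

variable {Ω : Type} [Fintype Ω] [DecidableEq Ω]

/-- Transitivity. -/
def Tr (G : Subgroup (Perm Ω)) : Prop := ∀ x y : Ω, ∃ g ∈ G, g x = y

/-- An orbital of `G`. -/
structure Orb (G : Subgroup (Perm Ω)) (D : Finset (Ω × Ω)) : Prop where
  ne : D.Nonempty
  irr : ∀ x, (x, x) ∉ D
  inv : ∀ g ∈ G, ∀ x y, (x, y) ∈ D → (g x, g y) ∈ D
  tr : ∀ p ∈ D, ∀ q ∈ D, ∃ g ∈ G, g p.1 = q.1 ∧ g p.2 = q.2

/-- The undirected graph. -/
def Gam (D : Finset (Ω × Ω)) : SimpleGraph Ω := SimpleGraph.fromRel fun x y => (x, y) ∈ D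

/-- The number of arcs leaving `A`. -/
def ex (D : Finset (Ω × Ω)) (A : Finset Ω) : ℕ :=
  (D.filter fun p => p.1 ∈ A ∧ p.2 ∉ A).card

open Classical in
/-- The ball. -/
noncomputable def Bl (D : Finset (Ω × Ω)) (v : Ω) (r : ℕ) : Finset Ω :=
  Finset.univ.filter fun y => (Gam D).dist v y ≤ r

open Classical in
/-- The sphere. -/
noncomputable def Sp (D : Finset (Ω × Ω)) (v : Ω) (r : ℕ) : Finset Ω :=
  Finset.univ.filter fun y => (Gam D).dist v y = r

/-- The set of the fixed points. -/
def Fx (h : Perm Ω) : Finset Ω := Finset.univ.filter fun x => h x = x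

/-- `u` and `v` are conjugate under the stabilizer of `w`. -/
def Sa (G : Subgroup (Perm Ω)) (w u v : Ω) : Prop := ∃ g ∈ G, g w = w ∧ g u = v

open Classical in
/-- The points which distinguish `u` and `v`. -/
noncomputable def Ds (G : Subgroup (Perm Ω)) (u v : Ω) : Finset Ω :=
  Finset.univ.filter fun w => ¬ Sa G w u v

open Classical in
/-- The orbital of a pair. -/
noncomputable def orbOf (G : Subgroup (Perm Ω)) (x y : Ω) : Finset (Ω × Ω) :=
  Finset.univ.filter fun p => ∃ g ∈ G, g x = p.1 ∧ g y = p.2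

end WildLD
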