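import Pool.Agent.helper21.LD.IsoB

/-! The dichotomy: bounded support or linear growth. -/

namespace WildLD

open Equiv WildJ

variable {Ω : Type} [Fintype Ω] [DecidableEq Ω]

/-- The least radius for which the ball has at least `2 card A` elements. -/
private theorem dichA_rad {G : Subgroup (Perm Ω)} (htr : Tr G) {D : Finset (Ω × Ω)} (hD : Orb G D)
    (hc : (Gam D).Connected) {A : Finset Ω} (hA : A.Nonempty)
    (hA2 : 2 * A.card ≤ Fintype.card Ω) :
    ∃ ρ, 1 ≤ ρ ∧ (∀ v, 2 * A.card ≤ (Bl D v ρ).card) ∧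
      ∀ v, (Bl D v (ρ - 1)).card < 2 * A.card := by
  classical
  obtain ⟨v0, hv0⟩ := hA
  have hpos : 1 ≤ A.card := Finset.card_pos.mpr ⟨v0, hv0⟩
  have hex : ∃ r, 2 * A.card ≤ (Bl D v0 r).card := by
    refine ⟨Finset.univ.sup fun y => (Gam D).dist v0 y, ?_⟩
    have h1 : Bl D v0 (Finset.univ.sup fun y => (Gam D).dist v0 y) = Finset.univ := by
      apply Finset.eq_univ_of_forall
      intro y
      rw [Bl, Finset.mem_filter]
      exact ⟨Finset.mem_univ _,
        Finset.le_sup (f := fun y => (Gam D).dist v0 y) (Finset.mem_univ y)⟩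
    rw [h1, Finset.card_univ]
    exact hA2
  refine ⟨Nat.find hex, ?_, ?_, ?_⟩
  · by_contra h0
    have h0' : Nat.find hex = 0 := by omega
    have h1 := Nat.find_spec hex
    rw [h0'] at h1
    have h2 : Bl D v0 0 ⊆ {v0} := by
      intro y hy
      rw [Bl, Finset.mem_filter] at hy
      have h3 : (Gam D).dist v0 y = 0 := by omega
      rw [Finset.mem_singleton]
      exact (hc.dist_eq_zero_iff.mp h3).symm
    have h3 := Finset.card_le_card h2
    rw [Finset.card_singleton] at h3
    omega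
  · intro v
    rw [Bl_card htr hD v v0]
    exact Nat.find_spec hex
  · intro v
    rw [Bl_card htr hD v v0]
    by_contra hcon
    push Not at hcon
    have h1 := Nat.find_min' hex hcon
    have h0 : Nat.find hex = 0 := by omega
    have h4 := Nat.find_spec hex
    rw [h0] at h4
    have h2 : Bl D v0 0 ⊆ {v0} := by
      intro y hy
      rw [Bl, Finset.mem_filter] at hy
      have h3 : (Gam D).dist v0 y = 0 := by omega
      rw [Finset.mem_singleton]
      exact (hc.dist_eq_zero_iff.mp h3).symm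
    have h3 := Finset.card_le_card h2
    rw [Finset.card_singleton] at h3
    omega

/-- **Dichotomy.**

Proof.  `n = card Ω`, `S = Fx h`, `T = Sᶜ`, both nonempty.  `ex D S ≤ 84 d` because `card S ≤ n`;
`econn`: `n d ≤ 8 n ex D S ≤ 672 d card S`, and `d ≥ 1`.
Case `2 card T ≤ n`: let `ρ` be the least number such that the ball of radius `ρ` has at least `2 card T`
elements (it exists: a ball of large radius is everything by connectedness); `ρ ≥ 1` because
`2 card T ≥ 2`.  `iso` for `T`, with `ex D T = ex D S ≤ 84 d` (`ex_compl`): `d card T ≤ 168 d ρ`.  The ball of radius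
`ρ - 1` has less than `2 card T ≤ 336 ρ` elements, and less than `n`.
Case `n < 2 card T`: then `2 card S ≤ n`; `ρ` as before for `S`.  `iso` for `S`, multiplied by `n`:
`n d card S ≤ 2 ρ n ex D S ≤ 168 ρ d card S`, so `n ≤ 168 ρ`.  The ball of radius `ρ - 1` has less than
`2 card S ≤ n ≤ 168 ρ` elements. -/
theorem dichotomy {G : Subgroup (Perm Ω)} (htr : Tr G) {D : Finset (Ω × Ω)} (hD : Orb G D) {d : ℕ}
    (hd : D.card = Fintype.card Ω * d) (hc : (Gam D).Connected) {h : Perm Ω} (h1 : h ≠ 1)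
    (hne : (Fx h).Nonempty)
    (hex : Fintype.card Ω * ex D (Fx h) ≤ 84 * d * (Fx h).card) :
    ex D (Fx h) ≤ 84 * d ∧ Fintype.card Ω ≤ 672 * (Fx h).card ∧
      ∃ ρ, 1 ≤ ρ ∧ (∀ v, Bl D v (ρ - 1) ≠ Finset.univ) ∧
        (∀ v, (Bl D v (ρ - 1)).card ≤ 336 * ρ) ∧
        ((Fx h)ᶜ.card ≤ 168 * ρ ∨ Fintype.card Ω ≤ 168 * ρ) := by
  classical
  set S := Fx h with hS
  have hT : Sᶜ.Nonempty := by
    by_contra hcon
    rw [Finset.not_nonempty_iff_eq_empty] at hcon
    apply h1
    ext x
    have hx : x ∈ S := by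
      by_contra hx
      have : x ∈ Sᶜ := Finset.mem_compl.mpr hx
      rw [hcon] at this
      exact absurd this (Finset.notMem_empty x)
    rw [hS, Fx, Finset.mem_filter] at hx
    simpa using hx.2
  have hn : 0 < Fintype.card Ω := by
    obtain ⟨x, _⟩ := hne
    exact Fintype.card_pos_iff.mpr ⟨x⟩
  have hSc : S.card ≤ Fintype.card Ω := Finset.card_le_univ S
  have hSp : 0 < S.card := Finset.card_pos.mpr hne
  have hTp : 0 < Sᶜ.card := Finset.card_pos.mpr hT
  have hST : S.card + Sᶜ.card = Fintype.card Ω := by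
    rw [Finset.card_add_card_compl]
  have hSu : S ≠ Finset.univ := by
    intro hcon
    rw [hcon] at hT
    simp at hT
  have hdp : 0 < d := by
    have h2 : 0 < D.card := Finset.card_pos.mpr hD.ne
    rw [hd] at h2
    exact Nat.pos_of_mul_pos_left h2
  have hex1 : ex D S ≤ 84 * d := by
    have h2 : Fintype.card Ω * ex D S ≤ Fintype.card Ω * (84 * d) := by
      calc Fintype.card Ω * ex D S ≤ 84 * d * S.card := hex
        _ ≤ 84 * d * Fintype.card Ω := Nat.mul_le_mul_left _ hSc
        _ = Fintype.card Ω * (84 * d) := by ring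
    exact Nat.le_of_mul_le_mul_left h2 hn
  have hec : d ≤ 8 * ex D S := econn htr hD hd hc hne hSu
  have hnS : Fintype.card Ω ≤ 672 * S.card := by
    have h2 : d * Fintype.card Ω ≤ d * (672 * S.card) := by
      calc d * Fintype.card Ω ≤ 8 * ex D S * Fintype.card Ω := Nat.mul_le_mul_right _ hec
        _ = 8 * (Fintype.card Ω * ex D S) := by ring
        _ ≤ 8 * (84 * d * S.card) := Nat.mul_le_mul_left _ hex
        _ = d * (672 * S.card) := by ring
    exact Nat.le_of_mul_le_mul_left h2 hdp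
  refine ⟨hex1, hnS, ?_⟩
  by_cases hcase : 2 * Sᶜ.card ≤ Fintype.card Ω
  · obtain ⟨ρ, hρ1, hρ2, hρ3⟩ := dichA_rad htr hD hc hT hcase
    obtain ⟨v, _⟩ := hne
    have h2 := iso htr hD hd hc hT (hρ2 v)
    rw [ex_compl htr hD hd S] at h2
    have h3 : Sᶜ.card ≤ 168 * ρ := by
      have h4 : d * Sᶜ.card ≤ d * (168 * ρ) := by
        calc d * Sᶜ.card ≤ 2 * ρ * ex D S := h2
          _ ≤ 2 * ρ * (84 * d) := Nat.mul_le_mul_left _ hex1
          _ = d * (168 * ρ) := by ring
      exact Nat.le_of_mul_le_mul_left h4 hdp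
    refine ⟨ρ, hρ1, ?_, ?_, Or.inl h3⟩
    · intro w hw
      have h5 := hρ3 w
      rw [hw, Finset.card_univ] at h5
      omega
    · intro w
      have h5 := hρ3 w
      omega
  · have hcase' : 2 * S.card ≤ Fintype.card Ω := by omega
    obtain ⟨ρ, hρ1, hρ2, hρ3⟩ := dichA_rad htr hD hc hne hcase'
    obtain ⟨v, _⟩ := id hne
    have h2 := iso htr hD hd hc hne (hρ2 v)
    have h3 : Fintype.card Ω ≤ 168 * ρ := by
      have h4 : (d * S.card) * Fintype.card Ω ≤ (d * S.card) * (168 * ρ) := by
        calc (d * S.card) * Fintype.card Ω ≤ (2 * ρ * ex D S) * Fintype.card Ω :=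
              Nat.mul_le_mul_right _ h2
          _ = 2 * ρ * (Fintype.card Ω * ex D S) := by ring
          _ ≤ 2 * ρ * (84 * d * S.card) := Nat.mul_le_mul_left _ hex
          _ = (d * S.card) * (168 * ρ) := by ring
      exact Nat.le_of_mul_le_mul_left h4 (Nat.mul_pos hdp hSp)
    refine ⟨ρ, hρ1, ?_, ?_, Or.inr h3⟩
    · intro w hw
      have h5 := hρ3 w
      rw [hw, Finset.card_univ] at h5
      omega
    · intro w
      have h5 := hρ3 w
      omega

end WildLD
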