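import Pool.Agent.helper21.LD.BasicB

/-! Distance near a pair of points. -/

namespace WildLD

open Equiv WildJ

variable {Ω : Type} [Fintype Ω] [DecidableEq Ω]

open Classical in
/-- The points near `x` which distinguish `x` and `y` by their distance. -/
noncomputable def Nd (D : Finset (Ω × Ω)) (R : ℕ) (x y : Ω) : Finset Ω :=
  (Bl D x R).filter fun w => (Gam D).dist w x ≠ (Gam D).dist w y

theorem LinA_mem_Bl {D : Finset (Ω × Ω)} {v y : Ω} {r : ℕ} : y ∈ Bl D v r ↔ (Gam D).dist v y ≤ r := by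
  simp [Bl]

theorem LinA_mem_Sp {D : Finset (Ω × Ω)} {v y : Ω} {r : ℕ} : y ∈ Sp D v r ↔ (Gam D).dist v y = r := by
  simp [Sp]

theorem LinA_mem_Nd {D : Finset (Ω × Ω)} {R : ℕ} {x y w : Ω} :
    w ∈ Nd D R x y ↔ (Gam D).dist x w ≤ R ∧ (Gam D).dist w x ≠ (Gam D).dist w y := by
  simp [Nd, Bl]

theorem LinA_mem_orb {G : Subgroup (Perm Ω)} {x y : Ω} {p : Ω × Ω} :
    p ∈ orbOf G x y ↔ ∃ g ∈ G, g x = p.1 ∧ g y = p.2 := by
  simp [orbOf]

/-- Arcs of an orbital leaving a nonempty proper set. -/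
theorem LinA_leave {G : Subgroup (Perm Ω)} (hG : Prim G) (htr : Tr G) {X : Finset (Ω × Ω)}
    (hX : Orb G X) {B : Finset Ω} (hne : B.Nonempty) (hB : B ≠ Finset.univ) :
    ∃ p ∈ X, p.1 ∈ B ∧ p.2 ∉ B := by
  by_contra hcon
  push Not at hcon
  obtain ⟨m, _, hm⟩ := exists_deg htr hX
  have h0 : ex X B = 0 := by
    unfold ex
    rw [Finset.card_eq_zero, Finset.filter_eq_empty_iff]
    intro p hp hh
    exact hh.2 (hcon p hp hh.1)
  have h1 : ex X Bᶜ = 0 := by rw [ex_compl htr hX hm B, h0]
  have h2 : ∀ p ∈ X, p.2 ∈ B → p.1 ∈ B := by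
    intro p hp hp2
    by_contra hp1
    unfold ex at h1
    rw [Finset.card_eq_zero, Finset.filter_eq_empty_iff] at h1
    exact h1 hp ⟨by simpa using hp1, by simpa using hp2⟩
  have hadj : ∀ u v, (Gam X).Adj u v → u ∈ B → v ∈ B := by
    intro u v huv hu
    unfold Gam at huv
    rw [SimpleGraph.fromRel_adj] at huv
    rcases huv.2 with h | h
    · exact hcon (u, v) h hu
    · exact h2 (v, u) h hu
  have hwalk : ∀ u v (w : (Gam X).Walk u v), u ∈ B → v ∈ B := by
    intro u v w
    induction w with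
    | nil => exact fun h => h
    | cons h _ ih => exact fun hu => ih (hadj _ _ h hu)
  obtain ⟨b, hb⟩ := hne
  apply hB
  rw [Finset.eq_univ_iff_forall]
  intro v
  obtain ⟨w⟩ := (conn hG hX).preconnected b v
  exact hwalk b v w hb

/-- The arcs of the orbital of a pair, seen from a point. -/
theorem LinA_arcs {G : Subgroup (Perm Ω)} (hG : Prim G) (htr : Tr G) {D : Finset (Ω × Ω)}
    (hD : Orb G D) {R : ℕ} {x y : Ω} (hxy : x ≠ y)
    (hR : ∀ v, Bl D v R ≠ Finset.univ) (w : Ω) :
    R ≤ (Gam D).dist x y * ((orbOf G x y).filter fun p =>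
      (Gam D).dist p.1 w ≤ R ∧ (Gam D).dist w p.1 ≠ (Gam D).dist w p.2).card := by
  classical
  have hX : Orb G (orbOf G x y) := orbOf_orb hxy
  have hc : (Gam D).Connected := conn hG hD
  have hex : ∀ j ∈ Finset.range R, ∃ p ∈ orbOf G x y, p.1 ∈ Bl D w j ∧ p.2 ∉ Bl D w j := by
    intro j hj
    apply LinA_leave hG htr hX
    · exact ⟨w, LinA_mem_Bl.2 (by rw [SimpleGraph.dist_self]; exact Nat.zero_le _)⟩
    · intro h
      apply hR w
      rw [Finset.eq_univ_iff_forall] at h ⊢
      intro v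
      rw [LinA_mem_Bl]
      exact (LinA_mem_Bl.1 (h v)).trans (Finset.mem_range.1 hj).le
  haveI : Nonempty (Ω × Ω) := ⟨(w, w)⟩
  choose! f hf1 hf2 hf3 using hex
  have hmaps : ∀ j ∈ Finset.range R, f j ∈ (orbOf G x y).filter fun p =>
      (Gam D).dist p.1 w ≤ R ∧ (Gam D).dist w p.1 ≠ (Gam D).dist w p.2 := by
    intro j hj
    have h2 := hf2 j hj
    have h3 := hf3 j hj
    rw [LinA_mem_Bl] at h2 h3
    have hjR := Finset.mem_range.1 hj
    rw [Finset.mem_filter]
    refine ⟨hf1 j hj, ?_, ?_⟩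
    · rw [SimpleGraph.dist_comm]
      omega
    · omega
  have hfib : ∀ p ∈ (orbOf G x y).filter (fun p =>
      (Gam D).dist p.1 w ≤ R ∧ (Gam D).dist w p.1 ≠ (Gam D).dist w p.2),
      ((Finset.range R).filter fun j => f j = p).card ≤ (Gam D).dist x y := by
    intro p hp
    rw [Finset.mem_filter, LinA_mem_orb] at hp
    obtain ⟨⟨g, hg, hg1, hg2⟩, -⟩ := hp
    have hd : (Gam D).dist p.1 p.2 = (Gam D).dist x y := by
      rw [← hg1, ← hg2, dist_map hD hg]
    have htri : (Gam D).dist w p.2 ≤ (Gam D).dist w p.1 + (Gam D).dist p.1 p.2 :=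
      hc.dist_triangle
    have hsub : ((Finset.range R).filter fun j => f j = p) ⊆
        Finset.Ico ((Gam D).dist w p.1) ((Gam D).dist w p.1 + (Gam D).dist x y) := by
      intro j hj
      rw [Finset.mem_filter] at hj
      have h2 := hf2 j hj.1
      have h3 := hf3 j hj.1
      rw [hj.2, LinA_mem_Bl] at h2 h3
      rw [Finset.mem_Ico]
      omega
    refine (Finset.card_le_card hsub).trans ?_
    rw [Nat.card_Ico]
    omega
  have := Finset.card_le_mul_card_image_of_maps_to hmaps _ hfib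
  rwa [Finset.card_range] at this

/-- Invariance of the number of the points near an arc. -/
theorem LinA_inv {G : Subgroup (Perm Ω)} {D : Finset (Ω × Ω)} (hD : Orb G D) {R : ℕ} {x y : Ω}
    {p : Ω × Ω} (hp : p ∈ orbOf G x y) :
    (Finset.univ.filter fun w => (Gam D).dist p.1 w ≤ R ∧
      (Gam D).dist w p.1 ≠ (Gam D).dist w p.2).card = (Nd D R x y).card := by
  obtain ⟨g, hg, hg1, hg2⟩ := LinA_mem_orb.1 hp
  symm
  apply Finset.card_bij (fun w _ => g w)
  · intro w hw
    rw [LinA_mem_Nd] at hw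
    rw [Finset.mem_filter]
    refine ⟨Finset.mem_univ _, ?_, ?_⟩
    · rw [← hg1, dist_map hD hg]
      exact hw.1
    · rw [← hg1, ← hg2, dist_map hD hg, dist_map hD hg]
      exact hw.2
  · intro a _ b _ hab
    exact g.injective hab
  · intro b hb
    rw [Finset.mem_filter] at hb
    refine ⟨g.symm b, ?_, by simp⟩
    rw [LinA_mem_Nd]
    have e1 : (Gam D).dist x (g.symm b) = (Gam D).dist p.1 b := by
      rw [← dist_map hD hg x (g.symm b), hg1]
      simp
    have e2 : (Gam D).dist (g.symm b) x = (Gam D).dist b p.1 := by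
      rw [← dist_map hD hg (g.symm b) x, hg1]
      simp
    have e3 : (Gam D).dist (g.symm b) y = (Gam D).dist b p.2 := by
      rw [← dist_map hD hg (g.symm b) y, hg2]
      simp
    rw [e1, e2, e3]
    exact hb.2

/-- **Arcs leaving balls.**  `l = dist x y`, `s` a bound for the sphere of radius `l`.

Proof.  `X = orbOf G x y`, of out-degree `m`; `m ≤ card (Sp D x l) ≤ s`, because the endpoints of the arcs of `X`
starting at `x` have distance `l` from `x`.  Let `w` be a point.  For `0 ≤ j < R` the ball `Bl D w j` is not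
empty and not everything (`hR`), so there is an arc `(u, u')` of `X` leaving it: otherwise no arc of `X`
leaves it, hence none enters it (`ex_compl`), contradicting the connectedness of the graph of `X`.  It
satisfies `dist w u ≤ j < dist w u'`, and `dist w u' ≤ dist w u + l`, so the same arc occurs for at most
`l` values of `j`.  Hence the number of the arcs `(u, u')` of `X` with `dist w u ≤ R`,
`dist w u ≠ dist w u'`, multiplied by `l`, is at least `R`.  Sum over `w` and exchange the sums; by the invariance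
under `G` every arc of `X` contributes `card (Nd D R x y)`.  So
`n R ≤ l * (n m) * card (Nd D R x y)`. -/
theorem Nd_arcs {G : Subgroup (Perm Ω)} (hG : Prim G) (htr : Tr G) {D : Finset (Ω × Ω)}
    (hD : Orb G D) {R s : ℕ} {x y : Ω} (hxy : x ≠ y) (hs : (Sp D x ((Gam D).dist x y)).card ≤ s)
    (hR : ∀ v, Bl D v R ≠ Finset.univ) :
    R ≤ (Gam D).dist x y * s * (Nd D R x y).card := by
  classical
  have hX : Orb G (orbOf G x y) := orbOf_orb hxy
  obtain ⟨m, _, hm⟩ := exists_deg htr hX
  have hms : m ≤ s := by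
    rw [← outdeg htr hX hm x]
    refine le_trans ?_ hs
    apply Finset.card_le_card_of_injOn (fun p => p.2)
    · intro p hp
      have hp' := Finset.mem_filter.1 (Finset.mem_coe.1 hp)
      obtain ⟨g, hg, hg1, hg2⟩ := LinA_mem_orb.1 hp'.1
      apply Finset.mem_coe.2
      rw [LinA_mem_Sp]
      have e : (Gam D).dist (g x) (g y) = (Gam D).dist x y := dist_map hD hg x y
      rw [hg1, hg2, hp'.2] at e
      exact e
    · intro p hp q hq hpq
      have hp' := Finset.mem_filter.1 (Finset.mem_coe.1 hp)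
      have hq' := Finset.mem_filter.1 (Finset.mem_coe.1 hq)
      exact Prod.ext (hp'.2.trans hq'.2.symm) hpq
  have hn : 0 < Fintype.card Ω := Fintype.card_pos_iff.2 ⟨x⟩
  have hsum : Fintype.card Ω * R ≤ (Gam D).dist x y *
      ((Fintype.card Ω * m) * (Nd D R x y).card) := by
    have h1 : ∑ _w : Ω, R ≤ ∑ w : Ω, (Gam D).dist x y * ((orbOf G x y).filter fun p =>
        (Gam D).dist p.1 w ≤ R ∧ (Gam D).dist w p.1 ≠ (Gam D).dist w p.2).card :=
      Finset.sum_le_sum fun w _ => LinA_arcs hG htr hD hxy hR w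
    rw [Finset.sum_const, Finset.card_univ, smul_eq_mul, ← Finset.mul_sum] at h1
    refine h1.trans (Nat.mul_le_mul le_rfl ?_)
    have h2 : ∑ w : Ω, ((orbOf G x y).filter fun p =>
        (Gam D).dist p.1 w ≤ R ∧ (Gam D).dist w p.1 ≠ (Gam D).dist w p.2).card
        = ∑ p ∈ orbOf G x y, (Finset.univ.filter fun w => (Gam D).dist p.1 w ≤ R ∧
          (Gam D).dist w p.1 ≠ (Gam D).dist w p.2).card := by
      simp only [Finset.card_filter]
      exact Finset.sum_comm
    rw [h2, Finset.sum_congr rfl fun p hp => LinA_inv hD hp, Finset.sum_const, smul_eq_mul, hm]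
  have h3 : Fintype.card Ω * R ≤ Fintype.card Ω *
      ((Gam D).dist x y * m * (Nd D R x y).card) := by
    calc Fintype.card Ω * R ≤ _ := hsum
      _ = _ := by ring
  have h4 := Nat.le_of_mul_le_mul_left h3 hn
  exact h4.trans (Nat.mul_le_mul (Nat.mul_le_mul le_rfl hms) le_rfl)

/-- Proof.  `l = dist x y ≥ 1`, `r' = (l - 1) / 2 ≤ R`: all points `w` with `dist x w ≤ r'` are in `Nd D R x y`
(`dist w y ≥ l - r' > r'`), and there are at least `r' + 1 ≥ l / 2` of them (the points of a shortest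
walk). -/
theorem Nd_ball {D : Finset (Ω × Ω)} (hc : (Gam D).Connected) {R : ℕ} {x y : Ω} (hxy : x ≠ y)
    (hl : (Gam D).dist x y ≤ 2 * R) : (Gam D).dist x y ≤ 2 * (Nd D R x y).card := by
  obtain ⟨γ, hγ0, hγl, hγ⟩ := exists_geo hc x y
  have hl1 : 1 ≤ (Gam D).dist x y := hc.pos_dist_of_ne hxy
  generalize hL : (Gam D).dist x y = l at *
  have hcard : (Finset.range ((l - 1) / 2 + 1)).card ≤ (Nd D R x y).card := by
    apply Finset.card_le_card_of_injOn γ
    · intro i hi
      have hi' := Finset.mem_range.1 (Finset.mem_coe.1 hi)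
      apply Finset.mem_coe.2
      rw [LinA_mem_Nd]
      have e1 := hγ 0 i (Nat.zero_le _) (by omega)
      have e2 := hγ i l (by omega) le_rfl
      rw [hγ0] at e1
      rw [hγl] at e2
      rw [SimpleGraph.dist_comm (v := x), e1, e2]
      omega
    · intro i hi j hj hij
      have hi' := Finset.mem_range.1 (Finset.mem_coe.1 hi)
      have hj' := Finset.mem_range.1 (Finset.mem_coe.1 hj)
      rcases le_total i j with h | h
      · have e := hγ i j h (by omega)
        rw [hij, SimpleGraph.dist_self] at e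
        omega
      · have e := hγ j i h (by omega)
        rw [hij, SimpleGraph.dist_self] at e
        omega
  rw [Finset.card_range] at hcard
  omega

/-- Multiply the two inequalities. -/
theorem Nd_sq {G : Subgroup (Perm Ω)} (hG : Prim G) (htr : Tr G) {D : Finset (Ω × Ω)}
    (hD : Orb G D) {R s : ℕ} {x y : Ω} (hxy : x ≠ y) (hl : (Gam D).dist x y ≤ 2 * R)
    (hs : (Sp D x ((Gam D).dist x y)).card ≤ s) (hR : ∀ v, Bl D v R ≠ Finset.univ) :
    R ≤ 2 * s * (Nd D R x y).card ^ 2 := by
  have h1 := Nd_arcs hG htr hD hxy hs hR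
  have h2 := Nd_ball (conn hG hD) hxy hl
  calc R ≤ (Gam D).dist x y * s * (Nd D R x y).card := h1
    _ ≤ (2 * (Nd D R x y).card) * s * (Nd D R x y).card :=
        Nat.mul_le_mul (Nat.mul_le_mul h2 le_rfl) le_rfl
    _ = 2 * s * (Nd D R x y).card ^ 2 := by ring

end WildLD
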