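import Pool.Agent.helper21.LD.Defs

/-! Hitting sets. -/

namespace WildLD

open Equiv WildJ

variable {Ω : Type} [Fintype Ω] [DecidableEq Ω]

theorem LinB_bern (m n : ℕ) : (m + n) * m ^ n ≤ m * (m + 1) ^ n := by
  induction n with
  | zero => simp
  | succ n ih =>
    have h1 : (m + 1) * ((m + n) * m ^ n) ≤ (m + 1) * (m * (m + 1) ^ n) :=
      Nat.mul_le_mul_left _ ih
    have h2 : (m + (n + 1)) * m ^ (n + 1) ≤ (m + 1) * ((m + n) * m ^ n) := by
      rw [pow_succ]
      have h3 : (m + (n + 1)) * m ≤ (m + 1) * (m + n) := by nlinarith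
      calc (m + (n + 1)) * (m ^ n * m) = ((m + (n + 1)) * m) * m ^ n := by ring
        _ ≤ ((m + 1) * (m + n)) * m ^ n := Nat.mul_le_mul_right _ h3
        _ = (m + 1) * ((m + n) * m ^ n) := by ring
    calc (m + (n + 1)) * m ^ (n + 1) ≤ (m + 1) * ((m + n) * m ^ n) := h2
      _ ≤ (m + 1) * (m * (m + 1) ^ n) := h1
      _ = m * (m + 1) ^ (n + 1) := by rw [pow_succ]; ring

theorem LinB_half (m : ℕ) : 2 * m ^ (m + 1) ≤ (m + 1) ^ (m + 1) := by
  rcases Nat.eq_zero_or_pos m with h | h
  · subst h; simp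
  · have h1 := LinB_bern m (m + 1)
    have h2 : m * (2 * m ^ (m + 1)) ≤ (m + (m + 1)) * m ^ (m + 1) := by
      calc m * (2 * m ^ (m + 1)) = (m + m) * m ^ (m + 1) := by ring
        _ ≤ (m + (m + 1)) * m ^ (m + 1) := Nat.mul_le_mul_right _ (by omega)
    exact Nat.le_of_mul_le_mul_left (h2.trans h1) h

theorem LinB_step {α β : Type} [DecidableEq α] [DecidableEq β] (U : Finset α) (B : Finset β)
    (hit : α → β → Prop) [∀ a b, Decidable (hit a b)] {M m : ℕ} (hM : 1 ≤ M)
    (hB : B.card ≤ (m + 1) * M) (hP : ∀ p ∈ U, M ≤ (B.filter fun b => hit p b).card)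
    (hU : U.Nonempty) :
    ∃ b ∈ B, (m + 1) * (U.filter fun p => ¬ hit p b).card ≤ m * U.card := by
  by_contra hcon
  push Not at hcon
  have hsum : ∑ b ∈ B, (U.filter fun p => hit p b).card
      = ∑ p ∈ U, (B.filter fun b => hit p b).card := by
    simp only [Finset.card_filter]
    exact Finset.sum_comm
  have h1 : M * U.card ≤ ∑ p ∈ U, (B.filter fun b => hit p b).card := by
    calc M * U.card = ∑ _p ∈ U, M := by simp [mul_comm]
      _ ≤ _ := Finset.sum_le_sum hP
  obtain ⟨p0, hp0⟩ := hU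
  have hBne : B.Nonempty := by
    have h2 := hP p0 hp0
    have h3 : 0 < (B.filter fun b => hit p0 b).card := by omega
    rw [Finset.card_pos] at h3
    exact h3.mono (Finset.filter_subset _ _)
  have h4 : ∀ b ∈ B, (m + 1) * (U.filter fun p => hit p b).card < U.card := by
    intro b hb
    have h5 := hcon b hb
    have h6 : (U.filter fun p => hit p b).card + (U.filter fun p => ¬ hit p b).card = U.card :=
      Finset.card_filter_add_card_filter_not (s := U) (fun p => hit p b)
    have h7 : (m + 1) * U.card = (m + 1) * (U.filter fun p => hit p b).card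
        + (m + 1) * (U.filter fun p => ¬ hit p b).card := by
      rw [← h6]; ring
    have h8 : (m + 1) * U.card = m * U.card + U.card := by ring
    omega
  have h9 : ∑ b ∈ B, (m + 1) * (U.filter fun p => hit p b).card < ∑ _b ∈ B, U.card :=
    Finset.sum_lt_sum_of_nonempty hBne h4
  rw [← Finset.mul_sum, hsum, Finset.sum_const, smul_eq_mul] at h9
  have h10 : (m + 1) * (M * U.card)
      ≤ (m + 1) * ∑ p ∈ U, (B.filter fun b => hit p b).card := Nat.mul_le_mul_left _ h1
  have h11 : B.card * U.card ≤ ((m + 1) * M) * U.card := Nat.mul_le_mul_right _ hB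
  have h12 : ((m + 1) * M) * U.card = (m + 1) * (M * U.card) := by ring
  omega

theorem LinB_greedy {α β : Type} [DecidableEq α] [DecidableEq β] (P : Finset α) (B : Finset β)
    (hit : α → β → Prop) [∀ a b, Decidable (hit a b)] {M m : ℕ} (hM : 1 ≤ M)
    (hB : B.card ≤ (m + 1) * M) (hP : ∀ p ∈ P, M ≤ (B.filter fun b => hit p b).card) (t : ℕ) :
    ∃ W ⊆ B, W.card ≤ t ∧
      (m + 1) ^ t * (P.filter fun p => ∀ b ∈ W, ¬ hit p b).card ≤ m ^ t * P.card := by
  induction t with
  | zero =>
    refine ⟨∅, by simp, by simp, ?_⟩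
    simp
  | succ t ih =>
    obtain ⟨W, hWB, hWc, hW⟩ := ih
    by_cases hU : (P.filter fun p => ∀ b ∈ W, ¬ hit p b).Nonempty
    · obtain ⟨b, hb, hb2⟩ := LinB_step (P.filter fun p => ∀ b ∈ W, ¬ hit p b) B hit hM hB
        (fun p hp => hP p (Finset.mem_filter.mp hp).1) hU
      refine ⟨insert b W, ?_, ?_, ?_⟩
      · intro x hx
        rcases Finset.mem_insert.mp hx with h | h
        · exact h ▸ hb
        · exact hWB h
      · exact (Finset.card_insert_le b W).trans (by omega)
      · have heq : (P.filter fun p => ∀ b' ∈ insert b W, ¬ hit p b')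
            = (P.filter fun p => ∀ b ∈ W, ¬ hit p b).filter fun p => ¬ hit p b := by
          ext p
          simp only [Finset.mem_filter, Finset.mem_insert, forall_eq_or_imp]
          tauto
        rw [heq]
        calc (m + 1) ^ (t + 1) * ((P.filter fun p => ∀ b ∈ W, ¬ hit p b).filter
                fun p => ¬ hit p b).card
            = (m + 1) ^ t * ((m + 1) * ((P.filter fun p => ∀ b ∈ W, ¬ hit p b).filter
                fun p => ¬ hit p b).card) := by rw [pow_succ]; ring
          _ ≤ (m + 1) ^ t * (m * (P.filter fun p => ∀ b ∈ W, ¬ hit p b).card) :=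
              Nat.mul_le_mul_left _ hb2
          _ = m * ((m + 1) ^ t * (P.filter fun p => ∀ b ∈ W, ¬ hit p b).card) := by ring
          _ ≤ m * (m ^ t * P.card) := Nat.mul_le_mul_left _ hW
          _ = m ^ (t + 1) * P.card := by rw [pow_succ]; ring
    · refine ⟨W, hWB, by omega, ?_⟩
      rw [Finset.not_nonempty_iff_eq_empty] at hU
      rw [hU]
      simp

/-- **Hitting set.**  Every `p ∈ P` is hit by at least `M` of the at most `q M` elements of `B`; then `q j` elements of
`B` hit all `p ∈ P`, if `card P < 2 ^ j`.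

Proof.  Greedy: let `P'` be the set of the `p` which are not yet hit; some `b ∈ B` hits at least the fraction
`1 / q` of `P'` (double counting).  After `t` steps at most `(1 - 1 / q) ^ t card P` elements are not hit, and
`(1 - 1 / q) ^ q ≤ 1 / 2` (Bernoulli: `(1 + 1 / (q - 1)) ^ q ≥ 2`).  `q ≥ 1` if `P` is not empty. -/
theorem hitting {α β : Type} [DecidableEq α] [DecidableEq β] (P : Finset α) (B : Finset β)
    (hit : α → β → Prop) [∀ a b, Decidable (hit a b)] {M q j : ℕ} (hM : 1 ≤ M)
    (hB : B.card ≤ q * M) (hP : ∀ p ∈ P, M ≤ (B.filter fun b => hit p b).card)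
    (hj : P.card < 2 ^ j) : ∃ W ⊆ B, W.card ≤ q * j ∧ ∀ p ∈ P, ∃ b ∈ W, hit p b := by
  rcases Nat.eq_zero_or_pos q with hq | hq
  · refine ⟨∅, by simp, by simp, ?_⟩
    intro p hp
    exfalso
    have h1 := hP p hp
    have h2 : (B.filter fun b => hit p b).card ≤ B.card := Finset.card_filter_le _ _
    rw [hq, zero_mul] at hB
    omega
  · obtain ⟨m, rfl⟩ : ∃ m, q = m + 1 := ⟨q - 1, by omega⟩
    obtain ⟨W, hWB, hWc, hW⟩ := LinB_greedy P B hit hM hB hP ((m + 1) * j)
    refine ⟨W, hWB, hWc, ?_⟩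
    have h1 : 2 ^ j * m ^ ((m + 1) * j) ≤ (m + 1) ^ ((m + 1) * j) := by
      rw [pow_mul, pow_mul, ← mul_pow]
      exact Nat.pow_le_pow_left (LinB_half m) j
    have hzero : (P.filter fun p => ∀ b ∈ W, ¬ hit p b).card = 0 := by
      by_contra hne
      have h2 : 1 ≤ (P.filter fun p => ∀ b ∈ W, ¬ hit p b).card := by omega
      have h3 : 2 ^ j * (m + 1) ^ ((m + 1) * j) ≤ (m + 1) ^ ((m + 1) * j) * P.card := by
        calc 2 ^ j * (m + 1) ^ ((m + 1) * j)
            ≤ 2 ^ j * ((m + 1) ^ ((m + 1) * j)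
                * (P.filter fun p => ∀ b ∈ W, ¬ hit p b).card) := by
              apply Nat.mul_le_mul_left
              exact Nat.le_mul_of_pos_right _ (by omega)
          _ ≤ 2 ^ j * (m ^ ((m + 1) * j) * P.card) := Nat.mul_le_mul_left _ hW
          _ = (2 ^ j * m ^ ((m + 1) * j)) * P.card := by ring
          _ ≤ (m + 1) ^ ((m + 1) * j) * P.card := Nat.mul_le_mul_right _ h1
      have h4 : 0 < (m + 1) ^ ((m + 1) * j) := by positivity
      have h5 : (m + 1) ^ ((m + 1) * j) * P.card < (m + 1) ^ ((m + 1) * j) * 2 ^ j :=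
        Nat.mul_lt_mul_of_pos_left hj h4
      rw [mul_comm (2 ^ j)] at h3
      omega
    intro p hp
    by_contra hcon
    push Not at hcon
    rw [Finset.card_eq_zero] at hzero
    have : p ∈ (P.filter fun p => ∀ b ∈ W, ¬ hit p b) := by
      rw [Finset.mem_filter]
      exact ⟨hp, hcon⟩
    rw [hzero] at this
    simp at this

end WildLD
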