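import Pool.Agent.helper21.LD.BasicB

/-! Stabilizers of balls. -/

namespace WildLD

open Equiv WildJ

variable {Ω : Type} [Fintype Ω] [DecidableEq Ω]

/-- The pointwise stabilizer of a set of points. -/
def PS (G : Subgroup (Perm Ω)) (W : Finset Ω) : Subgroup (Perm Ω) where
  carrier := {g | g ∈ G ∧ ∀ w ∈ W, g w = w}
  mul_mem' := by
    rintro a b ⟨ha, ha'⟩ ⟨hb, hb'⟩
    exact ⟨mul_mem ha hb, fun w hw => by rw [Perm.mul_apply, hb' w hw, ha' w hw]⟩
  one_mem' := ⟨one_mem _, fun _ _ => rfl⟩
  inv_mem' := by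
    rintro a ⟨ha, ha'⟩
    exact ⟨inv_mem ha, fun w hw => by rw [Perm.inv_eq_iff_eq, ha' w hw]⟩

private theorem linC_orbit {A A' : Subgroup (Perm Ω)} {w : Ω} (hA' : ∀ g ∈ A, g w = w → g ∈ A')
    {S : Finset Ω} (hS : ∀ g ∈ A, g w ∈ S) : Nat.card A ≤ S.card * Nat.card A' := by
  classical
  have h0 : ∀ y : Ω, ∃ t : Perm Ω, (∃ g ∈ A, g w = y) → t ∈ A ∧ t w = y := by
    intro y
    by_cases h : ∃ g ∈ A, g w = y
    · obtain ⟨g, hg, hy⟩ := h
      exact ⟨g, fun _ => ⟨hg, hy⟩⟩
    · exact ⟨1, fun h' => absurd h' h⟩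
  choose t ht using h0
  have hf : ∀ g : A, (t (g.1 w))⁻¹ * g.1 ∈ A' := by
    intro g
    obtain ⟨h1, h2⟩ := ht (g.1 w) ⟨g.1, g.2, rfl⟩
    refine hA' _ (mul_mem (inv_mem h1) g.2) ?_
    rw [Perm.mul_apply, Perm.inv_eq_iff_eq, h2]
  have hinj : Function.Injective (fun g : A => ((⟨g.1 w, hS g.1 g.2⟩, ⟨_, hf g⟩) : S × A')) := by
    intro g g' hgg
    simp only [Prod.mk.injEq, Subtype.mk.injEq] at hgg
    obtain ⟨h1, h2⟩ := hgg
    rw [h1] at h2
    exact Subtype.ext (mul_left_cancel h2)
  have h1 := Nat.card_le_card_of_injective _ hinj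
  rw [Nat.card_prod] at h1
  have h2 : Nat.card S = S.card := by simp
  rw [h2] at h1
  exact h1

private theorem linC_mem_Bl {D : Finset (Ω × Ω)} {v y : Ω} {r : ℕ} :
    y ∈ Bl D v r ↔ (Gam D).dist v y ≤ r := by
  simp [Bl]

private theorem linC_mem_PS {G : Subgroup (Perm Ω)} {W : Finset Ω} {g : Perm Ω} :
    g ∈ PS G W ↔ g ∈ G ∧ ∀ w ∈ W, g w = w := Iff.rfl

/-- **Few fixed points suffice.**  If all spheres around `v` of radius `≤ r` have at most `s` elements, the pointwise
stabilizer of `W ⊆ Bl D v r` has index at most `s ^ card W` in the stabilizer of `v`.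

Proof.  Induction on `W`: the stabilizer of `w` in a subgroup `H` of the stabilizer of `v` has index at most
the number of the points at the same distance from `v` (orbit-stabilizer; `dist_map`). -/
theorem index_le {G : Subgroup (Perm Ω)} {D : Finset (Ω × Ω)} (hD : Orb G D) {v : Ω} {r s : ℕ}
    (hs : ∀ j ≤ r, (Sp D v j).card ≤ s) {W : Finset Ω} (hW : W ⊆ Bl D v r) :
    Nat.card (PS G {v}) ≤ s ^ W.card * Nat.card (PS G (insert v W)) := by
  classical
  induction W using Finset.induction_on with
  | empty =>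
    simp
  | insert w W' hw ih =>
    have h1 := ih (fun x hx => hW (Finset.mem_insert_of_mem hx))
    have h2 : Nat.card (PS G (insert v W')) ≤
        (Sp D v ((Gam D).dist v w)).card * Nat.card (PS G (insert v (insert w W'))) := by
      refine linC_orbit (w := w) ?_ ?_
      · intro g hg hgw
        rw [linC_mem_PS] at hg ⊢
        refine ⟨hg.1, fun x hx => ?_⟩
        rcases Finset.mem_insert.mp hx with rfl | hx
        · exact hg.2 _ (Finset.mem_insert_self _ _)
        · rcases Finset.mem_insert.mp hx with rfl | hx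
          · exact hgw
          · exact hg.2 _ (Finset.mem_insert_of_mem hx)
      · intro g hg
        rw [linC_mem_PS] at hg
        have hv : g v = v := hg.2 _ (Finset.mem_insert_self _ _)
        have := dist_map hD hg.1 v w
        rw [hv] at this
        simp only [Sp, Finset.mem_filter, Finset.mem_univ, true_and]
        exact this
    have h3 : (Sp D v ((Gam D).dist v w)).card ≤ s :=
      hs _ (linC_mem_Bl.mp (hW (Finset.mem_insert_self _ _)))
    rw [Finset.card_insert_of_notMem hw]
    calc Nat.card (PS G {v}) ≤ s ^ W'.card * Nat.card (PS G (insert v W')) := h1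
      _ ≤ s ^ W'.card * (s * Nat.card (PS G (insert v (insert w W')))) :=
        Nat.mul_le_mul_left _ (h2.trans (Nat.mul_le_mul_right _ h3))
      _ = s ^ (W'.card + 1) * Nat.card (PS G (insert v (insert w W'))) := by ring

/-- **The chain.**  If the pointwise stabilizer of a ball of radius `R` is not trivial, it has index at least
`2 ^ R` in the stabilizer of `v`.

Proof.  `K i v = PS G (Bl D v i)`.  It is decreasing in `i`, and `card (K i v)` does not depend on `v` (conjugation).
Suppose `card (K i v) = card (K (i + 1) v)` for some `i < R` (and some, hence all `v`).  If `w` is adjacent to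
`v`, then `Bl D w i ⊆ Bl D v (i + 1)`, so `K (i + 1) v ≤ K i w`, and the cardinalities are equal, so
`K i w = K (i + 1) v = K i v`.  By connectedness `K i w = K i v` for all `w`, so the elements of `K i v` fix all `w ∈ Bl D w i`,
i.e. `K i v = 1`, and `K R v ≤ K i v` is trivial.  So all steps are strict, and every index is at least
two. -/
theorem chain {G : Subgroup (Perm Ω)} (htr : Tr G) {D : Finset (Ω × Ω)} (hD : Orb G D)
    (hc : (Gam D).Connected) {v : Ω} {R : ℕ} {h : Perm Ω} (hh : h ∈ PS G (Bl D v R))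
    (h1 : h ≠ 1) : 2 ^ R * Nat.card (PS G (Bl D v R)) ≤ Nat.card (PS G {v}) := by
  classical
  -- the cardinality does not depend on the point
  have hle : ∀ (i : ℕ) (x y : Ω), Nat.card (PS G (Bl D y i)) ≤ Nat.card (PS G (Bl D x i)) := by
    intro i x y
    obtain ⟨g, hg, hgx⟩ := htr x y
    have hf : ∀ k : PS G (Bl D y i), g⁻¹ * k.1 * g ∈ PS G (Bl D x i) := by
      intro k
      obtain ⟨hk1, hk2⟩ := linC_mem_PS.mp k.2
      refine linC_mem_PS.mpr ⟨mul_mem (mul_mem (inv_mem hg) hk1) hg, fun z hz => ?_⟩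
      have hz' : g z ∈ Bl D y i := by
        rw [linC_mem_Bl] at hz ⊢
        have := dist_map hD hg x z
        rw [hgx] at this
        rw [this]
        exact hz
      rw [Perm.mul_apply, Perm.mul_apply, hk2 _ hz', Perm.inv_eq_iff_eq]
    refine Nat.card_le_card_of_injective
      (fun k : PS G (Bl D y i) => (⟨_, hf k⟩ : PS G (Bl D x i))) ?_
    intro k k' hkk
    simp only [Subtype.mk.injEq] at hkk
    exact Subtype.ext (mul_left_cancel (mul_right_cancel hkk))
  have heq : ∀ (i : ℕ) (x y : Ω), Nat.card (PS G (Bl D x i)) = Nat.card (PS G (Bl D y i)) :=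
    fun i x y => le_antisymm (hle i y x) (hle i x y)
  have hmono : ∀ (x : Ω) {i j : ℕ}, i ≤ j → PS G (Bl D x j) ≤ PS G (Bl D x i) := by
    intro x i j hij k hk
    obtain ⟨hk1, hk2⟩ := linC_mem_PS.mp hk
    exact linC_mem_PS.mpr ⟨hk1, fun z hz => hk2 z (linC_mem_Bl.mpr ((linC_mem_Bl.mp hz).trans hij))⟩
  have hstep : ∀ i, i < R → 2 * Nat.card (PS G (Bl D v (i + 1))) ≤ Nat.card (PS G (Bl D v i)) := by
    intro i hi
    obtain ⟨c, hcc⟩ := Subgroup.card_dvd_of_le (hmono v (Nat.le_succ i))
    rw [Nat.succ_eq_add_one] at hcc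
    have hpos : 0 < Nat.card (PS G (Bl D v i)) := Nat.card_pos
    rcases c with _ | _ | c
    · rw [hcc] at hpos
      simp at hpos
    · exfalso
      rw [zero_add, mul_one] at hcc
      -- all steps are equalities
      have hall : ∀ x, PS G (Bl D x (i + 1)) = PS G (Bl D x i) := by
        intro x
        refine Subgroup.eq_of_le_of_card_ge (hmono x (Nat.le_succ i)) ?_
        rw [heq i x v, hcc, heq (i + 1) v x]
      have hadj : ∀ x y, (Gam D).Adj x y → PS G (Bl D x i) = PS G (Bl D y i) := by
        intro x y hxy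
        have hsub : PS G (Bl D x (i + 1)) ≤ PS G (Bl D y i) := by
          intro k hk
          obtain ⟨hk1, hk2⟩ := linC_mem_PS.mp hk
          refine linC_mem_PS.mpr ⟨hk1, fun z hz => hk2 z (linC_mem_Bl.mpr ?_)⟩
          have h3 := linC_mem_Bl.mp hz
          have h4 := hc.dist_triangle (u := x) (v := y) (w := z)
          have h5 : (Gam D).dist x y = 1 := SimpleGraph.dist_eq_one_iff_adj.mpr hxy
          omega
        have h6 : PS G (Bl D x (i + 1)) = PS G (Bl D y i) := by
          refine Subgroup.eq_of_le_of_card_ge hsub ?_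
          rw [hall x, heq i y x]
        rw [← hall x, h6]
      have hreach : ∀ x y, PS G (Bl D x i) = PS G (Bl D y i) := by
        intro x y
        obtain ⟨w⟩ := hc.preconnected x y
        induction w with
        | nil => rfl
        | cons h _ ih => exact (hadj _ _ h).trans ih
      have hmem : h ∈ PS G (Bl D v i) := hmono v hi.le hh
      apply h1
      ext x
      rw [hreach v x] at hmem
      exact (linC_mem_PS.mp hmem).2 x (linC_mem_Bl.mpr (by simp))
    · rw [hcc, mul_comm]
      exact Nat.mul_le_mul_left _ (by omega)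
  have hind : ∀ i, i ≤ R → 2 ^ i * Nat.card (PS G (Bl D v i)) ≤ Nat.card (PS G {v}) := by
    intro i
    induction i with
    | zero =>
      intro _
      have : Bl D v 0 = {v} := by
        ext y
        rw [linC_mem_Bl, Nat.le_zero, Finset.mem_singleton]
        rw [hc.dist_eq_zero_iff]
        exact eq_comm
      rw [this, pow_zero, one_mul]
    | succ i ih =>
      intro hi
      have h2 := hstep i (by omega)
      have h3 := ih (by omega)
      calc 2 ^ (i + 1) * Nat.card (PS G (Bl D v (i + 1)))
          = 2 ^ i * (2 * Nat.card (PS G (Bl D v (i + 1)))) := by ring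
        _ ≤ 2 ^ i * Nat.card (PS G (Bl D v i)) := Nat.mul_le_mul_left _ h2
        _ ≤ Nat.card (PS G {v}) := h3
  exact hind R le_rfl

end WildLD
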