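import Pool.Agent.helper21.LD.Gro
import Pool.Agent.helper21.LD.LinA
import Pool.Agent.helper21.LD.LinB
import Pool.Agent.helper21.LD.LinC

/-! Local rigidity. -/

namespace WildLD

open Equiv WildJ

variable {Ω : Type} [Fintype Ω] [DecidableEq Ω]

/-- The constant radius, `2 s M ^ 2` with `s = 7225344`, `M = 2 ^ 24`. -/
def R0 : ℕ := 14450688 * 2 ^ 48

theorem FinA_exp {R q : ℕ} (h : 2 ^ R ≤ (2 ^ 23) ^ (q * 107)) : R ≤ 23 * (q * 107) := by
  rw [← pow_mul] at h
  exact (Nat.pow_le_pow_iff_right (by norm_num)).1 h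

/-- **Local rigidity.**  Linear growth up to the radius `2 R0` forces the pointwise stabilizer of a ball of radius
`R0` to be trivial.

Proof.  `s = 7225344 < 2 ^ 23`, `K = 1344 < 2 ^ 11`, `R = R0 = 2 s M ^ 2`, `M = 2 ^ 24`.  `spheres`: all spheres of radius
`≤ 2 R` have at most `s` elements.  Let `P` be the set of the pairs `(x, y)` of different points of `Bl D v R` with
`dist v x = dist v y`; `card P ≤ card (Bl D v R) * s ≤ K (R + 1) s < 2 ^ j` with `j = 11 + 73 + 23 = 107`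
(`R + 1 ≤ 2 ^ 72`: `14450688 < 2 ^ 24`).  For `(x, y) ∈ P`, `dist x y ≤ 2 R`, and `Nd_sq` gives
`M ≤ card (Nd D R x y)`, a subset of `B = Bl D v (2 R)`, of cardinality at most `K (2 R + 1) ≤ q M` with
`q = 5 K s M` (`2 R + 1 = 4 s M ^ 2 + 1 ≤ 5 s M ^ 2`).  `hitting`: there is `W ⊆ B` with at most `q j` elements such that every
`(x, y) ∈ P` has a `w ∈ W` with `dist w x ≠ dist w y`.  An element `g` of `PS G (insert v W)` fixes all `x ∈ Bl D v R`:
otherwise `(x, g x) ∈ P` but `dist w x = dist (g w) (g x) = dist w (g x)` for `w ∈ W`.  So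
`PS G (insert v W) ≤ PS G (Bl D v R)`, and `index_le` gives
`card (PS G {v}) ≤ s ^ (q j) * card (PS G (Bl D v R))`.  If the conclusion were false, `chain` would give
`2 ^ R ≤ s ^ (q j) < 2 ^ (23 q j)`, i.e. `R < 23 q j`: `2 s M ^ 2 < 23 * 107 * 5 * 1344 * s * M`, `2 M < 16537920`,
which is false for `M = 2 ^ 24 = 16777216`. -/
theorem rigid {G : Subgroup (Perm Ω)} (hG : Prim G) (htr : Tr G) {D : Finset (Ω × Ω)}
    (hD : Orb G D) (hb : ∀ v, ∀ r ≤ 2 * R0, (Bl D v r).card ≤ 1344 * (r + 1))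
    (hu : ∀ v, Bl D v R0 ≠ Finset.univ) {v : Ω} {h : Perm Ω} (hh : h ∈ PS G (Bl D v R0)) :
    h = 1 := by
  classical
  generalize hR : R0 = R at *
  have hc : (Gam D).Connected := conn hG hD
  have hsph : ∀ u, ∀ r ≤ 2 * R, (Sp D u r).card ≤ 7225344 := fun u r hr =>
    spheres htr hD hc (hb u r hr)
  have hR0 : R = 2 * 7225344 * (2 ^ 24) ^ 2 := by
    rw [← hR]
    unfold R0
    norm_num
  obtain ⟨q, hq⟩ : ∃ q : ℕ, q = 5 * 1344 * 7225344 * 2 ^ 24 := ⟨_, rfl⟩
  have hBl : ∀ {u y : Ω} {r : ℕ}, y ∈ Bl D u r ↔ (Gam D).dist u y ≤ r := by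
    intro u y r
    unfold Bl
    rw [Finset.mem_filter]
    exact ⟨fun h => h.2, fun h => ⟨Finset.mem_univ _, h⟩⟩
  have hSp : ∀ {u y : Ω} {r : ℕ}, y ∈ Sp D u r ↔ (Gam D).dist u y = r := by
    intro u y r
    unfold Sp
    rw [Finset.mem_filter]
    exact ⟨fun h => h.2, fun h => ⟨Finset.mem_univ _, h⟩⟩
  set P : Finset (Ω × Ω) := (Bl D v R).biUnion (fun x =>
    ((Sp D v ((Gam D).dist v x)).filter (fun y => x ≠ y)).image (fun y => (x, y))) with hP
  have hmemP : ∀ x y, (x, y) ∈ P ↔ (Gam D).dist v x ≤ R ∧ (Gam D).dist v y = (Gam D).dist v x ∧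
      x ≠ y := by
    intro x y
    rw [hP, Finset.mem_biUnion]
    constructor
    · rintro ⟨x', hx', h'⟩
      obtain ⟨y', hy', h2⟩ := Finset.mem_image.1 h'
      obtain ⟨rfl, rfl⟩ := Prod.mk.inj h2
      obtain ⟨h3, h4⟩ := Finset.mem_filter.1 hy'
      exact ⟨hBl.1 hx', hSp.1 h3, h4⟩
    · rintro ⟨h1, h2, h3⟩
      exact ⟨x, hBl.2 h1, Finset.mem_image.2 ⟨y, Finset.mem_filter.2 ⟨hSp.2 h2, h3⟩, rfl⟩⟩
  have hPc : P.card < 2 ^ 107 := by
    have h1 : P.card ≤ ∑ _x ∈ Bl D v R, 7225344 := by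
      refine Finset.card_biUnion_le.trans (Finset.sum_le_sum fun x hx => ?_)
      refine Finset.card_image_le.trans ((Finset.card_filter_le _ _).trans ?_)
      apply hsph
      have := hBl.1 hx
      omega
    rw [Finset.sum_const, smul_eq_mul] at h1
    have h2 := hb v R (by omega)
    have h3 : 1344 * (R + 1) * 7225344 < 2 ^ 107 := by
      rw [hR0]
      norm_num
    calc P.card ≤ (Bl D v R).card * 7225344 := h1
      _ ≤ 1344 * (R + 1) * 7225344 := Nat.mul_le_mul_right _ h2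
      _ < _ := h3
  have htri : ∀ x y z, (Gam D).dist x z ≤ (Gam D).dist x y + (Gam D).dist y z := fun x y z =>
    hc.dist_triangle
  have hB : (Bl D v (2 * R)).card ≤ q * 2 ^ 24 := by
    refine (hb v (2 * R) le_rfl).trans ?_
    rw [hq, hR0]
    norm_num
  have hhit : ∀ p ∈ P, 2 ^ 24 ≤ ((Bl D v (2 * R)).filter fun w =>
      (Gam D).dist w p.1 ≠ (Gam D).dist w p.2).card := by
    rintro ⟨x, y⟩ hp
    obtain ⟨h1, h2, h3⟩ := (hmemP x y).1 hp
    have h4 : (Gam D).dist x y ≤ 2 * R := by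
      have h5 := htri x v y
      rw [SimpleGraph.dist_comm (u := x) (v := v)] at h5
      omega
    have h6 := Nd_sq hG htr hD h3 h4 (hsph x _ h4) hu
    have h7 : 2 ^ 24 ≤ (Nd D R x y).card := by
      by_contra h8
      push Not at h8
      have h9 : (Nd D R x y).card ^ 2 < (2 ^ 24) ^ 2 := Nat.pow_lt_pow_left h8 (by norm_num)
      have h10 : 2 * 7225344 * (Nd D R x y).card ^ 2 < 2 * 7225344 * (2 ^ 24) ^ 2 :=
        Nat.mul_lt_mul_of_pos_left h9 (by norm_num)
      rw [← hR0] at h10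
      omega
    refine h7.trans (Finset.card_le_card ?_)
    intro w hw
    unfold Nd at hw
    obtain ⟨h8, h9⟩ := Finset.mem_filter.1 hw
    refine Finset.mem_filter.2 ⟨hBl.2 ?_, h9⟩
    have h10 := htri v x w
    have h11 := hBl.1 h8
    omega
  obtain ⟨W, hWB, hWc, hW⟩ := hitting P (Bl D v (2 * R))
    (fun p w => (Gam D).dist w p.1 ≠ (Gam D).dist w p.2) (by norm_num : 1 ≤ 2 ^ 24) hB hhit hPc
  have hPS : PS G (insert v W) ≤ PS G (Bl D v R) := by
    rintro g ⟨hg, hgW⟩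
    refine ⟨hg, fun x hx => ?_⟩
    by_contra hne
    have hgv : g v = v := hgW v (Finset.mem_insert_self _ _)
    have h1 : (x, g x) ∈ P := by
      rw [hmemP]
      refine ⟨hBl.1 hx, ?_, fun h => hne h.symm⟩
      have h2 := dist_map hD hg v x
      rwa [hgv] at h2
    obtain ⟨w, hw, h3⟩ := hW _ h1
    apply h3
    have h4 := dist_map hD hg w x
    rw [hgW w (Finset.mem_insert_of_mem hw)] at h4
    exact h4.symm
  by_contra h1
  have h2 := chain htr hD hc hh h1
  have h3 := index_le hD (v := v) (r := 2 * R) (fun j hj => hsph v j hj) hWB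
  have h4 : Nat.card (PS G (insert v W)) ≤ Nat.card (PS G (Bl D v R)) :=
    Nat.card_mono (Set.toFinite _) hPS
  have h5 : 0 < Nat.card (PS G (Bl D v R)) := Nat.card_pos
  have h6 : 7225344 ^ W.card ≤ (2 ^ 23) ^ (q * 107) :=
    (Nat.pow_le_pow_left (by norm_num) _).trans (Nat.pow_le_pow_right (by norm_num) hWc)
  have h7 : 2 ^ R * Nat.card (PS G (Bl D v R)) ≤
      (2 ^ 23) ^ (q * 107) * Nat.card (PS G (Bl D v R)) :=
    h2.trans (h3.trans (Nat.mul_le_mul h6 h4))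
  have h8 := Nat.le_of_mul_le_mul_right h7 h5
  have h9 := FinA_exp h8
  rw [hq, hR0] at h9
  norm_num at h9

end WildLD
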