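import Pool.Agent.helper21.LD.BasicB

/-! A deep fixed point. -/

namespace WildLD

open Equiv WildJ

variable {Ω : Type} [Fintype Ω] [DecidableEq Ω]

/-- A point of the ball outside `S` gives an arc between `S` and its complement near `v`. -/
theorem FinB_near {D : Finset (Ω × Ω)} (hc : (Gam D).Connected) (S : Finset Ω) {v w : Ω} {R : ℕ}
    (hv : v ∈ S) (hw : w ∉ S) (hR : (Gam D).dist v w ≤ R) :
    ∃ x z, x ∈ S ∧ z ∉ S ∧ ((x, z) ∈ D ∨ (z, x) ∈ D) ∧ (Gam D).dist v x ≤ R := by
  classical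
  obtain ⟨γ, g0, g1, g2⟩ := exists_geo hc v w
  have hex : ∃ j, γ j ∉ S := ⟨(Gam D).dist v w, by rw [g1]; exact hw⟩
  have hj := Nat.find_spec hex
  have hj2 : Nat.find hex ≤ (Gam D).dist v w := Nat.find_min' hex (by rw [g1]; exact hw)
  have hj0 : Nat.find hex ≠ 0 := by
    intro h0
    rw [h0, g0] at hj
    exact hj hv
  obtain ⟨i, hi⟩ := Nat.exists_eq_succ_of_ne_zero hj0
  have hiS : γ i ∈ S := by
    have := Nat.find_min hex (m := i) (by omega)
    simpa using this
  rw [hi] at hj hj2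
  have hd1 := g2 i (i + 1) (by omega) hj2
  have hd2 := g2 0 i (by omega) (by omega)
  rw [g0] at hd2
  have hadj : (Gam D).Adj (γ i) (γ (i + 1)) := SimpleGraph.dist_eq_one_iff_adj.mp (by omega)
  unfold Gam at hadj
  rw [SimpleGraph.fromRel_adj] at hadj
  exact ⟨γ i, γ (i + 1), hiS, hj, hadj.2, by omega⟩

/-- **A deep fixed point.**

Proof.  Suppose every `v ∈ S = Fx h` has a point of `T = Sᶜ` in its ball of radius `R`.  A shortest walk from `v` to this point
leaves `S` for the first time along an edge from some `x ∈ S` to some `z ∈ T`, `dist v x ≤ R`.  The number of the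
`x ∈ S` which are adjacent to a point of `T` is at most `ex D S + ex D Sᶜ = 2 ex D S ≤ 168 d` (every edge comes from
an arc leaving or entering `S`).  So `card S ≤ 168 d * b`, where `b` bounds the cardinality of the balls of
radius `R`. -/
theorem deep {G : Subgroup (Perm Ω)} (htr : Tr G) {D : Finset (Ω × Ω)} (hD : Orb G D) {d : ℕ}
    (hd : D.card = Fintype.card Ω * d) (hc : (Gam D).Connected) {h : Perm Ω}
    (hex : ex D (Fx h) ≤ 84 * d) {R b : ℕ} (hb : ∀ v, (Bl D v R).card ≤ b)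
    (hS : 168 * d * b < (Fx h).card) : ∃ v, ∀ w ∈ Bl D v R, h w = w := by
  classical
  by_contra hcon
  push Not at hcon
  have hcomp := ex_compl htr hD hd (Fx h)
  set X : Finset Ω := ((D.filter fun p => p.1 ∈ Fx h ∧ p.2 ∉ Fx h).image Prod.fst) ∪
    ((D.filter fun p => p.1 ∈ (Fx h)ᶜ ∧ p.2 ∉ (Fx h)ᶜ).image Prod.snd) with hX
  have hXc : X.card ≤ 168 * d := by
    have h1 := Finset.card_union_le
      ((D.filter fun p => p.1 ∈ Fx h ∧ p.2 ∉ Fx h).image Prod.fst)
      ((D.filter fun p => p.1 ∈ (Fx h)ᶜ ∧ p.2 ∉ (Fx h)ᶜ).image Prod.snd)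
    have h2 : ((D.filter fun p => p.1 ∈ Fx h ∧ p.2 ∉ Fx h).image Prod.fst).card ≤ ex D (Fx h) :=
      Finset.card_image_le
    have h3 : ((D.filter fun p => p.1 ∈ (Fx h)ᶜ ∧ p.2 ∉ (Fx h)ᶜ).image Prod.snd).card
        ≤ ex D (Fx h)ᶜ := Finset.card_image_le
    rw [← hX] at h1
    omega
  have hsub : Fx h ⊆ X.biUnion fun x => Bl D x R := by
    intro v hv
    obtain ⟨w, hw, hwn⟩ := hcon v
    have hwd : (Gam D).dist v w ≤ R := by
      unfold Bl at hw
      exact (Finset.mem_filter.mp hw).2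
    have hwS : w ∉ Fx h := by
      intro hmem
      exact hwn (Finset.mem_filter.mp hmem).2
    obtain ⟨x, z, hx, hz, hxz, hvx⟩ := FinB_near hc (Fx h) hv hwS hwd
    rw [Finset.mem_biUnion]
    refine ⟨x, ?_, ?_⟩
    · rw [hX, Finset.mem_union, Finset.mem_image, Finset.mem_image]
      rcases hxz with h1 | h1
      · exact Or.inl ⟨(x, z), Finset.mem_filter.mpr ⟨h1, hx, hz⟩, rfl⟩
      · refine Or.inr ⟨(z, x), Finset.mem_filter.mpr ⟨h1, ?_, ?_⟩, rfl⟩
        · exact Finset.mem_compl.mpr hz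
        · intro hxc
          exact (Finset.mem_compl.mp hxc) hx
    · unfold Bl
      rw [Finset.mem_filter]
      refine ⟨Finset.mem_univ _, ?_⟩
      rw [SimpleGraph.dist_comm]
      exact hvx
  have h1 : (Fx h).card ≤ X.card * b :=
    (Finset.card_le_card hsub).trans (Finset.card_biUnion_le_card_mul _ _ _ fun x _ => hb x)
  have h2 : X.card * b ≤ 168 * d * b := Nat.mul_le_mul_right _ hXc
  omega

end WildLD
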