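import Pool.Agent.helper21.LD.SuppB

/-! Elements with bounded support.  Proofs by helper11. -/

namespace WildLD

open Equiv WildJ

variable {Ω : Type} [Fintype Ω] [DecidableEq Ω]

private theorem suppC_map_iff {G : Subgroup (Perm Ω)} {w u v : Ω} {g : Perm Ω} (hg : g ∈ G) :
    Sa G (g w) (g u) (g v) ↔ Sa G w u v := by
  constructor
  · intro h
    have h1 := h.map (G.inv_mem hg)
    simpa using h1
  · intro h
    exact h.map hg

omit [DecidableEq Ω] in
private theorem suppC_mem_Ds {G : Subgroup (Perm Ω)} {w u v : Ω} :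
    w ∈ Ds G u v ↔ ¬ Sa G w u v := by
  classical
  unfold Ds
  rw [Finset.mem_filter]
  simp

open Classical in
/-- number of pairs distinguished by `w` -/
private noncomputable def suppC_N (G : Subgroup (Perm Ω)) (w : Ω) : ℕ :=
  ∑ u : Ω, (Finset.univ.filter fun v => ¬ Sa G w u v).card

private theorem suppC_N_map {G : Subgroup (Perm Ω)} {g : Perm Ω} (hg : g ∈ G) (w : Ω) :
    suppC_N G (g w) = suppC_N G w := by
  classical
  unfold suppC_N
  rw [← Equiv.sum_comp g]
  apply Finset.sum_congr rfl
  intro u _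
  symm
  apply Finset.card_bij (fun v _ => g v)
  · intro v hv
    rw [Finset.mem_filter] at hv ⊢
    exact ⟨Finset.mem_univ _, fun h => hv.2 ((suppC_map_iff hg).1 h)⟩
  · intro v _ v' _ he
    exact g.injective he
  · intro v hv
    rw [Finset.mem_filter] at hv
    refine ⟨g.symm v, ?_, by simp⟩
    rw [Finset.mem_filter]
    refine ⟨Finset.mem_univ _, fun h => hv.2 ?_⟩
    have h1 := (suppC_map_iff hg).2 h
    simpa using h1

private theorem suppC_sum_N (G : Subgroup (Perm Ω)) :
    ∑ w : Ω, suppC_N G w = ∑ u : Ω, ∑ v : Ω, (Ds G u v).card := by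
  classical
  have h1 : ∀ w : Ω, suppC_N G w = ∑ u : Ω, ∑ v : Ω, if w ∈ Ds G u v then 1 else 0 := by
    intro w
    unfold suppC_N
    apply Finset.sum_congr rfl
    intro u _
    rw [Finset.card_filter]
    apply Finset.sum_congr rfl
    intro v _
    simp only [suppC_mem_Ds]
  rw [Finset.sum_congr rfl (fun w _ => h1 w), Finset.sum_comm]
  apply Finset.sum_congr rfl
  intro u _
  rw [Finset.sum_comm]
  apply Finset.sum_congr rfl
  intro v _
  rw [Finset.sum_ite_mem, Finset.univ_inter, Finset.sum_const, smul_eq_mul, mul_one]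

/-- **Bounded support.**  A primitive group which is not doubly transitive and contains an element `h ≠ 1`
moving at most `k` points has bounded degree.

Proof.  `x` with `h x ≠ x`; `Ds_supp`; so `Ds_le`: all pairs are distinguished by at most `8 k ^ 2` points.  `k ≥ 1`.
Let `n = card Ω`.  The number of the triples `(w, u, v)` with `w ∈ Ds G u v` is at most `8 k ^ 2 n ^ 2`, and by
transitivity it is `n` times the number for one fixed `w`.  So `∑ u, (n - c u) ≤ 8 k ^ 2 n`, where `c u` is the
number of the `v` with `Sa G w u v`; there is a `u` with `n ≤ c u + 8 k ^ 2`.  If `u = w`, then `c u = 1` and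
`n ≤ 8 k ^ 2 + 1`.  Otherwise there is a `u' ≠ w` which is not conjugate to `u` under the stabilizer of `w`:
otherwise `G` would be doubly transitive.  So `c u' ≤ 8 k ^ 2`.  `Y = orbOf G w u'` has out-degree `c u'`, so
`card (Bl Y w 1) ≤ 16 k ^ 2 + 1` (`Bl_one`), and `n ≤ (16 k ^ 2 + 1) ^ (8 k - 1)` by `diam_le` and `Bl_pow`. -/
theorem small_support {G : Subgroup (Perm Ω)} (hG : Prim G) (htr : Tr G)
    (h2 : ¬ ∀ a b a' b' : Ω, a ≠ b → a' ≠ b' → ∃ g ∈ G, g a = a' ∧ g b = b') {h : Perm Ω}
    (hh : h ∈ G) (h1 : h ≠ 1) {k : ℕ} (hk : (Fx h)ᶜ.card ≤ k) :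
    Fintype.card Ω ≤ (16 * k ^ 2 + 1) ^ (8 * k) := by
  classical
  obtain ⟨x, hx⟩ : ∃ x, h x ≠ x := by
    by_contra hcon
    push Not at hcon
    exact h1 (Equiv.ext hcon)
  have hxk : (Ds G x (h x)).card ≤ k := (Ds_supp hh x).trans hk
  have hk1 : 1 ≤ k := by
    have h3 : x ∈ (Fx h)ᶜ := by
      rw [Finset.mem_compl]
      intro h4
      unfold Fx at h4
      rw [Finset.mem_filter] at h4
      exact hx h4.2
    have h4 := Finset.card_pos.2 ⟨x, h3⟩
    omega
  have hDs := Ds_le hG htr (Ne.symm hx) hxk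
  have hn : 0 < Fintype.card Ω := Fintype.card_pos_iff.2 ⟨x⟩
  -- the number of pairs distinguished by `x`
  have hNx : suppC_N G x ≤ 8 * k ^ 2 * Fintype.card Ω := by
    have h3 : ∑ w : Ω, suppC_N G w = Fintype.card Ω * suppC_N G x := by
      rw [Finset.sum_congr rfl (g := fun _ => suppC_N G x)]
      · rw [Finset.sum_const, smul_eq_mul, Finset.card_univ]
      · intro w _
        obtain ⟨g, hg, rfl⟩ := htr x w
        exact suppC_N_map hg x
    have h4 : ∑ u : Ω, ∑ v : Ω, (Ds G u v).card ≤
        ∑ u : Ω, ∑ v : Ω, 8 * k ^ 2 :=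
      Finset.sum_le_sum (fun u _ => Finset.sum_le_sum (fun v _ => hDs u v))
    rw [← suppC_sum_N, h3] at h4
    simp only [Finset.sum_const, smul_eq_mul, Finset.card_univ] at h4
    have h5 := Nat.le_of_mul_le_mul_left h4 hn
    calc suppC_N G x ≤ Fintype.card Ω * (8 * k ^ 2) := h5
      _ = 8 * k ^ 2 * Fintype.card Ω := by ring
  -- the orbits of the stabilizer of `x`
  obtain ⟨u, hu⟩ : ∃ u : Ω, (Finset.univ.filter fun v => ¬ Sa G x u v).card ≤ 8 * k ^ 2 := by
    by_contra hcon
    push Not at hcon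
    have h3 : ∑ _u : Ω, (8 * k ^ 2 + 1) ≤ suppC_N G x := by
      unfold suppC_N
      exact Finset.sum_le_sum (fun u _ => hcon u)
    rw [Finset.sum_const, smul_eq_mul, Finset.card_univ] at h3
    have h4 : Fintype.card Ω * (8 * k ^ 2 + 1) = 8 * k ^ 2 * Fintype.card Ω + Fintype.card Ω := by
      ring
    omega
  have hcu : (Finset.univ.filter fun v => Sa G x u v).card +
      (Finset.univ.filter fun v => ¬ Sa G x u v).card = Fintype.card Ω := by
    rw [Finset.card_filter_add_card_filter_not, Finset.card_univ]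
  have hpow : 16 * k ^ 2 + 1 ≤ (16 * k ^ 2 + 1) ^ (8 * k) :=
    Nat.le_self_pow (by omega) _
  by_cases hux : u = x
  · have h3 : (Finset.univ.filter fun v => Sa G x u v).card ≤ 1 := by
      rw [Finset.card_le_one]
      intro a ha b hb
      rw [Finset.mem_filter] at ha hb
      obtain ⟨g, -, h4, h5⟩ := ha.2
      obtain ⟨g', -, h6, h7⟩ := hb.2
      rw [hux] at h5 h7
      rw [← h5, ← h7, h4, h6]
    omega
  · -- another orbit of the stabilizer of `x`
    obtain ⟨u', hu'x, hu'⟩ : ∃ u' : Ω, u' ≠ x ∧ ¬ Sa G x u u' := by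
      by_contra hcon
      push Not at hcon
      apply h2
      intro a b a' b' hab hab'
      obtain ⟨g₁, hg₁, h3⟩ := htr a x
      obtain ⟨g₂, hg₂, h4⟩ := htr a' x
      have h5 : g₁ b ≠ x := by
        rw [← h3]
        exact fun he => hab (g₁.injective he).symm
      have h6 : g₂ b' ≠ x := by
        rw [← h4]
        exact fun he => hab' (g₂.injective he).symm
      obtain ⟨s, hs, h7, h8⟩ := hcon _ h5
      obtain ⟨t, ht, h9, h10⟩ := hcon _ h6
      refine ⟨g₂⁻¹ * t * s⁻¹ * g₁, G.mul_mem (G.mul_mem (G.mul_mem (G.inv_mem hg₂) ht)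
        (G.inv_mem hs)) hg₁, ?_, ?_⟩
      · rw [Perm.mul_apply, Perm.mul_apply, Perm.mul_apply, h3, Perm.inv_eq_iff_eq, h4,
          (Perm.inv_eq_iff_eq.2 h7.symm : s⁻¹ x = x), h9]
      · rw [Perm.mul_apply, Perm.mul_apply, Perm.mul_apply, ← h8,
          (by simp : s⁻¹ (s u) = u), h10]
        simp
    have hdisj : Disjoint (Finset.univ.filter fun v => Sa G x u v)
        (Finset.univ.filter fun v => Sa G x u' v) := by
      rw [Finset.disjoint_left]
      intro v hv hv'
      rw [Finset.mem_filter] at hv hv'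
      exact hu' (hv.2.trans hv'.2.symm)
    have hcc : (Finset.univ.filter fun v => Sa G x u v).card +
        (Finset.univ.filter fun v => Sa G x u' v).card ≤ Fintype.card Ω := by
      rw [← Finset.card_union_of_disjoint hdisj, ← Finset.card_univ]
      exact Finset.card_le_card (Finset.subset_univ _)
    have hY : Orb G (orbOf G x u') := orbOf_orb (Ne.symm hu'x)
    obtain ⟨d, hd1, hd⟩ := exists_deg htr hY
    have hdc : d = (Finset.univ.filter fun v => Sa G x u' v).card := by
      rw [← outdeg htr hY hd x]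
      apply Finset.card_bij (fun p _ => p.2)
      · intro p hp
        rw [Finset.mem_filter] at hp
        rw [Finset.mem_filter]
        refine ⟨Finset.mem_univ _, ?_⟩
        have h3 := hp.1
        unfold orbOf at h3
        rw [Finset.mem_filter] at h3
        obtain ⟨g, hg, h4, h5⟩ := h3.2
        exact ⟨g, hg, by rw [h4, hp.2], h5⟩
      · intro p hp q hq he
        rw [Finset.mem_filter] at hp hq
        exact Prod.ext (hp.2.trans hq.2.symm) he
      · intro v hv
        rw [Finset.mem_filter] at hv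
        obtain ⟨g, hg, h4, h5⟩ := hv.2
        refine ⟨(x, v), ?_, rfl⟩
        rw [Finset.mem_filter]
        refine ⟨?_, rfl⟩
        unfold orbOf
        rw [Finset.mem_filter]
        exact ⟨Finset.mem_univ _, g, hg, h4, h5⟩
    have hc := conn hG hY
    have h3 := (Bl_one htr hY hd hc x).2
    have h4 := Bl_pow htr hY hc x (8 * k - 1)
    rw [diam_le hG htr (Ne.symm hx) hxk hY x, Finset.card_univ] at h4
    refine h4.trans ?_
    refine (Nat.pow_le_pow_left (show (Bl (orbOf G x u') x 1).card ≤ 16 * k ^ 2 + 1 by omega)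
      _).trans ?_
    exact Nat.pow_le_pow_right (by omega) (by omega)

end WildLD
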