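import Pool.Agent.helper21.LD.Burn
import Pool.Agent.helper21.LD.DichA
import Pool.Agent.helper21.LD.SuppC
import Pool.Agent.helper21.LD.FinA
import Pool.Agent.helper21.LD.FinB

/-! The main theorem on primitive groups. -/

namespace WildLD

open Equiv WildJ

variable {Ω : Type} [Fintype Ω] [DecidableEq Ω]

/-- The bound for the radius `R`. -/
def BdN (R : ℕ) : ℕ :=
  168 * (4 * R + 2) + (16 * (168 * (4 * R + 2)) ^ 2 + 1) ^ (8 * (168 * (4 * R + 2))) +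
    672 * (168 * 2688 * (1344 * (R + 1))) + 1

/-- The main theorem with a general radius `R`. -/
theorem Final_aux (R : ℕ) (hR : 1 ≤ R)
    (hrig : ∀ {Ω : Type} [Fintype Ω] [DecidableEq Ω] {G : Subgroup (Perm Ω)} (_ : Prim G)
      (_ : Tr G) {D : Finset (Ω × Ω)} (_ : Orb G D)
      (_ : ∀ v, ∀ r ≤ 2 * R, (Bl D v r).card ≤ 1344 * (r + 1))
      (_ : ∀ v, Bl D v R ≠ Finset.univ) {v : Ω} {h : Perm Ω} (_ : h ∈ PS G (Bl D v R)), h = 1)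
    {Ω : Type} [Fintype Ω] [DecidableEq Ω] {G : Subgroup (Perm Ω)} (hG : Prim G) (htr : Tr G)
    (h2t : ¬ ∀ a b a' b' : Ω, a ≠ b → a' ≠ b' → ∃ g ∈ G, g a = a' ∧ g b = b')
    {D : Finset (Ω × Ω)} (hD : Orb G D) {ι : Type} (I : Finset ι) (σ : ι → Perm Ω)
    (hσ : ∀ i ∈ I, σ i ∈ G)
    (h1 : ∑ i ∈ I, ∑ x : Ω, (1 - 1 / (Function.minimalPeriod (σ i) x : ℚ)) =
      2 * Fintype.card Ω - 2)
    (h2 : ∑ i ∈ I, ∑ p ∈ D, (1 - 1 / (Nat.lcm (Function.minimalPeriod (σ i) p.1)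
      (Function.minimalPeriod (σ i) p.2) : ℚ)) ≤ 2 * D.card)
    (h3 : 2 < ∑ i ∈ I, (1 - 1 / (orderOf (σ i) : ℚ))) :
    Fintype.card Ω < BdN R := by
  obtain ⟨k, hk⟩ : ∃ k, k = 168 * (4 * R + 2) := ⟨_, rfl⟩
  obtain ⟨A, hA⟩ : ∃ A, A = (16 * k ^ 2 + 1) ^ (8 * k) := ⟨_, rfl⟩
  obtain ⟨B, hB⟩ : ∃ B, B = 672 * (168 * 2688 * (1344 * (R + 1))) := ⟨_, rfl⟩
  have hbd : BdN R = k + A + B + 1 := by
    unfold BdN
    rw [← hk, ← hA, ← hB]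
  rw [hbd]
  obtain ⟨d, hd1, hd⟩ := exists_deg htr hD
  have hc := conn hG hD
  obtain ⟨i, hi, j, hne1, hFx, hex⟩ := exists_h htr hD hd I σ h1 h2 h3
  set h := σ i ^ j with hh
  have hhG : h ∈ G := pow_mem (hσ i hi) j
  obtain ⟨he, hcard, ρ, _, hu, hb, hor⟩ := dichotomy htr hD hd hc hne1 hFx hex
  by_cases hρ : ρ ≤ 4 * R + 2
  · have hρk : 168 * ρ ≤ k := by
      rw [hk]
      exact Nat.mul_le_mul_left _ hρ
    rcases hor with h4 | h4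
    · have h5 := small_support hG htr h2t hhG hne1 (le_trans h4 hρk)
      rw [← hA] at h5
      omega
    · omega
  · push Not at hρ
    have hgr : ∀ v, ∀ r ≤ 2 * R, (Bl D v r).card ≤ 1344 * (r + 1) := by
      intro v r hr
      exact growth htr hD hc hu hb (by omega) v
    have hu' : ∀ v, Bl D v R ≠ Finset.univ := by
      intro v hv
      apply hu v
      apply Finset.eq_univ_of_forall
      intro y
      have h4 : y ∈ Bl D v R := by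
        rw [hv]
        exact Finset.mem_univ _
      rw [Bl, Finset.mem_filter] at h4 ⊢
      exact ⟨Finset.mem_univ _, by omega⟩
    have hd2 : d ≤ 2688 := by
      obtain ⟨v, _⟩ := hFx
      have h4 := (Bl_one htr hD hd hc v).1
      have h5 := hgr v 1 (by omega)
      omega
    by_contra hcon
    push Not at hcon
    have h6 : 168 * d * (1344 * (R + 1)) < (Fx h).card := by
      have h7 : 168 * d * (1344 * (R + 1)) ≤ 168 * 2688 * (1344 * (R + 1)) :=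
        Nat.mul_le_mul_right _ (Nat.mul_le_mul_left _ hd2)
      obtain ⟨B1, hB1⟩ : ∃ B1, B1 = 168 * 2688 * (1344 * (R + 1)) := ⟨_, rfl⟩
      rw [← hB1] at h7 hB
      omega
    obtain ⟨v, hv⟩ := deep htr hD hd hc he (R := R) (b := 1344 * (R + 1))
      (fun v => hgr v R (by omega)) h6
    exact hne1 (hrig hG htr hD hgr hu' (v := v) ⟨hhG, hv⟩)

theorem BdN_num {k A B M N : ℕ} (h2 : A ≤ M) (h3 : M * M ≤ N) (h4 : 2 ^ 118 ≤ M)
    (hk : k ≤ 2 ^ 82) (hB : B ≤ 2 ^ 117) : k + A + B + 1 < N := by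
  have h5 : k + A + B + 1 ≤ 2 * M := by omega
  have h6 : 3 ≤ M := by
    have : 3 ≤ 2 ^ 118 := by norm_num
    omega
  nlinarith

theorem BdN_pow {k : ℕ} (hk : k ≤ 2 ^ 82) : (16 * k ^ 2 + 1) ^ (8 * k) ≤ 2 ^ 2 ^ 93 := by
  have h1 : 16 * k ^ 2 + 1 ≤ 2 ^ 169 := by
    have h2 : k ^ 2 ≤ (2 ^ 82) ^ 2 := Nat.pow_le_pow_left hk 2
    calc 16 * k ^ 2 + 1 ≤ 16 * (2 ^ 82) ^ 2 + 1 := by omega
      _ ≤ 2 ^ 169 := by norm_num
  calc (16 * k ^ 2 + 1) ^ (8 * k) ≤ (2 ^ 169) ^ (8 * k) := Nat.pow_le_pow_left h1 _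
    _ = 2 ^ (169 * (8 * k)) := by rw [← pow_mul]
    _ ≤ 2 ^ 2 ^ 93 := by
        apply pow_le_pow_right₀ (by norm_num)
        calc 169 * (8 * k) ≤ 169 * (8 * 2 ^ 82) := by omega
          _ ≤ 2 ^ 93 := by norm_num

theorem BdN_mul : (2 : ℕ) ^ 2 ^ 93 * 2 ^ 2 ^ 93 ≤ 2 ^ 2 ^ 100 := by
  rw [← pow_add]
  apply pow_le_pow_right₀ (by norm_num)
  norm_num

theorem BdN_118 : (2 : ℕ) ^ 118 ≤ 2 ^ 2 ^ 93 := pow_le_pow_right₀ (by norm_num) (by norm_num)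

theorem BdN_aux {R : ℕ} (hk : 168 * (4 * R + 2) ≤ 2 ^ 82)
    (hB : 672 * (168 * 2688 * (1344 * (R + 1))) ≤ 2 ^ 117) :
    BdN R < 2 ^ 2 ^ 100 :=
  BdN_num (BdN_pow hk) BdN_mul BdN_118 hk hB

/-- The bound is less than `2 ^ 2 ^ 100`. -/
theorem BdN_lt : BdN R0 < 2 ^ 2 ^ 100 :=
  BdN_aux (by unfold R0; norm_num) (by unfold R0; norm_num)

/-- **Main theorem.**

Proof.  `exists_h`, `dichotomy` (`conn`).  Let `ρ0 = 4 * R0 + 2`.
If `ρ ≤ ρ0`: either `card Ω ≤ 168 ρ0`, or `small_support` with `k = 168 ρ0`.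
If `ρ > ρ0`: `growth` for all `r ≤ 2 R0`; `Bl D v R0` is contained in `Bl D v (ρ - 1)`, so it is not everything.
`d ≤ card (Bl D v 1) ≤ 2688` (`Bl_one`).  If `card Ω > 672 * 168 * 2688 * 1344 * (R0 + 1)`, then `deep` gives a `v` such that
`h` fixes the ball of radius `R0` around `v`, and `rigid` gives `h = 1`, a contradiction.
So the maximum of the bounds is the constant `N0`. -/
theorem large_expl {Ω : Type} [Fintype Ω] [DecidableEq Ω] {G : Subgroup (Perm Ω)}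
    (hG : Prim G) (htr : Tr G)
    (h2t : ¬ ∀ a b a' b' : Ω, a ≠ b → a' ≠ b' → ∃ g ∈ G, g a = a' ∧ g b = b')
    {D : Finset (Ω × Ω)} (hD : Orb G D) {ι : Type} (I : Finset ι) (σ : ι → Perm Ω)
    (hσ : ∀ i ∈ I, σ i ∈ G)
    (h1 : ∑ i ∈ I, ∑ x : Ω, (1 - 1 / (Function.minimalPeriod (σ i) x : ℚ)) =
      2 * Fintype.card Ω - 2)
    (h2 : ∑ i ∈ I, ∑ p ∈ D, (1 - 1 / (Nat.lcm (Function.minimalPeriod (σ i) p.1)
      (Function.minimalPeriod (σ i) p.2) : ℚ)) ≤ 2 * D.card)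
    (h3 : 2 < ∑ i ∈ I, (1 - 1 / (orderOf (σ i) : ℚ))) :
    Fintype.card Ω < 2 ^ 2 ^ 100 :=
  lt_trans (Final_aux R0 (by unfold R0; norm_num)
    (fun hG htr _ hD hb hu _ _ hh => rigid hG htr hD hb hu hh) hG htr h2t hD I σ hσ h1 h2 h3)
    BdN_lt

/-- The existential form. -/
theorem large : ∃ N0 : ℕ, ∀ {Ω : Type} [Fintype Ω] [DecidableEq Ω] {G : Subgroup (Perm Ω)}
    (_ : Prim G) (_ : Tr G)
    (_ : ¬ ∀ a b a' b' : Ω, a ≠ b → a' ≠ b' → ∃ g ∈ G, g a = a' ∧ g b = b')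
    {D : Finset (Ω × Ω)} (_ : Orb G D) {ι : Type} (I : Finset ι) (σ : ι → Perm Ω)
    (_ : ∀ i ∈ I, σ i ∈ G)
    (_ : ∑ i ∈ I, ∑ x : Ω, (1 - 1 / (Function.minimalPeriod (σ i) x : ℚ)) =
      2 * Fintype.card Ω - 2)
    (_ : ∑ i ∈ I, ∑ p ∈ D, (1 - 1 / (Nat.lcm (Function.minimalPeriod (σ i) p.1)
      (Function.minimalPeriod (σ i) p.2) : ℚ)) ≤ 2 * D.card)
    (_ : 2 < ∑ i ∈ I, (1 - 1 / (orderOf (σ i) : ℚ))),
    Fintype.card Ω < N0 :=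
  ⟨2 ^ 2 ^ 100, fun hG htr h2 _ hD _ I σ hσ h1 h2' h3 =>
    large_expl hG htr h2 hD I σ hσ h1 h2' h3⟩

end WildLD
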