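import Pool.Agent.helper21.SC.FinalG
import Pool.Agent.helper44.LA.NumA

/-! The types with a Galois closure of genus at most one; the shortened list of the sporadic types
(helper21, MP_11236d_an, stage 6). -/

namespace WildLD

open WildRat WildS WildV WildH WildN WildLA

/-- If the listed fibres contain the whole ramification and the sum of `1 - 1 / lcm` over them is at most
two, then the Galois closure has genus at most one. -/
theorem galLe_of_hasTy {C : RF} (hn : 1 ≤ C.n) {τ : List (List ℕ)} (h : HasTy C τ)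
    (hrh : (τ.map fun l => C.n - l.length).sum = 2 * C.n - 2)
    (hs : (τ.map fun l : List ℕ => (1 - 1 / (((l : Multiset ℕ).lcm : ℕ) : ℚ))).sum ≤ 2) :
    GalLe C := by
  classical
  obtain ⟨c, hc, hp⟩ := h
  intro T
  have hoc : ∀ v : P1, 0 < oc C v := by
    intro v
    rw [Nat.pos_iff_ne_zero]
    unfold oc
    intro h0
    rw [Multiset.lcm_eq_zero_iff] at h0
    have := pas_pos hn v 0 h0
    omega
  have hterm : ∀ v : P1, 0 ≤ 1 - 1 / (oc C v : ℚ) := by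
    intro v
    have h1 : (1 : ℚ) ≤ oc C v := by exact_mod_cast hoc v
    have h2 : 1 / (oc C v : ℚ) ≤ 1 := by
      rw [div_le_one (by linarith)]
      exact h1
    linarith
  have hout : ∀ v, v ∉ Finset.univ.image c → 1 - 1 / (oc C v : ℚ) = 0 := by
    intro v hv
    have h1 : oc C v = 1 := by
      unfold oc
      have h2 : ∀ e ∈ pas C v, e = 1 := by
        intro e he
        obtain ⟨z, hz, rfl⟩ := Multiset.mem_map.1 he
        by_contra h3
        obtain ⟨i, hi⟩ := HasTy_crit hn hc hp hrh h3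
        apply hv
        rw [← (mem_fibP hn).1 (show z ∈ fibP C v from hz), ← hi]
        exact Finset.mem_image.2 ⟨i, Finset.mem_univ _, rfl⟩
      have h3 : (pas C v).lcm ∣ 1 := Multiset.lcm_dvd.2 fun e he => by rw [h2 e he]
      exact Nat.dvd_one.1 h3
    rw [h1]
    norm_num
  calc ∑ v ∈ T, (1 - 1 / (oc C v : ℚ)) ≤ ∑ v ∈ T ∪ Finset.univ.image c, (1 - 1 / (oc C v : ℚ)) :=
        Finset.sum_le_sum_of_subset_of_nonneg Finset.subset_union_left fun v _ _ => hterm v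
    _ = ∑ v ∈ Finset.univ.image c, (1 - 1 / (oc C v : ℚ)) := by
        symm
        exact Finset.sum_subset Finset.subset_union_right fun v _ hv => hout v hv
    _ = ∑ i, (1 - 1 / (oc C (c i) : ℚ)) := Finset.sum_image fun i _ j _ hij => hc hij
    _ = (τ.map fun l : List ℕ => (1 - 1 / (((l : Multiset ℕ).lcm : ℕ) : ℚ))).sum := by
        rw [← List.sum_ofFn]
        congr 1
        conv_rhs => rw [← List.ofFn_get τ, List.map_ofFn]
        congr 1
        funext i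
        unfold oc
        rw [hp i]
        rfl
    _ ≤ 2 := hs

theorem lcm_frac_le {l : List ℕ} {m : ℕ} (hm : 1 ≤ m) (h : ∀ e ∈ l, e ∣ m) :
    1 - 1 / (((l : Multiset ℕ).lcm : ℕ) : ℚ) ≤ 1 - 1 / (m : ℚ) := by
  have h1 : (l : Multiset ℕ).lcm ∣ m := Multiset.lcm_dvd.2 fun e he => h e (Multiset.mem_coe.1 he)
  have h2 : (l : Multiset ℕ).lcm ≤ m := Nat.le_of_dvd (by omega) h1
  have h3 : 0 < (l : Multiset ℕ).lcm := Nat.pos_of_dvd_of_pos h1 (by omega)
  have h4 : 1 / (m : ℚ) ≤ 1 / (((l : Multiset ℕ).lcm : ℕ) : ℚ) := by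
    apply one_div_le_one_div_of_le
    · exact_mod_cast h3
    · exact_mod_cast h2
  linarith

theorem lcm_frac_le_one {l : List ℕ} : 1 - 1 / (((l : Multiset ℕ).lcm : ℕ) : ℚ) ≤ 1 := by
  have : (0 : ℚ) ≤ 1 / (((l : Multiset ℕ).lcm : ℕ) : ℚ) := by positivity
  linarith

theorem lcm_frac_ones {k m : ℕ} (hm : 1 ≤ m) :
    1 - 1 / ((((1 :: List.replicate k m : List ℕ) : Multiset ℕ).lcm : ℕ) : ℚ) ≤ 1 - 1 / (m : ℚ) := by
  refine lcm_frac_le hm fun e he => ?_
  rcases List.mem_cons.1 he with rfl | he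
  · exact one_dvd m
  · rw [List.eq_of_mem_replicate he]

/-- The types `x ^ n`. -/
theorem galLe_of_Z {C : RF} (hn : 2 ≤ C.n) (h : TyZ C) : GalLe C := by
  refine galLe_of_hasTy (by omega) h ?_ ?_
  · simp
    omega
  · simp only [List.map_cons, List.map_nil, List.sum_cons, List.sum_nil]
    have := @lcm_frac_le_one [C.n]
    linarith

/-- The types of the Chebyshev polynomials of odd degree. -/
theorem galLe_of_T {C : RF} (hn : 2 ≤ C.n) (h : TyT C) : GalLe C := by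
  obtain ⟨k, hk, h⟩ := h
  refine galLe_of_hasTy (by omega) h ?_ ?_
  · simp
    omega
  · simp only [List.map_cons, List.map_nil, List.sum_cons, List.sum_nil]
    have h1 := @lcm_frac_le_one [C.n]
    have h2 := @lcm_frac_ones k 2 (by norm_num)
    have h3 : (1 : ℚ) - 1 / ((2 : ℕ) : ℚ) = 1 / 2 := by norm_num
    rw [h3] at h2
    linarith

/-- The Lattes types. -/
theorem galLe_of_L {C : RF} (hn : 2 ≤ C.n) (h : TyL C) : GalLe C := by
  rcases h with ⟨k, hk, h⟩ | ⟨k, hk, h⟩ | ⟨k, hk, h⟩ | ⟨k, hk, h⟩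
  · refine galLe_of_hasTy (by omega) h ?_ ?_
    · simp
      omega
    · simp only [List.map_replicate, List.sum_replicate, nsmul_eq_mul]
      have h2 := @lcm_frac_ones k 2 (by norm_num)
      norm_num at h2 ⊢
      linarith
  · refine galLe_of_hasTy (by omega) h ?_ ?_
    · simp
      omega
    · simp only [List.map_replicate, List.sum_replicate, nsmul_eq_mul]
      have h2 := @lcm_frac_ones k 3 (by norm_num)
      norm_num at h2 ⊢
      linarith
  · refine galLe_of_hasTy (by omega) h ?_ ?_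
    · simp
      omega
    · simp only [List.map_cons, List.map_nil, List.sum_cons, List.sum_nil]
      have h2 := @lcm_frac_ones (2 * k) 2 (by norm_num)
      have h3 := @lcm_frac_ones k 4 (by norm_num)
      norm_num at h2 h3 ⊢
      linarith
  · refine galLe_of_hasTy (by omega) h ?_ ?_
    · simp
      omega
    · simp only [List.map_cons, List.map_nil, List.sum_cons, List.sum_nil]
      have h2 := @lcm_frac_ones (3 * k) 2 (by norm_num)
      have h3 := @lcm_frac_ones (2 * k) 3 (by norm_num)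
      have h4 := @lcm_frac_ones k 6 (by norm_num)
      norm_num at h2 h3 h4 ⊢
      linarith

/-- The 40 sporadic ramification types. -/
def sporK : List (List (List ℕ)) :=
  [[[4], [2, 1, 1], [2, 1, 1], [2, 1, 1]],
   [[3, 1], [2, 2], [2, 1, 1], [2, 1, 1]],
   [[5], [3, 1, 1], [3, 1, 1]],
   [[5], [2, 2, 1], [2, 1, 1, 1], [2, 1, 1, 1]],
   [[4, 1], [3, 2], [2, 2, 1]],
   [[3, 2], [3, 2], [2, 2, 1]],
   [[6], [4, 1, 1], [2, 2, 1, 1]],
   [[6], [3, 2, 1], [2, 2, 1, 1]],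
   [[5, 1], [4, 2], [2, 2, 1, 1]],
   [[5, 1], [3, 3], [3, 1, 1, 1]],
   [[5, 1], [4, 1, 1], [2, 2, 2]],
   [[5, 1], [3, 2, 1], [2, 2, 2]],
   [[4, 2], [3, 3], [3, 1, 1, 1]],
   [[4, 2], [3, 3], [2, 1, 1, 1, 1], [2, 1, 1, 1, 1]],
   [[3, 3], [2, 2, 2], [3, 1, 1, 1], [2, 1, 1, 1, 1]],
   [[7], [4, 2, 1], [2, 2, 1, 1, 1]],
   [[7], [3, 2, 2], [2, 2, 1, 1, 1]],
   [[7], [3, 3, 1], [3, 1, 1, 1, 1]],
   [[7], [3, 3, 1], [2, 2, 1, 1, 1]],
   [[7], [4, 1, 1, 1], [2, 2, 2, 1]],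
   [[7], [3, 2, 1, 1], [2, 2, 2, 1]],
   [[5, 2], [3, 3, 1], [2, 2, 2, 1]],
   [[4, 3], [3, 3, 1], [2, 2, 2, 1]],
   [[8], [3, 3, 2], [2, 2, 1, 1, 1, 1]],
   [[8], [3, 3, 1, 1], [2, 2, 2, 1, 1]],
   [[7, 1], [4, 4], [2, 2, 1, 1, 1, 1]],
   [[7, 1], [3, 3, 1, 1], [2, 2, 2, 2]],
   [[5, 3], [4, 4], [2, 2, 1, 1, 1, 1]],
   [[5, 3], [3, 3, 1, 1], [2, 2, 2, 2]],
   [[9], [4, 4, 1], [2, 2, 1, 1, 1, 1, 1]],
   [[9], [3, 3, 1, 1, 1], [2, 2, 2, 2, 1]],
   [[8, 1], [3, 3, 3], [2, 2, 2, 1, 1, 1]],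
   [[7, 2], [3, 3, 3], [2, 2, 2, 1, 1, 1]],
   [[5, 4], [3, 3, 3], [2, 2, 2, 1, 1, 1]],
   [[7, 1, 1], [3, 3, 3], [2, 2, 2, 2, 1]],
   [[5, 3, 1], [3, 3, 3], [2, 2, 2, 2, 1]],
   [[10], [3, 3, 3, 1], [2, 2, 2, 1, 1, 1, 1]],
   [[8, 2], [5, 5], [2, 2, 1, 1, 1, 1, 1, 1]],
   [[6, 4], [5, 5], [2, 2, 1, 1, 1, 1, 1, 1]],
   [[4, 2, 2, 2], [3, 3, 3, 1], [3, 3, 3, 1]]]

/-- The six other sporadic types. -/
def sporG : List (List (List ℕ)) :=
  [[[2, 1], [2, 1], [2, 1], [2, 1]],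
   [[3, 1], [3, 1], [2, 2]],
   [[5], [3, 1, 1], [2, 2, 1]],
   [[4, 1], [4, 1], [2, 2, 1]],
   [[5, 1], [3, 3], [2, 2, 1, 1]],
   [[6, 1], [3, 3, 1], [2, 2, 2, 1]]]

theorem sporJ_split : ∀ τ ∈ sporJ, τ ∈ sporK ∨ τ ∈ sporG := by
  decide +kernel

theorem sporK_sub : ∀ τ ∈ sporK, τ ∈ sporJ := by
  decide +kernel

theorem sporG_sub : ∀ τ ∈ sporG, τ ∈ spor := by
  decide +kernel

theorem sporG_lcm : ∀ τ ∈ sporG,
    (τ.map fun l : List ℕ => (1 - 1 / (((l : Multiset ℕ).lcm : ℕ) : ℚ))).sum ≤ 2 := by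
  decide +kernel

theorem galLe_of_sporG {C : RF} (hn : 1 ≤ C.n) {τ : List (List ℕ)} (hτ : τ ∈ sporG)
    (h : HasTy C τ) : GalLe C := by
  refine galLe_of_hasTy hn h ?_ (sporG_lcm τ hτ)
  obtain ⟨h1, h2⟩ := Types_spor_ok τ (sporG_sub τ hτ)
  obtain ⟨c, hc, hp⟩ := h
  have hpos : 0 < τ.length := List.length_pos_iff.2 h1
  have hsum : (τ.get ⟨0, hpos⟩).sum = C.n := by
    have h6 := pas_sum hn (c ⟨0, hpos⟩)
    rw [hp, Multiset.sum_coe] at h6
    exact h6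
  have h3 := (h2 _ (List.get_mem τ ⟨0, hpos⟩)).1
  rw [hsum] at h3
  exact h3

/-- The list of the classification: Galois closure of genus at most one, `x ^ a * (1 - x) ^ b`, and the 40
sporadic types. -/
def Lst (C : RF) : Prop := GalLe C ∨ TypAB C ∨ ∃ τ ∈ sporK, HasTy C τ

theorem lst_of_J {C : RF} (hn : 2 ≤ C.n) (h : TyJ C) : Lst C := by
  rcases h with h | ⟨k, hk, h⟩ | ⟨τ, hτ, h⟩
  · exact Or.inr (Or.inl h)
  · exact Or.inl (galLe_of_L hn (Or.inr (Or.inl ⟨k, hk, h⟩)))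
  · rcases sporJ_split τ hτ with h1 | h1
    · exact Or.inr (Or.inr ⟨τ, h1, h⟩)
    · exact Or.inl (galLe_of_sporG (by omega) h1 h)

theorem lst_of_Ty {C : RF} (hn : 2 ≤ C.n) (h : WildJ.Ty C) : Lst C := by
  rcases h with h | h | h | h
  · exact lst_of_J hn h
  · exact Or.inl (galLe_of_Z hn h)
  · exact Or.inl (galLe_of_T hn h)
  · exact Or.inl (galLe_of_L hn h)

/-- Every function with a right factor in the list is wild. -/
theorem wild_of_lst {A B C : RF} (hn : 1 ≤ A.n) (hcomp : A.IsComp B C) (h2 : 2 ≤ C.n)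
    (h : Lst C) : A.Wild := by
  rcases h with h | h | ⟨τ, hτ, h⟩
  · exact WildG.wild_of_TW hn hcomp h2 (tw_of_galLe (by omega) h)
  · exact types_wild hn hcomp h2 (Or.inl (Or.inl h))
  · exact types_wild hn hcomp h2 (Or.inl (Or.inr (Or.inr ⟨τ, sporK_sub τ hτ, h⟩)))

end WildLD
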