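import Pool.Agent.helper21.LD.BasicB

/-! Linear growth.  (proofs: helper41) -/

namespace WildLD

open Equiv WildJ

variable {Ω : Type} [Fintype Ω] [DecidableEq Ω]

/-- **Linear growth of the balls.**

Proof.  Let `y` be at distance `ρ - 1` from `v` (`exists_dist`) and `γ` a shortest walk (`exists_geo`).  The
balls of radius `r` around `γ (j (2 r + 1))`, `j (2 r + 1) + r ≤ ρ - 1`, are disjoint and contained in the ball of
radius `ρ - 1` around `v`.  Their number is at least `(ρ - 1 - r) / (2 r + 1)` (real division), and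
`ρ - 1 - r ≥ ρ / 2`.  So `card Bl r * ρ / (2 (2 r + 1)) ≤ 336 ρ`. -/
theorem growth {G : Subgroup (Perm Ω)} (htr : Tr G) {D : Finset (Ω × Ω)} (hD : Orb G D)
    (hc : (Gam D).Connected) {ρ : ℕ} (hu : ∀ v, Bl D v (ρ - 1) ≠ Finset.univ)
    (hb : ∀ v, (Bl D v (ρ - 1)).card ≤ 336 * ρ) {r : ℕ} (hr : 2 * r + 2 ≤ ρ) (v : Ω) :
    (Bl D v r).card ≤ 1344 * (r + 1) := by
  classical
  have hρ : ρ - 1 ≤ ρ - 1 + 1 := by omega
  obtain ⟨y, hy⟩ := exists_dist hc (hu v) hρ
  obtain ⟨γ, g0, _, g2⟩ := exists_geo hc v y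
  rw [hy] at g2
  set J : ℕ := (ρ - 1 - r) / (2 * r + 1) + 1 with hJ
  have hJ1 : ρ - 1 - r < (2 * r + 1) * J := by
    rw [hJ, mul_add, mul_one]
    have := Nat.div_add_mod (ρ - 1 - r) (2 * r + 1)
    have h2 := Nat.mod_lt (ρ - 1 - r) (show 0 < 2 * r + 1 by omega)
    omega
  have hJ2 : ∀ j, j < J → j * (2 * r + 1) + r ≤ ρ - 1 := by
    intro j hj
    have h1 : j ≤ (ρ - 1 - r) / (2 * r + 1) := by omega
    have h2 : j * (2 * r + 1) ≤ ρ - 1 - r := (Nat.mul_le_mul_right _ h1).trans (Nat.div_mul_le_self _ _)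
    omega
  have hsub : ((Finset.range J).biUnion fun j => Bl D (γ (j * (2 * r + 1))) r) ⊆
      Bl D v (ρ - 1) := by
    intro x hx
    rw [Finset.mem_biUnion] at hx
    obtain ⟨j, hj, hx⟩ := hx
    rw [Finset.mem_range] at hj
    have h1 := hJ2 j hj
    unfold Bl at hx ⊢
    rw [Finset.mem_filter] at hx ⊢
    refine ⟨Finset.mem_univ _, ?_⟩
    have h2 := g2 0 (j * (2 * r + 1)) (Nat.zero_le _) (by omega)
    rw [g0] at h2
    have h3 := hc.dist_triangle (u := v) (v := γ (j * (2 * r + 1))) (w := x)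
    have h4 := hx.2
    omega
  have hdis : ∀ i ∈ Finset.range J, ∀ j ∈ Finset.range J, i ≠ j →
      Disjoint (Bl D (γ (i * (2 * r + 1))) r) (Bl D (γ (j * (2 * r + 1))) r) := by
    have key : ∀ i j, i < j → j < J →
        Disjoint (Bl D (γ (i * (2 * r + 1))) r) (Bl D (γ (j * (2 * r + 1))) r) := by
      intro i j hij hj
      rw [Finset.disjoint_left]
      intro x hx hx2
      unfold Bl at hx hx2
      rw [Finset.mem_filter] at hx hx2
      have h1 := hJ2 j hj
      have h2 : (i + 1) * (2 * r + 1) ≤ j * (2 * r + 1) := Nat.mul_le_mul_right _ hij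
      have h2' : (i + 1) * (2 * r + 1) = i * (2 * r + 1) + (2 * r + 1) := by ring
      have h3 := g2 (i * (2 * r + 1)) (j * (2 * r + 1)) (by omega) (by omega)
      have h4 := hc.dist_triangle (u := γ (i * (2 * r + 1))) (v := x) (w := γ (j * (2 * r + 1)))
      have h5 := hx.2
      have h6 := hx2.2
      rw [SimpleGraph.dist_comm] at h6
      omega
    intro i hi j hj hij
    rw [Finset.mem_range] at hi hj
    rcases Nat.lt_or_gt_of_ne hij with h | h
    · exact key i j h hj
    · exact (key j i h hi).symm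
  have hcard := Finset.card_biUnion hdis
  rw [Finset.sum_congr rfl (g := fun _ => (Bl D v r).card)
    (fun x _ => Bl_card htr hD _ v r), Finset.sum_const, smul_eq_mul, Finset.card_range] at hcard
  have h1 := (Finset.card_le_card hsub).trans (hb v)
  rw [hcard] at h1
  have h2 : 336 * ρ ≤ J * (672 * (2 * r + 1)) := by
    have h3 : ρ ≤ 2 * ((2 * r + 1) * J) := by omega
    calc 336 * ρ ≤ 336 * (2 * ((2 * r + 1) * J)) := Nat.mul_le_mul_left _ h3
      _ = J * (672 * (2 * r + 1)) := by ring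
  have h3 : (Bl D v r).card ≤ 672 * (2 * r + 1) :=
    Nat.le_of_mul_le_mul_left (h1.trans h2) (hJ ▸ Nat.succ_pos _)
  omega

/-- **Bounded spheres.**

Proof.  `a j = card (Sp D v j)`, `∑ j ≤ r, a j = card (Bl D v r) ≤ K (r + 1)`, `K = 1344`.  Fewer than
`(r + 1) / 2` of the `j ≤ r` have `a j > 2 K`; so there is a `j ≤ r` such that neither `j` nor `r - j` is one of
them (`j ↦ r - j` is an involution).  `Sp_mul`: `a r ≤ a j * a (r - j) ≤ 4 K ^ 2`. -/
theorem spheres {G : Subgroup (Perm Ω)} (htr : Tr G) {D : Finset (Ω × Ω)} (hD : Orb G D)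
    (hc : (Gam D).Connected) {r : ℕ} {v : Ω} (h : (Bl D v r).card ≤ 1344 * (r + 1)) :
    (Sp D v r).card ≤ 7225344 := by
  classical
  rw [Bl_sum] at h
  set a : ℕ → ℕ := fun j => (Sp D v j).card with ha
  set B : Finset ℕ := (Finset.range (r + 1)).filter fun j => 2688 < a j with hB
  have h1 : B.card * 2689 ≤ 1344 * (r + 1) := by
    calc B.card * 2689 = ∑ j ∈ B, 2689 := by rw [Finset.sum_const, smul_eq_mul]
      _ ≤ ∑ j ∈ B, a j := by
        apply Finset.sum_le_sum
        intro j hj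
        rw [hB, Finset.mem_filter] at hj
        exact hj.2
      _ ≤ ∑ j ∈ Finset.range (r + 1), a j :=
        Finset.sum_le_sum_of_subset (Finset.filter_subset _ _)
      _ ≤ 1344 * (r + 1) := h
  have h2 : (B ∪ B.image fun j => r - j).card < (Finset.range (r + 1)).card := by
    have h3 := Finset.card_union_le B (B.image fun j => r - j)
    have h4 : (B.image fun j => r - j).card ≤ B.card := Finset.card_image_le
    rw [Finset.card_range]
    omega
  obtain ⟨j, hj, hjn⟩ := Finset.exists_mem_notMem_of_card_lt_card h2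
  rw [Finset.mem_union, not_or] at hjn
  have hjr : j ≤ r := by
    rw [Finset.mem_range] at hj
    omega
  have h3 : a j ≤ 2688 := by
    by_contra hcon
    exact hjn.1 (Finset.mem_filter.mpr ⟨hj, by omega⟩)
  have h4 : a (r - j) ≤ 2688 := by
    by_contra hcon
    apply hjn.2
    rw [Finset.mem_image]
    refine ⟨r - j, Finset.mem_filter.mpr ⟨Finset.mem_range.mpr (by omega), by omega⟩, by omega⟩
  have h5 := Sp_mul htr hD hc v j (r - j)
  rw [Nat.add_sub_cancel' hjr] at h5
  calc (Sp D v r).card ≤ a j * a (r - j) := h5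
    _ ≤ 2688 * 2688 := Nat.mul_le_mul h3 h4
    _ = 7225344 := by norm_num

end WildLD
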