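import Pool.Agent.helper21.LD.BasicB

/-! Isoperimetric inequality for orbitals.  Author of the proofs: helper59. -/

namespace WildLD

open Equiv WildJ

variable {Ω : Type} [Fintype Ω] [DecidableEq Ω]

open Classical in
/-- Points: all fibres of `g ↦ g v` have the same number of elements. -/
theorem IsoA_pt {G : Subgroup (Perm Ω)} [Fintype G] (htr : Tr G) (v : Ω) :
    ∃ s : ℕ, ∀ E : Finset Ω,
      (Finset.univ.filter fun g : G => (g : Perm Ω) v ∈ E).card = E.card * s := by
  refine ⟨(Finset.univ.filter fun g : G => (g : Perm Ω) v = v).card, fun E => ?_⟩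
  have hm : ∀ g ∈ (Finset.univ.filter fun g : G => (g : Perm Ω) v ∈ E), (g : Perm Ω) v ∈ E :=
    fun g hg => (Finset.mem_filter.1 hg).2
  rw [Finset.card_eq_sum_card_fiberwise (f := fun g : G => (g : Perm Ω) v) (t := E) hm]
  rw [Finset.sum_const_nat]
  intro p hp
  obtain ⟨k, hk, hk1⟩ := htr v p
  refine Finset.card_nbij' (fun g => (⟨k, hk⟩ : G)⁻¹ * g) (fun g => (⟨k, hk⟩ : G) * g) ?_ ?_ ?_ ?_
  · intro g hg
    rw [Finset.mem_coe, Finset.mem_filter] at hg
    rw [Finset.mem_coe, Finset.mem_filter]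
    refine ⟨Finset.mem_univ _, ?_⟩
    change k⁻¹ ((g : Perm Ω) v) = v
    rw [Perm.inv_eq_iff_eq, hk1]
    exact hg.2
  · intro g hg
    rw [Finset.mem_coe, Finset.mem_filter] at hg
    rw [Finset.mem_coe, Finset.mem_filter, Finset.mem_filter]
    have h1 : (((⟨k, hk⟩ : G) * g : G) : Perm Ω) v = p := by
      change k ((g : Perm Ω) v) = p
      rw [hg.2, hk1]
    exact ⟨⟨Finset.mem_univ _, by rw [h1]; exact hp⟩, h1⟩
  · intro g _
    exact mul_inv_cancel_left _ _
  · intro g _
    exact inv_mul_cancel_left _ _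

open Classical in
/-- Arcs: all fibres of `g ↦ (g x, g z)` have the same number of elements. -/
theorem IsoA_arc {G : Subgroup (Perm Ω)} [Fintype G] {D : Finset (Ω × Ω)} (hD : Orb G D)
    {x z : Ω} (h : (x, z) ∈ D) :
    ∃ s : ℕ, ∀ E : Finset (Ω × Ω), E ⊆ D →
      (Finset.univ.filter fun g : G => ((g : Perm Ω) x, (g : Perm Ω) z) ∈ E).card = E.card * s := by
  refine ⟨(Finset.univ.filter fun g : G => ((g : Perm Ω) x, (g : Perm Ω) z) = (x, z)).card,
    fun E hE => ?_⟩
  have hm : ∀ g ∈ (Finset.univ.filter fun g : G => ((g : Perm Ω) x, (g : Perm Ω) z) ∈ E),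
      ((g : Perm Ω) x, (g : Perm Ω) z) ∈ E :=
    fun g hg => (Finset.mem_filter.1 hg).2
  rw [Finset.card_eq_sum_card_fiberwise (f := fun g : G => ((g : Perm Ω) x, (g : Perm Ω) z))
    (t := E) hm]
  rw [Finset.sum_const_nat]
  intro p hp
  obtain ⟨k, hk, hk1, hk2⟩ := hD.tr (x, z) h p (hE hp)
  have hk3 : (k x, k z) = p := Prod.ext hk1 hk2
  refine Finset.card_nbij' (fun g => (⟨k, hk⟩ : G)⁻¹ * g) (fun g => (⟨k, hk⟩ : G) * g) ?_ ?_ ?_ ?_
  · intro g hg
    rw [Finset.mem_coe, Finset.mem_filter] at hg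
    rw [Finset.mem_coe, Finset.mem_filter]
    refine ⟨Finset.mem_univ _, ?_⟩
    have h1 := hg.2.trans hk3.symm
    have h2 : (g : Perm Ω) x = k x := congrArg Prod.fst h1
    have h3 : (g : Perm Ω) z = k z := congrArg Prod.snd h1
    change (k⁻¹ ((g : Perm Ω) x), k⁻¹ ((g : Perm Ω) z)) = (x, z)
    have h4 : k⁻¹ (k x) = x := by rw [Perm.inv_eq_iff_eq]
    have h5 : k⁻¹ (k z) = z := by rw [Perm.inv_eq_iff_eq]
    rw [h2, h3, h4, h5]
  · intro g hg
    rw [Finset.mem_coe, Finset.mem_filter] at hg
    rw [Finset.mem_coe, Finset.mem_filter, Finset.mem_filter]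
    have h2 : (g : Perm Ω) x = x := congrArg Prod.fst hg.2
    have h3 : (g : Perm Ω) z = z := congrArg Prod.snd hg.2
    have h1 : ((((⟨k, hk⟩ : G) * g : G) : Perm Ω) x, (((⟨k, hk⟩ : G) * g : G) : Perm Ω) z) = p := by
      change (k ((g : Perm Ω) x), k ((g : Perm Ω) z)) = p
      rw [h2, h3, hk3]
    exact ⟨⟨Finset.mem_univ _, by rw [h1]; exact hp⟩, h1⟩
  · intro g _
    exact mul_inv_cancel_left _ _
  · intro g _
    exact inv_mul_cancel_left _ _

open Classical in
/-- The number of `g` with `g x ∈ A`, `g z ∉ A`. -/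
private noncomputable def IsoA_c (G : Subgroup (Perm Ω)) [Fintype G] (A : Finset Ω) (x z : Ω) : ℕ :=
  (Finset.univ.filter fun g : G => (g : Perm Ω) x ∈ A ∧ (g : Perm Ω) z ∉ A).card

private theorem IsoA_c_self (G : Subgroup (Perm Ω)) [Fintype G] (A : Finset Ω) (x : Ω) :
    IsoA_c G A x x = 0 := by
  unfold IsoA_c
  rw [Finset.card_eq_zero, Finset.filter_eq_empty_iff]
  rintro g - ⟨h1, h2⟩
  exact h2 h1

private theorem IsoA_c_tri (G : Subgroup (Perm Ω)) [Fintype G] (A : Finset Ω) (x y z : Ω) :
    IsoA_c G A x z ≤ IsoA_c G A x y + IsoA_c G A y z := by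
  classical
  unfold IsoA_c
  refine le_trans (Finset.card_le_card ?_) (Finset.card_union_le _ _)
  intro g hg
  rw [Finset.mem_filter] at hg
  rw [Finset.mem_union, Finset.mem_filter, Finset.mem_filter]
  by_cases h : (g : Perm Ω) y ∈ A
  · exact Or.inr ⟨Finset.mem_univ _, h, hg.2.2⟩
  · exact Or.inl ⟨Finset.mem_univ _, hg.2.1, h⟩

private theorem IsoA_c_adj {G : Subgroup (Perm Ω)} [Fintype G] (htr : Tr G) {D : Finset (Ω × Ω)}
    (hD : Orb G D) {d : ℕ} (hd : D.card = Fintype.card Ω * d) (A : Finset Ω) {x z : Ω}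
    (h : (Gam D).Adj x z) : D.card * IsoA_c G A x z ≤ Fintype.card G * ex D A := by
  classical
  have h0 : (x, z) ∈ D ∨ (z, x) ∈ D := by
    unfold Gam at h
    rw [SimpleGraph.fromRel_adj] at h
    exact h.2
  rcases h0 with h0 | h0
  · obtain ⟨s, hs⟩ := IsoA_arc hD h0
    have h1 := hs D subset_rfl
    have h2 := hs (D.filter fun p => p.1 ∈ A ∧ p.2 ∉ A) (Finset.filter_subset _ _)
    have h3 : (Finset.univ.filter fun g : G => ((g : Perm Ω) x, (g : Perm Ω) z) ∈ D) =
        Finset.univ := by
      rw [Finset.filter_eq_self]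
      intro g _
      exact hD.inv g g.2 x z h0
    have h4 : IsoA_c G A x z = (Finset.univ.filter fun g : G => ((g : Perm Ω) x, (g : Perm Ω) z) ∈
        D.filter fun p => p.1 ∈ A ∧ p.2 ∉ A).card := by
      unfold IsoA_c
      congr 1
      ext g
      rw [Finset.mem_filter, Finset.mem_filter, Finset.mem_filter]
      have h5 := hD.inv g g.2 x z h0
      constructor
      · rintro ⟨h6, h7⟩
        exact ⟨h6, h5, h7⟩
      · rintro ⟨h6, -, h7⟩
        exact ⟨h6, h7⟩
    rw [h3, Finset.card_univ] at h1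
    rw [h4, h2, h1]
    unfold ex
    exact le_of_eq (by ring)
  · obtain ⟨s, hs⟩ := IsoA_arc hD h0
    have h1 := hs D subset_rfl
    have h2 := hs (D.filter fun p => p.1 ∈ Aᶜ ∧ p.2 ∉ Aᶜ) (Finset.filter_subset _ _)
    have h3 : (Finset.univ.filter fun g : G => ((g : Perm Ω) z, (g : Perm Ω) x) ∈ D) =
        Finset.univ := by
      rw [Finset.filter_eq_self]
      intro g _
      exact hD.inv g g.2 z x h0
    have h4 : IsoA_c G A x z = (Finset.univ.filter fun g : G => ((g : Perm Ω) z, (g : Perm Ω) x) ∈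
        D.filter fun p => p.1 ∈ Aᶜ ∧ p.2 ∉ Aᶜ).card := by
      unfold IsoA_c
      congr 1
      ext g
      rw [Finset.mem_filter, Finset.mem_filter, Finset.mem_filter]
      have h5 := hD.inv g g.2 z x h0
      constructor
      · rintro ⟨h6, h7, h8⟩
        exact ⟨h6, h5, Finset.mem_compl.2 h8, by
          rw [Finset.mem_compl, not_not]
          exact h7⟩
      · rintro ⟨h6, -, h7, h8⟩
        rw [Finset.mem_compl, not_not] at h8
        exact ⟨h6, h8, Finset.mem_compl.1 h7⟩
    rw [h3, Finset.card_univ] at h1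
    have h5 := ex_compl htr hD hd A
    rw [h4, h2, h1, ← h5]
    unfold ex
    exact le_of_eq (by ring)

private theorem IsoA_c_walk {G : Subgroup (Perm Ω)} [Fintype G] (htr : Tr G) {D : Finset (Ω × Ω)}
    (hD : Orb G D) {d : ℕ} (hd : D.card = Fintype.card Ω * d) (A : Finset Ω) {x z : Ω}
    (w : (Gam D).Walk x z) :
    D.card * IsoA_c G A x z ≤ w.length * (Fintype.card G * ex D A) := by
  induction w with
  | nil => rw [IsoA_c_self]; simp
  | cons h p ih =>
    rename_i u v w
    have h1 := IsoA_c_adj htr hD hd A h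
    have h2 := IsoA_c_tri G A u v w
    rw [SimpleGraph.Walk.length_cons]
    calc D.card * IsoA_c G A u w ≤ D.card * (IsoA_c G A u v + IsoA_c G A v w) :=
          Nat.mul_le_mul_left _ h2
      _ = D.card * IsoA_c G A u v + D.card * IsoA_c G A v w := by ring
      _ ≤ Fintype.card G * ex D A + p.length * (Fintype.card G * ex D A) := Nat.add_le_add h1 ih
      _ = (p.length + 1) * (Fintype.card G * ex D A) := by ring

/-- The number of `g ∈ G` which map the arc `(x, z)` into a given subset of `D`.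

Proof.  The map `g ↦ (g x, g z)` from `G` to `D` is surjective, and all fibres have the same number of
elements (cosets of the stabilizer of the arc), so every fibre has `card G / card D` elements. -/
theorem count_arc {G : Subgroup (Perm Ω)} {D : Finset (Ω × Ω)} (hD : Orb G D) {x z : Ω}
    (h : (x, z) ∈ D) (E : Finset (Ω × Ω)) (hE : E ⊆ D) :
    D.card * Nat.card {g : G // ((g : Perm Ω) x, (g : Perm Ω) z) ∈ E} =
      Nat.card G * E.card := by
  classical
  let _ : Fintype G := Fintype.ofFinite G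
  obtain ⟨s, hs⟩ := IsoA_arc hD h
  have h1 := hs D subset_rfl
  have h2 := hs E hE
  have h3 : (Finset.univ.filter fun g : G => ((g : Perm Ω) x, (g : Perm Ω) z) ∈ D) =
      Finset.univ := by
    rw [Finset.filter_eq_self]
    intro g _
    exact hD.inv g g.2 x z h
  rw [h3, Finset.card_univ] at h1
  rw [Nat.card_eq_fintype_card, Nat.card_eq_fintype_card, Fintype.card_subtype, h2, h1]
  ring

/-- **Isoperimetric inequality.**  `A` nonempty, the ball of radius `ρ` has at least `2 card A` elements.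

Proof.  For points `x`, `z` let `c x z` be the number of `g ∈ G` with `g x ∈ A`, `g z ∉ A`.  If `x`, `z` are
adjacent in `Gam D`, then `card D * c x z = card G * ex D A`: for `(x, z) ∈ D` this is `count_arc` for the arcs
leaving `A`; for `(z, x) ∈ D` it is `count_arc` for the arcs entering `A`, whose number is
`ex D Aᶜ = ex D A`.  `c` satisfies the triangle inequality `c x z ≤ c x y + c y z`, so
`card D * c v y ≤ dist v y * card G * ex D A` (a shortest walk).  Sum over `y` in the ball `B` around `v`: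
for `g` with `g v ∈ A` at least `card B - card A ≥ card B / 2` points `y ∈ B` have `g y ∉ A`; the number of
the `g` with `g v ∈ A` is `card A * card G / card Ω` (orbit-stabilizer, `htr`).  So
`card D * (card A * card G / card Ω) * (card B / 2) ≤ card B * ρ * card G * ex D A`, and
`card D = card Ω * d`. -/
theorem iso {G : Subgroup (Perm Ω)} (htr : Tr G) {D : Finset (Ω × Ω)} (hD : Orb G D) {d : ℕ}
    (hd : D.card = Fintype.card Ω * d) (hc : (Gam D).Connected) {A : Finset Ω} (hA : A.Nonempty)
    {v : Ω} {ρ : ℕ} (hρ : 2 * A.card ≤ (Bl D v ρ).card) : d * A.card ≤ 2 * ρ * ex D A := by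
  classical
  let _ : Fintype G := Fintype.ofFinite G
  obtain ⟨s, hs⟩ := IsoA_pt htr v
  have hG : Fintype.card G = Fintype.card Ω * s := by
    have h1 := hs Finset.univ
    rw [Finset.filter_true_of_mem (fun _ _ => Finset.mem_univ _), Finset.card_univ,
      Finset.card_univ] at h1
    exact h1
  set B := Bl D v ρ with hB
  set N := (Finset.univ.filter fun g : G => (g : Perm Ω) v ∈ A) with hN
  have hNc : N.card = A.card * s := hs A
  have hG0 : 0 < Fintype.card G := Fintype.card_pos
  have hA0 : 0 < A.card := hA.card_pos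
  have hB0 : 0 < B.card := by omega
  -- upper bound for the sum
  have h1 : D.card * ∑ y ∈ B, IsoA_c G A v y ≤ B.card * (ρ * (Fintype.card G * ex D A)) := by
    rw [Finset.mul_sum, ← smul_eq_mul, ← Finset.sum_const]
    refine Finset.sum_le_sum fun y hy => ?_
    have h2 : (Gam D).dist v y ≤ ρ := by
      rw [hB] at hy
      unfold Bl at hy
      exact (Finset.mem_filter.1 hy).2
    obtain ⟨w, hw⟩ := hc.exists_walk_length_eq_dist v y
    refine (IsoA_c_walk htr hD hd A w).trans ?_
    rw [hw]
    exact Nat.mul_le_mul_right _ h2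
  -- lower bound for the sum
  have h2 : N.card * B.card ≤ 2 * ∑ y ∈ B, IsoA_c G A v y := by
    have h3 : ∑ y ∈ B, IsoA_c G A v y =
        ∑ g ∈ N, (B.filter fun y => (g : Perm Ω) y ∉ A).card := by
      have h4 : ∀ y, IsoA_c G A v y = ∑ g ∈ N, if (g : Perm Ω) y ∉ A then 1 else 0 := by
        intro y
        unfold IsoA_c
        rw [← Finset.card_filter, hN, Finset.filter_filter]
      rw [Finset.sum_congr rfl fun y _ => h4 y, Finset.sum_comm]
      refine Finset.sum_congr rfl fun g _ => ?_
      rw [Finset.card_filter]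
    rw [h3, Finset.mul_sum, ← smul_eq_mul, ← Finset.sum_const]
    refine Finset.sum_le_sum fun g _ => ?_
    have h5 : (B.filter fun y => (g : Perm Ω) y ∈ A).card ≤ A.card := by
      refine Finset.card_le_card_of_injOn (fun y => (g : Perm Ω) y) ?_ ?_
      · intro y hy
        exact (Finset.mem_filter.1 (Finset.mem_coe.1 hy)).2
      · intro y _ y' _ h
        exact (g : Perm Ω).injective h
    have h6 := Finset.card_filter_add_card_filter_not (s := B) (fun y => (g : Perm Ω) y ∈ A)
    omega
  have h3 : D.card * (N.card * B.card) ≤ 2 * (B.card * (ρ * (Fintype.card G * ex D A))) := by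
    calc D.card * (N.card * B.card) ≤ D.card * (2 * ∑ y ∈ B, IsoA_c G A v y) :=
          Nat.mul_le_mul_left _ h2
      _ = 2 * (D.card * ∑ y ∈ B, IsoA_c G A v y) := by ring
      _ ≤ _ := Nat.mul_le_mul_left _ h1
  have h4 : (Fintype.card G * B.card) * (d * A.card) ≤
      (Fintype.card G * B.card) * (2 * ρ * ex D A) := by
    calc (Fintype.card G * B.card) * (d * A.card) = D.card * (N.card * B.card) := by
          rw [hd, hNc, hG]
          ring
      _ ≤ _ := h3
      _ = _ := by ring
  exact Nat.le_of_mul_le_mul_left h4 (Nat.mul_pos hG0 hB0)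

end WildLD
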