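import Pool.Agent.helper21.LD.IsoA

/-! Packing and edge connectivity. -/

namespace WildLD

open Equiv WildJ

variable {Ω : Type} [Fintype Ω] [DecidableEq Ω]

theorem IsoB_mem {D : Finset (Ω × Ω)} {v : Ω} {r : ℕ} {z : Ω} :
    z ∈ Bl D v r ↔ (Gam D).dist v z ≤ r := by
  classical
  unfold Bl
  simp

/-- **Packing.**

Proof.  Induction on `j`.  `j = 0`: `Bl_one`.  If the ball of radius `3 j + 4` is everything, there is
nothing to prove.  Otherwise there is a point `y` at distance `3 j + 3` from `v` (`exists_dist`); the ball of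
radius one around `y` is contained in the ball of radius `3 j + 4` and disjoint from the ball of
radius `3 j + 1`. -/
theorem pack {G : Subgroup (Perm Ω)} (htr : Tr G) {D : Finset (Ω × Ω)} (hD : Orb G D) {d : ℕ}
    (hd : D.card = Fintype.card Ω * d) (hc : (Gam D).Connected) (v : Ω) (j : ℕ) :
    min (Fintype.card Ω) ((j + 1) * (d + 1)) ≤ (Bl D v (3 * j + 1)).card := by
  induction j with
  | zero =>
    have h := (Bl_one htr hD hd hc v).1
    refine le_trans (min_le_right _ _) ?_
    simpa using h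
  | succ j ih =>
    by_cases hu : Bl D v (3 * j + 4) = Finset.univ
    · have h1 : 3 * (j + 1) + 1 = 3 * j + 4 := by ring
      rw [h1, hu, Finset.card_univ]
      exact min_le_left _ _
    · obtain ⟨y, hy⟩ := exists_dist hc hu (j := 3 * j + 3) (by omega)
      have h1 : Bl D y 1 ⊆ Bl D v (3 * j + 4) := by
        intro z hz
        rw [IsoB_mem] at hz ⊢
        have := hc.dist_triangle (u := v) (v := y) (w := z)
        omega
      have h2 : Bl D v (3 * j + 1) ⊆ Bl D v (3 * j + 4) := by
        intro z hz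
        rw [IsoB_mem] at hz ⊢
        omega
      have h3 : Disjoint (Bl D v (3 * j + 1)) (Bl D y 1) := by
        rw [Finset.disjoint_left]
        intro z hz hz2
        rw [IsoB_mem] at hz hz2
        have := hc.dist_triangle (u := v) (v := z) (w := y)
        rw [SimpleGraph.dist_comm (u := z)] at this
        omega
      have h4 := Finset.card_le_card (Finset.union_subset h2 h1)
      rw [Finset.card_union_of_disjoint h3] at h4
      have h5 := (Bl_one htr hD hd hc y).1
      have h6 : 3 * (j + 1) + 1 = 3 * j + 4 := by ring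
      rw [h6]
      have h7 : (j + 1 + 1) * (d + 1) = (j + 1) * (d + 1) + (d + 1) := by ring
      rw [h7]
      omega

theorem IsoB_half {G : Subgroup (Perm Ω)} (htr : Tr G) {D : Finset (Ω × Ω)} (hD : Orb G D) {d : ℕ}
    (hd : D.card = Fintype.card Ω * d) (hc : (Gam D).Connected) {A : Finset Ω} (hA : A.Nonempty)
    (hA' : 2 * A.card ≤ Fintype.card Ω) : d ≤ 8 * ex D A := by
  obtain ⟨v, hv⟩ := hA
  have ha : 1 ≤ A.card := Finset.card_pos.mpr ⟨v, hv⟩
  obtain ⟨j, hj⟩ : ∃ j, j = 2 * A.card / (d + 1) := ⟨_, rfl⟩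
  have h1 : 2 * A.card < (j + 1) * (d + 1) := by
    rw [hj]
    have := Nat.lt_div_mul_add (a := 2 * A.card) (b := d + 1) (by omega)
    rw [add_mul, one_mul]
    exact this
  have h2 := pack htr hD hd hc v j
  have h3 : 2 * A.card ≤ (Bl D v (3 * j + 1)).card := by
    refine le_trans (le_min hA' h1.le) h2
  have h4 := iso htr hD hd hc ⟨v, hv⟩ h3
  rcases Nat.eq_zero_or_pos j with hj0 | hj0
  · rw [hj0] at h4
    nlinarith
  · have h5 : j * (d + 1) ≤ 2 * A.card := by
      rw [hj]
      exact Nat.div_mul_le_self _ _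
    have h6 : (3 * j + 1) * (d + 1) ≤ 8 * A.card := by nlinarith
    have h7 : A.card * (d * (d + 1)) ≤ A.card * (16 * ex D A) := by
      calc A.card * (d * (d + 1)) = d * A.card * (d + 1) := by ring
        _ ≤ 2 * (3 * j + 1) * ex D A * (d + 1) := Nat.mul_le_mul_right _ h4
        _ = (3 * j + 1) * (d + 1) * (2 * ex D A) := by ring
        _ ≤ 8 * A.card * (2 * ex D A) := Nat.mul_le_mul_right _ h6
        _ = A.card * (16 * ex D A) := by ring
    have h8 : d * (d + 1) ≤ 16 * ex D A := Nat.le_of_mul_le_mul_left h7 ha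
    rcases Nat.eq_zero_or_pos d with hd0 | hd0
    · omega
    · nlinarith

/-- **Edge connectivity.**

Proof.  By `ex_compl` we may assume `2 card A ≤ card Ω`.  Let `j = 2 card A / (d + 1)`; then
`(j + 1) (d + 1) > 2 card A`, so by `pack` the ball of radius `3 j + 1` has at least `2 card A` elements
(`d ≥ 1` because `D` is nonempty).  `iso`: `d card A ≤ 2 (3 j + 1) ex D A`.  If `j = 0`:
`d ≤ 2 ex D A`.  If `j ≥ 1`: `3 j + 1 ≤ 4 j ≤ 8 card A / (d + 1)`, so
`d (d + 1) ≤ 16 ex D A`, and `d + 1 ≥ 2`. -/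
theorem econn {G : Subgroup (Perm Ω)} (htr : Tr G) {D : Finset (Ω × Ω)} (hD : Orb G D) {d : ℕ}
    (hd : D.card = Fintype.card Ω * d) (hc : (Gam D).Connected) {A : Finset Ω} (hA : A.Nonempty)
    (hA' : A ≠ Finset.univ) : d ≤ 8 * ex D A := by
  by_cases h : 2 * A.card ≤ Fintype.card Ω
  · exact IsoB_half htr hD hd hc hA h
  · rw [← ex_compl htr hD hd A]
    have h1 := Finset.card_add_card_compl A
    refine IsoB_half htr hD hd hc ?_ (by omega)
    rw [Finset.nonempty_iff_ne_empty]
    intro h2
    exact hA' ((Finset.compl_eq_empty_iff A).mp h2)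

end WildLD
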