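import Pool.Agent.helper44.LA.Final
import Pool.Agent.helper21.LD.GalT

/-! The large degree theorem with an explicit constant, and the classification
(helper21, helper44, MP_11236d_an, stage 6). -/

namespace WildLD

open Polynomial WildRat WildS WildV WildH WildN WildLA

variable {K : Type} [Field K] [Algebra ℂ K]

theorem large_norm_gen {N1 : ℕ}
    (hN1 : ∀ {Ω : Type} [Fintype Ω] [DecidableEq Ω] {G : Subgroup (Equiv.Perm Ω)}
      (_ : WildJ.Prim G) (_ : Tr G)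
      (_ : ¬ ∀ a b a' b' : Ω, a ≠ b → a' ≠ b' → ∃ g ∈ G, g a = a' ∧ g b = b')
      {D : Finset (Ω × Ω)} (_ : Orb G D) {ι : Type} (I : Finset ι) (σ : ι → Equiv.Perm Ω)
      (_ : ∀ i ∈ I, σ i ∈ G)
      (_ : ∑ i ∈ I, ∑ x : Ω, (1 - 1 / (Function.minimalPeriod (σ i) x : ℚ)) =
        2 * Fintype.card Ω - 2)
      (_ : ∑ i ∈ I, ∑ p ∈ D, (1 - 1 / (Nat.lcm (Function.minimalPeriod (σ i) p.1)
        (Function.minimalPeriod (σ i) p.2) : ℚ)) ≤ 2 * D.card)
      (_ : 2 < ∑ i ∈ I, (1 - 1 / (orderOf (σ i) : ℚ))),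
      Fintype.card Ω < N1)
    (hK : Good K) (A : RF) (hA : WildG.NormG A) (hi : Indec A) (φ ψ : E →ₐ[ℂ] K) (hne : φ ≠ ψ)
    (h0 : φ (elt A) = ψ (elt A)) (hN2 : N1 ≤ A.n) (hN3 : 11 ≤ A.n) : GalLe A ∨ TypAB A := by
  classical
  have hn : 1 ≤ A.n := le_trans (by norm_num) hA.two
  by_cases hG : GalLe A
  · exact Or.inl hG
  obtain ⟨δ, s, x, y, π, hs, hxy, hπ, hoc, hrh, hcost⟩ := exists_data hK hA hne h0
  by_cases h2 : ∀ a b a' b' : s, a ≠ b → a' ≠ b' → ∃ g ∈ Act_G s (δ RatFunc.X), g a = a' ∧ g b = b'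
  · exact large_two hK hA (hs.two hA h2) hne h0 hN3
  exfalso
  unfold GalLe at hG
  push Not at hG
  obtain ⟨T, hT⟩ := hG
  obtain ⟨T0, hT0⟩ : ∃ T0 : Finset ℂ, T0 = T.eraseNone ∪ (critV A hn).eraseNone := ⟨_, rfl⟩
  have h3 : ∑ c ∈ T, (1 - 1 / (oc A c : ℚ)) ≤ ∑ c ∈ T0, (1 - 1 / (oc A (some c) : ℚ)) := by
    have h4 : ∑ c ∈ T, (1 - 1 / (oc A c : ℚ)) =
        ∑ c ∈ T.erase none, (1 - 1 / (oc A c : ℚ)) := by
      symm
      refine Finset.sum_subset (Finset.erase_subset _ _) ?_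
      intro c hc hc'
      have h5 : c = none := by
        by_contra h6
        exact hc' (Finset.mem_erase.2 ⟨h6, hc⟩)
      rw [h5]
      exact Final_term_zero hn hA.unram
    have h5 : T.erase none ⊆ T0.image some := by
      intro c hc
      obtain ⟨hc1, hc2⟩ := Finset.mem_erase.1 hc
      obtain ⟨c', rfl⟩ := Option.ne_none_iff_exists'.1 hc1
      rw [hT0, Finset.mem_image]
      exact ⟨c', Finset.mem_union_left _ (Finset.mem_eraseNone.2 hc2), rfl⟩
    rw [h4]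
    refine (Finset.sum_le_sum_of_subset_of_nonneg h5 fun v _ _ => Final_nonneg A v).trans ?_
    rw [Finset.sum_image fun i _ j _ hij => Option.some_injective _ hij]
  have hcard : Fintype.card s = A.n := by
    rw [Fintype.card_coe]
    exact hs.card
  have hlt : Fintype.card s < N1 := by
    refine hN1 (hs.prim hA hi) (hs.tr hn) h2 (WildLD.orbOf_orb hxy) T0 π (fun i _ => hπ i) ?_
      (hcost T0) ?_
    · refine hrh T0 ?_
      intro a p hap hea
      rw [hT0]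
      refine Finset.mem_union_right _ (Finset.mem_eraseNone.2 ?_)
      rw [mem_critV hn]
      refine ⟨some a, hap, ?_⟩
      have := A.one_le_e hn (some a)
      omega
    · refine lt_of_lt_of_le (lt_of_lt_of_le hT h3) ?_
      refine Finset.sum_le_sum fun c _ => ?_
      have h6 : 0 < orderOf (π c) := orderOf_pos _
      have h7 : oc A (some c) ≤ orderOf (π c) := Nat.le_of_dvd h6 (hoc c)
      have h8 : 0 < oc A (some c) := Nat.pos_of_dvd_of_pos (hoc c) h6
      have h9 : (oc A (some c) : ℚ) ≤ (orderOf (π c) : ℚ) := by exact_mod_cast h7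
      have h10 : (0 : ℚ) < (oc A (some c) : ℚ) := by exact_mod_cast h8
      have h11 := one_div_le_one_div_of_le h10 h9
      linarith
  rw [hcard] at hlt
  omega

/-- `2 ^ 2 ^ a`. -/
def twoPow (a : ℕ) : ℕ := 2 ^ 2 ^ a

theorem twoPow_def (a : ℕ) : twoPow a = 2 ^ 2 ^ a := rfl

theorem twoPow_ge {a : ℕ} (ha : 2 ≤ a) : 11 ≤ twoPow a := by
  rw [twoPow_def]
  have h0 : (2 : ℕ) ^ 2 ≤ 2 ^ a := pow_le_pow_right₀ (by norm_num) ha
  have h1 : (2 : ℕ) ^ 2 ^ 2 ≤ 2 ^ 2 ^ a := pow_le_pow_right₀ (by norm_num) h0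
  exact le_trans (by norm_num) h1

theorem large_N0 {Ω : Type} [Fintype Ω] [DecidableEq Ω] {G : Subgroup (Equiv.Perm Ω)}
    (hG : WildJ.Prim G) (htr : Tr G)
    (h2t : ¬ ∀ a b a' b' : Ω, a ≠ b → a' ≠ b' → ∃ g ∈ G, g a = a' ∧ g b = b')
    {D : Finset (Ω × Ω)} (hD : Orb G D) {ι : Type} (I : Finset ι) (σ : ι → Equiv.Perm Ω)
    (hσ : ∀ i ∈ I, σ i ∈ G)
    (h1 : ∑ i ∈ I, ∑ x : Ω, (1 - 1 / (Function.minimalPeriod (σ i) x : ℚ)) =
      2 * Fintype.card Ω - 2)
    (h2 : ∑ i ∈ I, ∑ p ∈ D, (1 - 1 / (Nat.lcm (Function.minimalPeriod (σ i) p.1)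
      (Function.minimalPeriod (σ i) p.2) : ℚ)) ≤ 2 * D.card)
    (h3 : 2 < ∑ i ∈ I, (1 - 1 / (orderOf (σ i) : ℚ))) :
    Fintype.card Ω < twoPow 100 := by
  rw [twoPow_def]
  exact large_expl hG htr h2t hD I σ hσ h1 h2 h3

/-- **Wild indecomposable rational functions of large degree, explicit constant.** -/
theorem large_hard_expl (A : RF) (hN : twoPow 100 ≤ A.n) (hi : Indec A) (hw : A.Wild) :
    GalLe A ∨ TypAB A := by
  have h11 : 11 ≤ A.n := le_trans (twoPow_ge (by norm_num)) hN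
  have hN0 : ∀ (K : Type) [Field K] [Algebra ℂ K] (_ : Good K) (A : RF)
      (_ : WildG.NormG A) (_ : Indec A) (φ ψ : E →ₐ[ℂ] K) (_ : φ ≠ ψ)
      (_ : φ (elt A) = ψ (elt A)), twoPow 100 ≤ A.n → GalLe A ∨ TypAB A :=
    fun K _ _ hK A hA hi φ ψ hne h0 hN =>
      large_norm_gen large_N0 hK A hA hi φ ψ hne h0 hN (le_trans (twoPow_ge (by norm_num)) hN)
  rcases hw with hr | ⟨f, hf3, hsq, hsol⟩
  · exact Final_good hN0 good_E A (by omega) hN hi hr
  · have := kf_fact f (by rw [hf3]; decide)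
    exact Final_good hN0 (good_KF f hf3 hsq) A (by omega) hN hi hsol

/-! ### The classification -/

/-- The functions for which the classification is complete: there is a coprime index, or the degree is
prime, or the curve is irreducible, or the function is indecomposable of large degree. -/
def Cls (A : RF) : Prop :=
  (∃ z, WildJ.LoneC A z) ∨ A.n.Prime ∨ IrrCurve A ∨ (Indec A ∧ twoPow 100 ≤ A.n)

theorem comp_self (A : RF) : A.IsComp Normal_id A := by
  show A.app (RatFunc.X : RatFunc ℂ) = Normal_id.app (A.app (RatFunc.X : RatFunc ℂ))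
  unfold Normal_id RF.app
  simp

theorem cls_hard (A : RF) (hn : 2 ≤ A.n) (hc : Cls A) (hw : A.Wild) :
    ∃ B C : RF, A.IsComp B C ∧ 2 ≤ C.n ∧ Lst C := by
  rcases hc with ⟨z, hz⟩ | hp | hirr | ⟨hi, hN⟩
  · obtain ⟨B, C, h1, h2, -, -, h3⟩ := WildJ.loneC_explicit A (by omega) hz hw
    exact ⟨B, C, h1, h2, lst_of_Ty h2 h3⟩
  · exact ⟨Normal_id, A, comp_self A, hn, lst_of_Ty hn (prime_explicit A hp hw)⟩
  · exact ⟨Normal_id, A, comp_self A, hn, lst_of_J hn (irr_explicit A hn hirr hw)⟩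
  · refine ⟨Normal_id, A, comp_self A, hn, ?_⟩
    rcases large_hard_expl A hN hi hw with h | h
    · exact Or.inl h
    · exact Or.inr (Or.inl h)

end WildLD
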