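import Pool.Agent.helper21.LD.BasicB

/-! Points distinguished by a stabilizer. -/

namespace WildLD

open Equiv WildJ

variable {Ω : Type} [Fintype Ω] [DecidableEq Ω]

private theorem SuppA_ia (g : Perm Ω) (w : Ω) : g⁻¹ (g w) = w := g.symm_apply_apply w

private theorem SuppA_ai (g : Perm Ω) (w : Ω) : g (g⁻¹ w) = w := g.apply_symm_apply w

theorem Sa.refl {G : Subgroup (Perm Ω)} (w u : Ω) : Sa G w u u := by
  exact ⟨1, G.one_mem, rfl, rfl⟩

theorem Sa.symm {G : Subgroup (Perm Ω)} {w u v : Ω} (h : Sa G w u v) : Sa G w v u := by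
  obtain ⟨g, hg, h1, h2⟩ := h
  refine ⟨g⁻¹, G.inv_mem hg, ?_, ?_⟩
  · rw [Perm.inv_eq_iff_eq, h1]
  · rw [Perm.inv_eq_iff_eq, h2]

theorem Sa.trans {G : Subgroup (Perm Ω)} {w u v z : Ω} (h : Sa G w u v) (h' : Sa G w v z) :
    Sa G w u z := by
  obtain ⟨g, hg, h1, h2⟩ := h
  obtain ⟨g', hg', h1', h2'⟩ := h'
  refine ⟨g' * g, G.mul_mem hg' hg, ?_, ?_⟩
  · rw [Perm.mul_apply, h1, h1']
  · rw [Perm.mul_apply, h2, h2']

theorem Sa.map {G : Subgroup (Perm Ω)} {w u v : Ω} (h : Sa G w u v) {g : Perm Ω} (hg : g ∈ G) :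
    Sa G (g w) (g u) (g v) := by
  obtain ⟨k, hk, h1, h2⟩ := h
  refine ⟨g * k * g⁻¹, G.mul_mem (G.mul_mem hg hk) (G.inv_mem hg), ?_, ?_⟩
  · rw [Perm.mul_apply, Perm.mul_apply, SuppA_ia, h1]
  · rw [Perm.mul_apply, Perm.mul_apply, SuppA_ia, h2]

/-- Conjugate points have the same distance from `w`. -/
theorem Sa.dist {G : Subgroup (Perm Ω)} {D : Finset (Ω × Ω)} (hD : Orb G D) {w u v : Ω}
    (h : Sa G w u v) : (Gam D).dist w u = (Gam D).dist w v := by
  obtain ⟨g, hg, h1, h2⟩ := h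
  have h3 := dist_map hD hg w u
  rw [h1, h2] at h3
  exact h3.symm

theorem Ds_card {G : Subgroup (Perm Ω)} {g : Perm Ω} (hg : g ∈ G) (u v : Ω) :
    (Ds G (g u) (g v)).card = (Ds G u v).card := by
  classical
  symm
  refine Finset.card_bij (fun w _ => g w) ?_ (fun a _ b _ hab => g.injective hab) ?_
  · intro w hw
    unfold Ds at hw ⊢
    rw [Finset.mem_filter] at hw ⊢
    refine ⟨Finset.mem_univ _, fun hs => hw.2 ?_⟩
    have h1 := Sa.map hs (G.inv_mem hg)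
    rwa [SuppA_ia, SuppA_ia, SuppA_ia] at h1
  · intro w hw
    refine ⟨g⁻¹ w, ?_, SuppA_ai g w⟩
    unfold Ds at hw ⊢
    rw [Finset.mem_filter] at hw ⊢
    refine ⟨Finset.mem_univ _, fun hs => hw.2 ?_⟩
    have h1 := Sa.map hs hg
    rwa [SuppA_ai] at h1

theorem Ds_tri {G : Subgroup (Perm Ω)} (u v z : Ω) :
    (Ds G u z).card ≤ (Ds G u v).card + (Ds G v z).card := by
  classical
  refine (Finset.card_le_card ?_).trans (Finset.card_union_le _ _)
  intro w hw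
  unfold Ds at hw ⊢
  rw [Finset.mem_filter] at hw
  rw [Finset.mem_union, Finset.mem_filter, Finset.mem_filter]
  by_contra hcon
  push Not at hcon
  exact hw.2 (Sa.trans (hcon.1 (Finset.mem_univ _)) (hcon.2 (Finset.mem_univ _)))

theorem Ds_symm {G : Subgroup (Perm Ω)} (u v : Ω) : (Ds G u v).card = (Ds G v u).card := by
  classical
  congr 1
  unfold Ds
  ext w
  rw [Finset.mem_filter, Finset.mem_filter]
  exact ⟨fun h => ⟨h.1, fun h' => h.2 h'.symm⟩, fun h => ⟨h.1, fun h' => h.2 h'.symm⟩⟩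

/-- The points distinguishing `x` and `h x` are not fixed by `h`. -/
theorem Ds_supp {G : Subgroup (Perm Ω)} {h : Perm Ω} (hh : h ∈ G) (x : Ω) :
    (Ds G x (h x)).card ≤ (Fx h)ᶜ.card := by
  classical
  refine Finset.card_le_card ?_
  intro w hw
  unfold Ds at hw
  rw [Finset.mem_filter] at hw
  rw [Finset.mem_compl]
  intro hf
  unfold Fx at hf
  rw [Finset.mem_filter] at hf
  exact hw.2 ⟨h, hh, hf.2, rfl⟩

end WildLD
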