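import Pool.Agent.helper21.LD.SuppA
import Pool.Agent.helper21.LD.IsoB

/-! Small distinguishing sets bound the diameter. -/

namespace WildLD

open Equiv WildJ

variable {Ω : Type} [Fintype Ω] [DecidableEq Ω]

private theorem SuppB_mem_Ds {G : Subgroup (Perm Ω)} {u v w : Ω} :
    w ∈ Ds G u v ↔ ¬ Sa G w u v := by
  classical
  simp [Ds]

private theorem SuppB_mem_Sp {D : Finset (Ω × Ω)} {v y : Ω} {r : ℕ} :
    y ∈ Sp D v r ↔ (Gam D).dist v y = r := by
  classical
  simp [Sp]

private theorem SuppB_k_pos {G : Subgroup (Perm Ω)} {x y : Ω} (hxy : x ≠ y) {k : ℕ}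
    (hk : (Ds G x y).card ≤ k) : 1 ≤ k := by
  have hx : x ∈ Ds G x y := by
    rw [SuppB_mem_Ds]
    rintro ⟨g, _, h1, h2⟩
    exact hxy (h1.symm.trans h2)
  have : 0 < (Ds G x y).card := Finset.card_pos.mpr ⟨x, hx⟩
  omega

private theorem SuppB_Ds_orb {G : Subgroup (Perm Ω)} {x y u v : Ω}
    (h : (u, v) ∈ orbOf G x y) : (Ds G u v).card = (Ds G x y).card := by
  classical
  unfold orbOf at h
  rw [Finset.mem_filter] at h
  obtain ⟨_, g, hg, h1, h2⟩ := h
  simp only at h1 h2
  rw [← h1, ← h2]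
  exact Ds_card hg x y

/-- **Diameter.**  If some pair `x ≠ y` is distinguished by at most `k` points, the balls of radius `8 k - 1`
of all orbitals are everything.

Proof.  Let `X = orbOf G x y` with degree `m ≥ 1`, `Y` an orbital.  Suppose the ball `Bl Y v (8 k - 1)` is not
everything for some `v` (hence for all, `Bl_card`).  For every `w` and `0 ≤ j ≤ 8 k` the sphere `Sp Y w j` is not
empty (`exists_dist`) and not everything, so `m ≤ 8 ex X (Sp Y w j)` (`econn`).  An arc `(u, v)` of `X` leaving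
`Sp Y w j` has `dist w u = j ≠ dist w v`, so `w ∈ Ds G u v` (`Sa.dist`).  For fixed `w` the sum over `j`:
`(8 k + 1) m ≤ 8 * (number of the arcs (u, v) of X with w ∈ Ds G u v)`.  Sum over `w`:
`(8 k + 1) m n ≤ 8 * ∑ (u, v) ∈ X, card (Ds G u v) ≤ 8 * (n m) * k` (`Ds_card`), a contradiction. -/
theorem diam_le {G : Subgroup (Perm Ω)} (hG : Prim G) (htr : Tr G) {x y : Ω} (hxy : x ≠ y) {k : ℕ}
    (hk : (Ds G x y).card ≤ k) {Y : Finset (Ω × Ω)} (hY : Orb G Y) (v : Ω) :
    Bl Y v (8 * k - 1) = Finset.univ := by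
  classical
  by_contra hne
  have hk1 := SuppB_k_pos hxy hk
  have hX : Orb G (orbOf G x y) := orbOf_orb hxy
  obtain ⟨m, hm1, hm⟩ := exists_deg htr hX
  have hcX := conn hG hX
  have hcY := conn hG hY
  have hall : ∀ w, Bl Y w (8 * k - 1) ≠ Finset.univ := by
    intro w hw
    apply hne
    rw [← Finset.card_eq_iff_eq_univ] at hw ⊢
    rw [Bl_card htr hY v w]
    exact hw
  have hec : ∀ w, ∀ j ≤ 8 * k, m ≤ 8 * ex (orbOf G x y) (Sp Y w j) := by
    intro w j hj
    have h1 : (Sp Y w j).Nonempty := by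
      obtain ⟨z, hz⟩ := exists_dist hcY (hall w) (j := j) (by omega)
      exact ⟨z, SuppB_mem_Sp.mpr hz⟩
    have h2 : Sp Y w j ≠ Finset.univ := by
      obtain ⟨z, hz⟩ := exists_dist hcY (hall w) (j := if j = 0 then 1 else 0)
        (by split_ifs <;> omega)
      intro he
      have : z ∈ Sp Y w j := by
        rw [he]
        exact Finset.mem_univ _
      rw [SuppB_mem_Sp] at this
      rw [this] at hz
      split_ifs at hz <;> omega
    exact econn htr hX hm hcX h1 h2
  have hw : ∀ w, (8 * k + 1) * m ≤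
      8 * ((orbOf G x y).filter fun p => w ∈ Ds G p.1 p.2).card := by
    intro w
    have h1 : ∑ j ∈ Finset.range (8 * k + 1), m ≤
        ∑ j ∈ Finset.range (8 * k + 1), 8 * ex (orbOf G x y) (Sp Y w j) :=
      Finset.sum_le_sum fun j hj => hec w j (by
        rw [Finset.mem_range] at hj
        omega)
    rw [Finset.sum_const, Finset.card_range, smul_eq_mul, ← Finset.mul_sum] at h1
    refine h1.trans (Nat.mul_le_mul_left 8 ?_)
    unfold ex
    rw [← Finset.card_biUnion]
    · apply Finset.card_le_card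
      intro p hp
      rw [Finset.mem_biUnion] at hp
      obtain ⟨j, _, hp⟩ := hp
      rw [Finset.mem_filter] at hp
      rw [Finset.mem_filter]
      refine ⟨hp.1, ?_⟩
      rw [SuppB_mem_Ds]
      intro hs
      have h3 := Sa.dist hY hs
      apply hp.2.2
      rw [SuppB_mem_Sp, ← h3]
      exact SuppB_mem_Sp.mp hp.2.1
    · intro a _ b _ hab
      rw [Function.onFun, Finset.disjoint_left]
      intro p hp hp'
      rw [Finset.mem_filter] at hp hp'
      apply hab
      rw [← SuppB_mem_Sp.mp hp.2.1, ← SuppB_mem_Sp.mp hp'.2.1]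
  have hsum : ∑ w : Ω, (8 * k + 1) * m ≤
      ∑ w : Ω, 8 * ((orbOf G x y).filter fun p => w ∈ Ds G p.1 p.2).card :=
    Finset.sum_le_sum fun w _ => hw w
  rw [Finset.sum_const, Finset.card_univ, smul_eq_mul, ← Finset.mul_sum] at hsum
  have hdc : ∑ w : Ω, ((orbOf G x y).filter fun p => w ∈ Ds G p.1 p.2).card =
      ∑ p ∈ orbOf G x y, (Ds G p.1 p.2).card := by
    have h1 : ∀ w : Ω, ((orbOf G x y).filter fun p => w ∈ Ds G p.1 p.2).card =
        ∑ p ∈ orbOf G x y, if w ∈ Ds G p.1 p.2 then 1 else 0 := by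
      intro w
      rw [Finset.card_filter]
    simp only [h1]
    rw [Finset.sum_comm]
    refine Finset.sum_congr rfl fun p _ => ?_
    simp
  rw [hdc] at hsum
  have hle : ∑ p ∈ orbOf G x y, (Ds G p.1 p.2).card ≤ (orbOf G x y).card * k := by
    have : ∑ p ∈ orbOf G x y, (Ds G p.1 p.2).card ≤ ∑ p ∈ orbOf G x y, k :=
      Finset.sum_le_sum fun p hp => by
        rw [SuppB_Ds_orb hp]
        exact hk
    rwa [Finset.sum_const, smul_eq_mul] at this
  rw [hm] at hle
  have hn : 1 ≤ Fintype.card Ω := Fintype.card_pos_iff.mpr ⟨x⟩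
  have hfin : Fintype.card Ω * ((8 * k + 1) * m) ≤ 8 * (Fintype.card Ω * m * k) :=
    hsum.trans (Nat.mul_le_mul_left 8 hle)
  have hnm : 1 ≤ Fintype.card Ω * m := Nat.mul_pos hn hm1
  nlinarith

private theorem SuppB_walk {G : Subgroup (Perm Ω)} {x y : Ω} {k : ℕ}
    (hk : (Ds G x y).card ≤ k) {u v : Ω} (p : (Gam (orbOf G x y)).Walk u v) :
    (Ds G u v).card ≤ p.length * k := by
  induction p with
  | nil =>
    rename_i u
    have : Ds G u u = ∅ := by
      rw [Finset.eq_empty_iff_forall_notMem]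
      intro w hw
      exact SuppB_mem_Ds.mp hw (Sa.refl w u)
    rw [this]
    simp
  | cons h p ih =>
    rename_i u a b
    have h1 : (Ds G u a).card ≤ k := by
      unfold Gam at h
      rw [SimpleGraph.fromRel_adj] at h
      rcases h.2 with h2 | h2
      · rw [SuppB_Ds_orb h2]
        exact hk
      · rw [Ds_symm, SuppB_Ds_orb h2]
        exact hk
    have h2 := Ds_tri (G := G) u a b
    rw [SimpleGraph.Walk.length_cons, Nat.add_mul]
    omega

/-- All pairs are distinguished by at most `8 k ^ 2` points.  Proof: `diam_le` for `Y = orbOf G x y`;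
triangle inequality along a walk in the graph of `Y` (`Ds_card`, `Ds_symm`, `Ds_tri`). -/
theorem Ds_le {G : Subgroup (Perm Ω)} (hG : Prim G) (htr : Tr G) {x y : Ω} (hxy : x ≠ y) {k : ℕ}
    (hk : (Ds G x y).card ≤ k) (u v : Ω) : (Ds G u v).card ≤ 8 * k ^ 2 := by
  classical
  have hX : Orb G (orbOf G x y) := orbOf_orb hxy
  have hcX := conn hG hX
  have hd := diam_le hG htr hxy hk hX u
  have hv : v ∈ Bl (orbOf G x y) u (8 * k - 1) := by
    rw [hd]
    exact Finset.mem_univ _
  unfold Bl at hv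
  rw [Finset.mem_filter] at hv
  obtain ⟨p, hp⟩ := hcX.exists_walk_length_eq_dist u v
  have h1 := SuppB_walk hk p
  rw [hp] at h1
  have h2 : (Gam (orbOf G x y)).dist u v * k ≤ 8 * k * k :=
    Nat.mul_le_mul_right k (hv.2.trans (Nat.sub_le _ _))
  calc (Ds G u v).card ≤ 8 * k * k := h1.trans h2
    _ = 8 * k ^ 2 := by ring

end WildLD
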